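import Pool.Agent.V5helper86.AP.Fin
import Pool.Agent.Q71.TS.Stp

/-!
# The standard conjecture of Hodge type for all powers: the general induction
-/

open CategoryTheory AlgebraicGeometry Finset Function

set_option linter.unusedSectionVars false

universe u v w x

namespace Pool.Agent.V5helper86.AP

open Pool.Agent.H914 Pool.Agent.H914.VarClass Pool.Agent.H914.VarClass.Obj
  Pool.Agent.H914.WeilCohomology Pool.Agent.H281R3.HT Pool.Agent.W552 Pool.Agent.H447
  Pool.Agent.TH125.Gal Pool.Agent.Y127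

variable {k : Type u} [Field k] {𝒱 : VarClass k} {ops : CycleOps 𝒱} {Λ : Type x}
  {V : Λ → WeilCohomology.{u, v} ops} {l₀ : Λ} {ι : Type} {P : ι → Polarized 𝒱}
  {Z : Polarized 𝒱} {Al : Set ι → Set 𝒱.Obj}

theorem tgt_lspanP {W : WeilCohomology.{u, v} ops} {P : Polarized 𝒱} {n : ℕ} {s : SB W P.X}
    (hDX : HomEqNum W P.X) (hmid : transcendental W P.X ≤ W.gr P.X P.X.dim) {B : 𝒱.Obj}
    {c : W.H ((nest ops n fun _ => P).X.prod B)} (hc : c ∈ Tgt (P := P) s n B) :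
    c ∈ LSpan W (nest ops n fun _ => P).X B := by
  refine Submodule.span_mono ?_ hc
  rintro c ⟨S, i, m, w, hm, rfl⟩
  exact ⟨m, hm.alg hDX hmid, w, rfl⟩

/-- What is needed for the induction: `Al S` is a set of varieties whose cohomology is made of
the `P i` with `i ∈ S` and of `Z`. -/
structure ASys (V : Λ → WeilCohomology.{u, v} ops) (l₀ : Λ) (P : ι → Polarized 𝒱)
    (Z : Polarized 𝒱) (Al : Set ι → Set 𝒱.Obj) : Prop where
  mem : ∀ i, (P i).X ∈ Al {i}
  mem_base : Z.X ∈ Al ∅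
  prod : ∀ {S S' A B}, A ∈ Al S → B ∈ Al S' → A.prod B ∈ Al (S ∪ S')
  pol : ∀ i, IsPolarization (V l₀) (P i).X (P i).D
  even : ∀ i, Even (P i).X.dim
  middle : ∀ i, transcendental (V l₀) (P i).X ≤ (V l₀).gr (P i).X (P i).X.dim
  one_ne : ∀ i, (1 : (V l₀).H (P i).X) ≠ 0
  rank : ∀ i, 3 ≤ transRank (V l₀) (P i).X
  tgt : ∀ {S i B n}, i ∉ S → B ∈ Al S → n + 1 < transRank (V l₀) (P i).X →
    ∃ s : SB (V l₀) (P i).X, ∀ q ≤ n, ∀ c : (V l₀).H ((nest ops q fun _ => P i).X.prod B),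
      W552.AS (V l₀) _ c → c ∈ Tgt s q B
  inv : ∀ {S i B}, i ∉ S → B ∈ Al S → ∀ {n : ℕ} {s : SB (V l₀) (P i).X}
    {b : Module.Basis (Fin (n + 1) → Fin s.NC ⊕ Fin s.NT) (V l₀).K
      ((V l₀).H (nest ops n fun _ => P i).X)},
    (∀ r, b r = mono (prj ops n fun _ => P i) fun p => s.e (r p)) →
    ∀ {c : (V l₀).H ((nest ops n fun _ => P i).X.prod B)}, W552.AS (V l₀) _ c →
      InvF (gram s) fun r => ctr (b.coord r) c
  alg : ∀ {S : Set ι} {Ω : 𝒱.Obj} {ω : ∀ l, (V l).H Ω} {d : ℚ} {e : ℕ}, Ω ∈ Al S →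
    TD V Ω ω d e → ∀ z, TS (V l₀) Ω (ω l₀) Z.X z → z ∈ algSpan (V l₀) Z.X

namespace ASys

variable (h : ASys V l₀ P Z Al)

include h

theorem nest_mem (i : ι) (n : ℕ) : (nest ops n fun _ => P i).X ∈ Al {i} := by
  induction n with
  | zero => exact h.mem i
  | succ n ih =>
    have h1 := h.prod (h.mem i) ih
    rw [Set.union_self] at h1
    exact h1

theorem tower_mem (L : List (ι × ℕ)) : (tower' ops P Z L).X ∈ Al {i | i ∈ L.map Prod.fst} := by
  induction L with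
  | nil =>
    have h2 : {i : ι | i ∈ List.map Prod.fst ([] : List (ι × ℕ))} = ∅ := by
      ext i
      simp
    rw [h2]
    exact h.mem_base
  | cons a L ih =>
    have h1 := h.prod (h.nest_mem a.1 a.2) ih
    have h2 : {i | i ∈ List.map Prod.fst (a :: L)} = {a.1} ∪ {i | i ∈ L.map Prod.fst} := by
      ext i
      simp only [List.map_cons, List.mem_cons, Set.mem_ofPred_eq, Set.mem_union,
        Set.mem_singleton_iff]
    rw [h2]
    exact h1

theorem homEqNum (i : ι) : HomEqNum (V l₀) (P i).X := by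
  obtain ⟨f, F, _⟩ := exists_Fp (h.pol i).div (h.pol i).hard (h.pol i).lefschetz (h.pol i).hodge
  exact F.hodge.2

/-- the classes on the powers -/
theorem mq {S : Set ι} {i : ι} {B : 𝒱.Obj} {n : ℕ} (hi : i ∉ S) (hB : B ∈ Al S)
    (hn : n + 1 < transRank (V l₀) (P i).X) (hB1 : (1 : (V l₀).H B) ≠ 0) :
    ∃ s : SB (V l₀) (P i).X, ∀ q ≤ n, ∀ c, W552.AS (V l₀) (nest ops q fun _ => P i).X c →
      c ∈ Submodule.span (V l₀).K {c | ∃ S i', Mq s (prj ops q fun _ => P i) S i' c} := by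
  obtain ⟨s, hs⟩ := h.tgt hi hB hn
  exact ⟨s, fun q hq c hc => mq_of_fst (P := P i) hB1 (hs q hq _ (hc.map (fst _ B)))⟩

/-- positivity on the square -/
theorem hsq {S : Set ι} {i : ι} {B : 𝒱.Obj} (hi : i ∉ S) (hB : B ∈ Al S)
    (hB1 : (1 : (V l₀).H B) ≠ 0)
    {f : Module.End (V l₀).K ((V l₀).H (P i).X)} (F : Fp (V l₀) (P i).X (P i).D f) :
    ∀ x, W552.AS (V l₀) ((P i).X.prod (P i).X) x → x ≠ 0 → ∃ q : ℚ, 0 < q ∧
      bf (V l₀) ((P i).X.prod (P i).X) (ops.pull (fst (P i).X (P i).X) (P i).D +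
        ops.pull (snd (P i).X (P i).X) (P i).D) (extSum (V l₀) f f) x x = q := by
  obtain ⟨s, hs⟩ := h.mq hi hB (n := 1) (by have := h.rank i; omega) hB1
  have hpr : (prj ops 1 (fun _ => P i) 1 : ((P i).X.prod (P i).X) ⟶ (P i).X) =
      snd (P i).X (P i).X := Category.comp_id _
  exact (fp_square (h.homEqNum i) (h.middle i) F s fun c hc =>
    span_two (h.middle i) s (π := prj ops 1 fun _ => P i) rfl hpr
      (hs 1 le_rfl c hc)).pos

/-- positivity on the small powers -/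
theorem fp_nest {S : Set ι} {i : ι} {B : 𝒱.Obj} (hi : i ∉ S) (hB : B ∈ Al S)
    (hB1 : (1 : (V l₀).H B) ≠ 0) {n : ℕ} (hn : n + 1 < transRank (V l₀) (P i).X)
    {f : Module.End (V l₀).K ((V l₀).H (P i).X)} (F : Fp (V l₀) (P i).X (P i).D f)
    (hls : LefStr ((V l₀).isInternal (P i).X) (P i).X.dim
      (LinearMap.mulLeft (V l₀).K ((V l₀).cl (P i).X (P i).D)) f) :
    Fp (V l₀) (nest ops n fun _ => P i).X (nest ops n fun _ => P i).D (fN ops f n) := by
  obtain ⟨s, hs⟩ := h.mq hi hB hn hB1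
  exact fp_nestN F hls (h.pol i).hard (h.pol i).lefschetz (h.homEqNum i) (h.middle i) s
    (h.one_ne i) n (h.hsq hi hB hB1 F) (hs n le_rfl)

end ASys

section tower

variable {W : WeilCohomology.{u, v} ops}

/-- the operators on the products -/
noncomputable def gP (P : ι → Polarized 𝒱) (Z : Polarized 𝒱)
    (f : ∀ i, Module.End W.K (W.H (P i).X)) (g : Module.End W.K (W.H Z.X)) :
    (L : List (ι × ℕ)) → Module.End W.K (W.H (tower' ops P Z L).X)
  | [] => g
  | a :: L => extSum W (fN ops (P := P a.1) (f a.1) a.2) (gP P Z f g L)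

variable {f : ∀ i, Module.End W.K (W.H (P i).X)} {g : Module.End W.K (W.H Z.X)}

theorem gP_fr (hf : ∀ i, Fr W (P i).X (P i).D (f i)) (hg : Fr W Z.X Z.D g) :
    ∀ L : List (ι × ℕ), Fr W (tower' ops P Z L).X (tower' ops P Z L).D (gP P Z f g L)
  | [] => hg
  | a :: L => Fr.prod (fN_fr (P := P a.1) (hf a.1) a.2) (gP_fr hf hg L)

theorem gP_sy (hf : ∀ i, Fr W (P i).X (P i).D (f i)) (hfs : ∀ i, Sy W (P i).X (P i).D (f i))
    (hg : Fr W Z.X Z.D g) (hgs : Sy W Z.X Z.D g) :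
    ∀ L : List (ι × ℕ), Sy W (tower' ops P Z L).X (tower' ops P Z L).D (gP P Z f g L)
  | [] => hgs
  | a :: L => (fN_sy (P := P a.1) (hf a.1) (hfs a.1) a.2).prod
    (fN_fr (P := P a.1) (hf a.1) a.2) (gP_fr hf hg L) (gP_sy hf hfs hg hgs L)

end tower

/-- **Positivity for the twisted classes on products with powers.** -/
theorem ASys.tw_tower (h : ASys V l₀ P Z Al)
    {f : ∀ i, Module.End (V l₀).K ((V l₀).H (P i).X)}
    (hf : ∀ i, Fp (V l₀) (P i).X (P i).D (f i))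
    (hls : ∀ i, LefStr ((V l₀).isInternal (P i).X) (P i).X.dim
      (LinearMap.mulLeft (V l₀).K ((V l₀).cl (P i).X (P i).D)) (f i))
    {g : Module.End (V l₀).K ((V l₀).H Z.X)} (hg : Fp (V l₀) Z.X Z.D g)
    (hZ1 : (1 : (V l₀).H Z.X) ≠ 0)
    (hbase : ∀ (S : Set ι) (Ω : 𝒱.Obj) (ω : ∀ l, (V l).H Ω) (d : ℚ) (e : ℕ), Ω ∈ Al S →
      TD V Ω ω d e → Tw (V l₀) Ω (ω l₀) d Z.X Z.D g) :
    ∀ L : List (ι × ℕ), (L.map Prod.fst).Nodup →
      (∀ a ∈ L, a.2 + 1 < transRank (V l₀) (P a.1).X ∨ DetData V l₀ (P a.1) (f a.1)) →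
    ∀ (S : Set ι) (Ω : 𝒱.Obj) (ω : ∀ l, (V l).H Ω) (d : ℚ) (e : ℕ), Ω ∈ Al S →
      TD V Ω ω d e → (∀ a ∈ L, a.1 ∉ S) →
      Tw (V l₀) Ω (ω l₀) d (tower' ops P Z L).X (tower' ops P Z L).D (gP P Z f g L) := by
  intro L
  induction L with
  | nil =>
    intro _ _ S Ω ω d e hΩ hTD _
    exact hbase S Ω ω d e hΩ hTD
  | cons a L ih =>
    intro hL hdat S Ω ω d e hΩ hTD hS
    rw [List.map_cons, List.nodup_cons] at hL
    have ih' := ih hL.2 fun b hb => hdat b (List.mem_cons_of_mem _ hb)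
    have hne : ∀ b ∈ L, b.1 ≠ a.1 := fun b hb hab =>
      hL.1 (List.mem_map.2 ⟨b, hb, hab⟩)
    have haS : a.1 ∉ S := hS a List.mem_cons_self
    set Y := (tower' ops P Z L).X with hY
    have hYm : Y ∈ Al {i | i ∈ L.map Prod.fst} := h.tower_mem L
    have hYΩ : Y.prod Ω ∈ Al ({i | i ∈ L.map Prod.fst} ∪ S) := h.prod hYm hΩ
    have ha1 : a.1 ∉ ({i | i ∈ L.map Prod.fst} ∪ S : Set ι) := by
      rintro (h1 | h1)
      · exact hL.1 h1
      · exact haS h1
    have hpol := h.pol a.1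
    have hmid := h.middle a.1
    have hDX := h.homEqNum a.1
    have hGf := gP_fr (P := P) (Z := Z) (fun i => (hf i).fr) hg.fr L
    have hempty : a.1 ∉ (∅ : Set ι) := Set.notMem_empty _
    by_cases hbig : ¬ a.2 + 1 < transRank (V l₀) (P a.1).X
    · obtain ⟨s, o, R, m, σ, v, κ, q, e', ho, hR, hTDv, hv0, hvv⟩ :=
        (hdat a List.mem_cons_self).resolve_left hbig
      obtain ⟨b, hb⟩ := exists_monoBasis (ops := ops) (P a.1) s.e a.2
      obtain ⟨b', hb'⟩ := exists_monoBasis (ops := ops) (P a.1) s.e m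
      have hsq := h.hsq hempty h.mem_base hZ1 (hf a.1)
      refine tw_even (P := P a.1) (hf a.1) (hls a.1) hpol.hard hpol.lefschetz
        hDX hmid (h.even a.1) (h.one_ne a.1) hsq ho hR hb hb' σ (κ := κ) ?_ hTDv.pos.ne' hvv hGf
        ?_ (ih' S Ω ω d e hΩ hTD fun b hb => hS b (List.mem_cons_of_mem _ hb)) ?_
      · intro r
        rw [hv0, map_smul, smul_eq_mul, v0_coord σ hb']
      · intro u hu
        exact h.inv ha1 hYΩ hb hu
      · refine ih' (S ∪ {a.1}) (Ω.prod (nest ops m fun _ => P a.1).X) _ (d * q)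
          (e + e') (h.prod hΩ (h.nest_mem a.1 m)) (hTD.prod hTDv) fun b hb => ?_
        rintro (h1 | h1)
        · exact hS b (List.mem_cons_of_mem _ hb) h1
        · exact hne b hb h1
    · rw [not_not] at hbig
      obtain ⟨s, hs⟩ := h.tgt ha1 hYΩ hbig
      have hFp := h.fp_nest hempty h.mem_base hZ1 hbig (hf a.1) (hls a.1)
      obtain ⟨N, e0, w, he, hw, horth, hexp⟩ := hFp.exists_onb
      exact tw_step hFp.fr hGf he hw horth hexp (fun u hu => tgt_lspanP (P := P a.1) hDX hmid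
        (hs a.2 le_rfl u hu))
        (ih' S Ω ω d e hΩ hTD fun b hb => hS b (List.mem_cons_of_mem _ hb))

/-- **The standard conjecture of Hodge type for all powers.** -/
theorem ASys.hodge (h : ASys V l₀ P Z Al) (hE : IsPolarization (V l₀) Z.X Z.D)
    (hsq : SqPos V) (L : List (ι × ℕ)) (hL : (L.map Prod.fst).Nodup)
    (hLe : ∀ a ∈ L, a.2 + 1 < transRank (V l₀) (P a.1).X ∨
      ((∀ l, HomEqNum (V l) (P a.1).X) ∧
        (∀ l, transcendental (V l) (P a.1).X ≤ (V l).gr (P a.1).X (P a.1).X.dim) ∧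
        ∃ (N : ℕ) (q : ℚ), 0 < q ∧ ∀ l, HasDisc (V l) (P a.1).X N q)) :
    HodgeType (V l₀) (tower' ops P Z L).X (tower' ops P Z L).D ∧
      HomEqNum (V l₀) (tower' ops P Z L).X := by
  choose f hf hls using fun i => exists_Fp (h.pol i).div (h.pol i).hard (h.pol i).lefschetz
    (h.pol i).hodge
  obtain ⟨g, hg, _⟩ := exists_Fp hE.div hE.hard hE.lefschetz hE.hodge
  have hFp : Fp (V l₀) (tower' ops P Z L).X (tower' ops P Z L).D (gP P Z f g L) := by
    refine ⟨gP_fr (fun i => (hf i).fr) hg.fr L,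
      gP_sy (fun i => (hf i).fr) (fun i => (hf i).sy) hg.fr hg.sy L, fun y hy hy0 => ?_⟩
    by_cases hZ1 : (1 : (V l₀).H Z.X) = 0
    · exfalso
      apply hy0
      rw [← one_mul y, tower_one (P := P) (Q := Z) hZ1 L, zero_mul]
    · have hdet : ∀ a ∈ L, a.2 + 1 < transRank (V l₀) (P a.1).X ∨
          DetData V l₀ (P a.1) (f a.1) := by
        intro a ha
        refine (hLe a ha).imp_right fun h0 => ?_
        obtain ⟨h2, h2', N, q, hq, hdisc⟩ := h0
        refine exists_detData l₀ (P := P a.1) h2 h2' (h.even a.1) (N := N) ?_ hq hdisc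
          (hf a.1)
        obtain ⟨t, -⟩ := hdisc l₀
        have h3 : transRank (V l₀) (P a.1).X = N := by
          rw [transRank, Module.finrank_eq_card_basis t, Fintype.card_fin]
        have h4 := h.rank a.1
        omega
      have hbase : ∀ (S : Set ι) (Ω : 𝒱.Obj) (ω : ∀ l, (V l).H Ω) (d : ℚ) (e : ℕ),
          Ω ∈ Al S → TD V Ω ω d e → Tw (V l₀) Ω (ω l₀) d Z.X Z.D g := by
        intro S Ω ω d e hΩ hTD
        exact tw_base hg (fun z hz => h.alg hΩ hTD z hz) fun u hu => hTD.base hsq hu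
      have h1 := h.tw_tower hf hls hg hZ1 hbase L hL hdet ∅ Z.X (fun _ => 1) 1 0 h.mem_base
        (TD.one V Z.X) fun a _ => Set.notMem_empty _
      obtain ⟨q, hq0, hq1, hq2⟩ := h1 y (ts_one hg.hodge.2 hZ1 hy)
      exact ⟨q, hq1 hy0, by rw [hq2, Rat.cast_one, one_mul]⟩
  exact hFp.hodge

end Pool.Agent.V5helper86.AP
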