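import Pool.Agent.V5helper86.AP.Nin

/-!
# Actions on products and semi-invariance
-/

open CategoryTheory AlgebraicGeometry Finset Function

set_option linter.unusedSectionVars false

universe u v w x

namespace Pool.Agent.V5helper86.AP

open Pool.Agent.H914 Pool.Agent.H914.VarClass Pool.Agent.H914.VarClass.Obj
  Pool.Agent.H914.WeilCohomology Pool.Agent.H281R3.HT Pool.Agent.W552 Pool.Agent.H447
  Pool.Agent.TH125.Gal Pool.Agent.Y127

variable {k : Type u} [Field k] {𝒱 : VarClass k} {ops : CycleOps 𝒱}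
  {W : WeilCohomology.{u, v} ops} {Γ : Type w} [Group Γ] {χ : Γ →* W.Kˣ} {G : Set (GVar W Γ)}

/-- An element which acts trivially on the factors acts trivially on the product. -/
theorem triv_prod {A B : GVar W Γ} {υ : Γ →* (W.H (A.X.prod B.X) ≃ₐ[W.K] W.H (A.X.prod B.X))}
    (h1 : Intertwines (W.map (fst A.X B.X)) A.act υ)
    (h2 : Intertwines (W.map (snd A.X B.X)) B.act υ) {g : Γ} (hA : TrivAct A.act g)
    (hB : TrivAct B.act g) : TrivAct υ g := by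
  intro c
  refine kun_ext (L := fun c => υ g c) (L' := fun c => c) (fun a b => map_add _ a b)
    (fun _ _ => rfl) ?_ c
  intro a z
  rw [map_mul, h1 g a, h2 g z, hA a, hB z]

theorem triv_nest {A : GVar W Γ} {D : A.X.Cycles} {n : ℕ}
    {ν : Γ →* (W.H (nest ops n fun _ => (⟨A.X, D⟩ : Polarized 𝒱)).X ≃ₐ[W.K]
        W.H (nest ops n fun _ => (⟨A.X, D⟩ : Polarized 𝒱)).X)}
    (hν : ∀ p : Fin (n + 1), Intertwines
      (W.map (prj ops n (fun _ => (⟨A.X, D⟩ : Polarized 𝒱)) p)) A.act ν) {g : Γ}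
    (hA : TrivAct A.act g) : TrivAct ν g := by
  intro c
  refine nest_ind (P := ⟨A.X, D⟩) n (p := fun c => ν g c = c) ?_ ?_ ?_ c
  · intro y
    rw [mono, map_list_prod, List.map_ofFn]
    congr 2
    funext p
    exact (hν p g (y p)).trans (congrArg _ (hA (y p)))
  · intro a b ha hb
    rw [map_add, ha, hb]
  · intro r a ha
    rw [map_smul, ha]

/-- the action on the products with powers -/
theorem exists_twist_act (hG : GaloisClass χ G) {Ω A : GVar W Γ} (hΩ : Ω ∈ G) (hA : A ∈ G)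
    (D : A.X.Cycles) (m : ℕ) :
    ∃ υ : Γ →* (W.H (Ω.X.prod (nest ops m fun _ => (⟨A.X, D⟩ : Polarized 𝒱)).X) ≃ₐ[W.K]
        W.H (Ω.X.prod (nest ops m fun _ => (⟨A.X, D⟩ : Polarized 𝒱)).X)),
      (⟨Ω.X.prod (nest ops m fun _ => (⟨A.X, D⟩ : Polarized 𝒱)).X, υ⟩ : GVar W Γ) ∈ G ∧
      ∀ g, TrivAct Ω.act g → TrivAct A.act g → TrivAct υ g := by
  obtain ⟨ν, hν, hν'⟩ := exists_nest_act hG hA D m
  obtain ⟨υ, h1, h2, h3⟩ := hG.prod' hΩ hν
  exact ⟨υ, h3, fun g hgΩ hgA => triv_prod h1 h2 hgΩ (triv_nest hν' hgA)⟩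

/-- the action on products -/
theorem exists_prod_act (hG : GaloisClass χ G) {A B : GVar W Γ} (hA : A ∈ G) (hB : B ∈ G) :
    ∃ υ : Γ →* (W.H (A.X.prod B.X) ≃ₐ[W.K] W.H (A.X.prod B.X)),
      (⟨A.X.prod B.X, υ⟩ : GVar W Γ) ∈ G ∧
      ∀ g, TrivAct A.act g → TrivAct B.act g → TrivAct υ g := by
  obtain ⟨υ, h1, h2, h3⟩ := hG.prod' hA hB
  exact ⟨υ, h3, fun g hgA hgB => triv_prod h1 h2 hgA hgB⟩

section semi

/-- the elements which act on a class by a power of the character -/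
def semiSub (χ : Γ →* W.Kˣ) (Ω : GVar W Γ) (ω : W.H Ω.X) (e : ℕ) : Subgroup Γ where
  carrier := {g | Ω.act g ω = (χ g : W.K) ^ e • ω}
  mul_mem' := by
    intro g g' hg hg'
    simp only [Set.mem_ofPred_eq] at hg hg' ⊢
    rw [map_mul, AlgEquiv.mul_apply, hg', map_smul, hg, smul_smul, map_mul, Units.val_mul,
      mul_pow, mul_comm]
  one_mem' := by
    simp only [Set.mem_ofPred_eq]
    rw [map_one, map_one, Units.val_one, one_pow, one_smul]
    rfl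
  inv_mem' := by
    intro g hg
    simp only [Set.mem_ofPred_eq] at hg ⊢
    have h1 : Ω.act g⁻¹ (Ω.act g ω) = ω := by
      rw [← AlgEquiv.mul_apply, ← map_mul, inv_mul_cancel, map_one]
      rfl
    rw [hg, map_smul] at h1
    have hχ : (χ g : W.K) ^ e ≠ 0 := pow_ne_zero _ (Units.ne_zero _)
    have h2 : Ω.act g⁻¹ ω = ((χ g : W.K) ^ e)⁻¹ • ω := by
      conv_rhs => rw [← h1]
      rw [smul_smul, inv_mul_cancel₀ hχ, one_smul]
    rw [h2, map_inv, Units.val_inv_eq_inv_val, inv_pow]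

theorem mem_semiSub {Ω : GVar W Γ} {ω : W.H Ω.X} {e : ℕ} {g : Γ} :
    g ∈ semiSub χ Ω ω e ↔ Ω.act g ω = (χ g : W.K) ^ e • ω := Iff.rfl

/-- **A class whose external square is algebraic is semi-invariant.** -/
theorem semi (hG : GaloisClass χ G) {Ω : GVar W Γ} (hΩ : Ω ∈ G) {ω : W.H Ω.X} {e : ℕ}
    (hω : ω ∈ W.gr Ω.X (2 * e)) {Θ : W.H (Ω.X.prod Ω.X)} (hΘ : W552.AS W (Ω.X.prod Ω.X) Θ)
    {d : W.K} (hd : d ≠ 0)
    (hsq : W.map (fst Ω.X Ω.X) ω * W.map (snd Ω.X Ω.X) ω = d • Θ) :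
    ∃ Δ : Subgroup Γ, Δ.FiniteIndex ∧ ∀ g ∈ Δ, Ω.act g ω = (χ g : W.K) ^ e • ω := by
  by_cases hω0 : ω = 0
  · refine ⟨⊤, inferInstance, fun g _ => ?_⟩
    rw [hω0, map_zero, smul_zero]
  obtain ⟨υ, h1, h2, hυ⟩ := hG.prod' hΩ hΩ
  have hΘ' : Θ ∈ W.gr (Ω.X.prod Ω.X) (2 * (2 * e)) := by
    have h3 : Θ = d⁻¹ • (W.map (fst Ω.X Ω.X) ω * W.map (snd Ω.X Ω.X) ω) := by
      rw [hsq, smul_smul, inv_mul_cancel₀ hd, one_smul]
    rw [h3, show 2 * (2 * e) = 2 * e + 2 * e by ring]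
    exact Submodule.smul_mem _ _ (W.mul_mem (W.map_mem _ hω) (W.map_mem _ hω))
  obtain ⟨Δ, hΔ, hfix⟩ := (hG.galois _ hυ).cl_fix (2 * e) Θ (hΘ.alg hΘ')
  obtain ⟨φ, hφ⟩ : ∃ φ : W.H Ω.X →ₗ[W.K] W.K, φ ω = 1 := by
    obtain ⟨φ, hφ⟩ : ∃ φ : Module.Dual W.K (W.H Ω.X), φ ω ≠ 0 := by
      by_contra hcon
      push Not at hcon
      exact hω0 ((Module.forall_dual_apply_eq_zero_iff W.K _).1 hcon)
    exact ⟨(φ ω)⁻¹ • φ, by rw [LinearMap.smul_apply, smul_eq_mul, inv_mul_cancel₀ hφ]⟩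
  have key : ∀ g ∈ Δ, Ω.act g ω = (χ g : W.K) ^ e • ω ∨ Ω.act g ω = -((χ g : W.K) ^ e • ω) := by
    intro g hg
    have hχ : (χ g : W.K) ^ e ≠ 0 := pow_ne_zero _ (Units.ne_zero _)
    have h3 := congrArg (υ g) hsq
    have h4 : υ g Θ = (χ g : W.K) ^ (2 * e) • Θ := hfix g hg
    rw [map_mul, h1 g, h2 g, map_smul, h4, smul_comm, ← hsq] at h3
    have h5 := congrArg (ctr φ) h3
    rw [ctr_apply, map_smul, ctr_apply, hφ, one_smul] at h5
    have h6 := congrArg φ h5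
    rw [map_smul, map_smul, hφ, smul_eq_mul, smul_eq_mul, mul_one] at h6
    have h7 : φ (Ω.act g ω) = (χ g : W.K) ^ e ∨ φ (Ω.act g ω) = -(χ g : W.K) ^ e := by
      refine sq_eq_sq_iff_eq_or_eq_neg.1 ?_
      rw [pow_two, h6, ← pow_mul, mul_comm]
    have h8 : (χ g : W.K) ^ (2 * e) = (χ g : W.K) ^ e * (χ g : W.K) ^ e := by
      rw [← pow_add, two_mul]
    rcases h7 with h7 | h7
    · left
      rw [h7, h8, mul_smul] at h5
      exact smul_right_injective _ hχ h5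
    · right
      rw [h7, h8, mul_smul, neg_smul, ← smul_neg] at h5
      have h9 := smul_right_injective _ hχ h5
      rw [← h9, neg_neg]
  refine ⟨Δ ⊓ semiSub χ Ω ω e, ?_, fun g hg => hg.2⟩
  by_cases hall : ∀ g ∈ Δ, g ∈ semiSub χ Ω ω e
  · rw [inf_eq_left.2 hall]
    exact hΔ
  · push Not at hall
    obtain ⟨a, ha, haS⟩ := hall
    have hrel : (Δ ⊓ semiSub χ Ω ω e).relIndex Δ = 2 := by
      rw [Subgroup.relIndex_eq_two_iff_exists_notMem_and]
      refine ⟨a, ha, fun h => haS h.2, fun b hb => ?_⟩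
      by_cases hbS : b ∈ semiSub χ Ω ω e
      · exact Or.inr ⟨hb, hbS⟩
      · left
        refine ⟨Δ.mul_mem hb ha, ?_⟩
        change b * a ∈ semiSub χ Ω ω e
        rw [mem_semiSub] at haS hbS ⊢
        have ha' := (key a ha).resolve_left haS
        have hb' := (key b hb).resolve_left hbS
        rw [map_mul, AlgEquiv.mul_apply, ha', map_neg, map_smul, hb', smul_neg, neg_neg,
          smul_smul, map_mul, Units.val_mul, mul_pow, mul_comm]
    refine ⟨?_⟩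
    rw [← Subgroup.relIndex_mul_index (inf_le_left : Δ ⊓ semiSub χ Ω ω e ≤ Δ), hrel]
    exact mul_ne_zero two_ne_zero hΔ.index_ne_zero

end semi

/-- equivariance of the push-forward -/
theorem act_push {A B : GVar W Γ} {υ : Γ →* (W.H (A.X.prod B.X) ≃ₐ[W.K] W.H (A.X.prod B.X))}
    (hA : IsGaloisVar χ A) (hυ : IsGaloisVar χ (⟨A.X.prod B.X, υ⟩ : GVar W Γ))
    (h1 : Intertwines (W.map (fst A.X B.X)) A.act υ) (g : Γ) (c : W.H (A.X.prod B.X)) :
    (χ g : W.K) ^ B.X.dim • A.act g (W.push (fst A.X B.X) c) = W.push (fst A.X B.X) (υ g c) := by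
  refine W.tr_ext fun b => ?_
  obtain ⟨b', rfl⟩ : ∃ b', A.act g b' = b := ⟨(A.act g).symm b, AlgEquiv.apply_symm_apply _ _⟩
  rw [W.tr_push, ← h1 g, ← map_mul, smul_mul_assoc, map_smul, ← map_mul]
  have e1 : W.tr A.X (A.act g (W.push (fst A.X B.X) c * b')) =
      (χ g : W.K) ^ A.X.dim * W.tr A.X (W.push (fst A.X B.X) c * b') := hA.tr_act g _
  have e2 : W.tr (A.X.prod B.X) (υ g (c * W.map (fst A.X B.X) b')) =
      (χ g : W.K) ^ (A.X.prod B.X).dim * W.tr (A.X.prod B.X) (c * W.map (fst A.X B.X) b') :=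
    hυ.tr_act g _
  rw [e1, e2, W.tr_push, dim_prod, pow_add, smul_eq_mul]
  ring

/-- **Twisted classes are algebraic, by the Tate conjecture.** -/
theorem ts_alg (hG : GaloisClass χ G) {Z Ω : GVar W Γ} (hZ : Z ∈ G) (hΩ : Ω ∈ G)
    (hT : TateConjecture χ Z) {ω : W.H Ω.X} {e : ℕ}
    (hω : ω ∈ W.gr Ω.X (2 * e)) {Δ : Subgroup Γ} (hΔ : Δ.FiniteIndex)
    (hfix : ∀ g ∈ Δ, Ω.act g ω = (χ g : W.K) ^ e • ω) {z : W.H Z.X} (hz : TS W Ω.X ω Z.X z) :
    z ∈ algSpan W Z.X := by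
  obtain ⟨υ, h1, h2, hυ⟩ := hG.prod' hZ hΩ
  obtain ⟨u, hu, rfl⟩ := hz
  refine W552.AS.ind (p := fun u => cnr ω u ∈ algSpan W Z.X) ?_ ?_ hu
  · intro j u hu
    obtain ⟨Δ', hΔ', hfix'⟩ := (hG.galois _ hυ).cl_fix j u hu
    have h3 : u * W.map (snd Z.X Ω.X) ω ∈ W.gr (Z.X.prod Ω.X) (2 * j + 2 * e) :=
      W.mul_mem (alg_gr hu) (W.map_mem _ hω)
    have h4 := W.push_mem (fst Z.X Ω.X) h3
    rw [← cnr_apply] at h4
    by_cases hje : Ω.X.dim ≤ j + e
    · have h5 : ((2 * j + 2 * e : ℕ) : ℤ) + 2 * ((Z.X.dim : ℤ) - (Z.X.prod Ω.X).dim) =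
          ((2 * (j + e - Ω.X.dim) : ℕ) : ℤ) := by
        rw [dim_prod]
        push_cast [Nat.cast_sub hje]
        ring
      rw [h5, grZ_natCast] at h4
      have h6 := hT (j + e - Ω.X.dim) (cnr ω u) h4 ⟨Δ ⊓ Δ', inferInstance, fun g hg => ?_⟩
      · exact Submodule.span_mono (Set.subset_iUnion _ _) h6
      · have hχ : (χ g : W.K) ≠ 0 := Units.ne_zero _
        have h7 := act_push (A := Z) (B := Ω) (hG.galois _ hZ) (hG.galois _ hυ) h1 g
          (u * W.map (snd Z.X Ω.X) ω)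
        have h8 : υ g u = (χ g : W.K) ^ j • u := hfix' g hg.2
        rw [map_mul (υ g), h8, h2 g, hfix g hg.1, map_smul, smul_mul_smul_comm, map_smul,
          ← cnr_apply] at h7
        have h9 : (χ g : W.K) ^ j * (χ g : W.K) ^ e =
            (χ g : W.K) ^ Ω.X.dim * (χ g : W.K) ^ (j + e - Ω.X.dim) := by
          rw [← pow_add, ← pow_add]
          congr 1
          omega
        rw [h9, mul_smul] at h7
        exact smul_right_injective _ (pow_ne_zero _ hχ) h7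
    · have h5 : ((2 * j + 2 * e : ℕ) : ℤ) + 2 * ((Z.X.dim : ℤ) - (Z.X.prod Ω.X).dim) < 0 := by
        rw [dim_prod]
        push_cast
        omega
      rw [grZ_of_neg h5, Submodule.mem_bot] at h4
      rw [h4]
      exact Submodule.zero_mem _
  · intro a b ha hb
    rw [map_add]
    exact Submodule.add_mem _ ha hb

end Pool.Agent.V5helper86.AP
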