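import Pool.Agent.V5helper86.AP.Det

/-!
# Families of twisting classes
-/

open CategoryTheory AlgebraicGeometry Finset Function

set_option linter.unusedSectionVars false

universe u v w x

namespace Pool.Agent.V5helper86.AP

open Pool.Agent.H914 Pool.Agent.H914.VarClass Pool.Agent.H914.VarClass.Obj
  Pool.Agent.H914.WeilCohomology Pool.Agent.H281R3.HT Pool.Agent.W552 Pool.Agent.H447
  Pool.Agent.TH125.Gal Pool.Agent.Y127

variable {k : Type u} [Field k] {𝒱 : VarClass k} {ops : CycleOps 𝒱} {Λ : Type x}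
  {V : Λ → WeilCohomology.{u, v} ops} {X Y Ω Ω' : 𝒱.Obj}

/-- products of lists -/
theorem AF.ofFn : ∀ {n : ℕ} {y : Fin n → ∀ l, (V l).H X}, (∀ i, AF V X (y i)) →
    AF V X fun l => (List.ofFn fun i => y i l).prod
  | 0, y, _ => by
    have h : (fun l => (List.ofFn fun i => y i l).prod) = fun l => (1 : (V l).H X) := by
      funext l
      rw [List.ofFn_zero, List.prod_nil]
    rw [h]
    exact AF.one
  | n + 1, y, hy => by
    have h : (fun l => (List.ofFn fun i => y i l).prod) =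
        fun l => y 0 l * (List.ofFn fun i => y (Fin.succ i) l).prod := by
      funext l
      rw [List.ofFn_succ, List.prod_cons]
    rw [h]
    exact (hy 0).mul (AF.ofFn fun i => hy i.succ)

/-- **The determinant of the transcendental parts of the diagonals is given by one cycle.** -/
theorem theta_AF [Nonempty Λ] {P : Polarized 𝒱} (hD : ∀ l, HomEqNum (V l) P.X)
    (hmid : ∀ l, transcendental (V l) P.X ≤ (V l).gr P.X P.X.dim) (s : ∀ l, SB (V l) P.X)
    (m : ℕ) : AF V _ fun l => Theta (s l) m := by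
  have h1 : AF V ((nest ops m fun _ => P).X.prod (nest ops m fun _ => P).X) fun l =>
      ∑ τ : Equiv.Perm (Fin (m + 1)), ((((Equiv.Perm.sign τ : ℤ) : ℚ)) : (V l).K) •
    (List.ofFn fun p => (V l).map (Obj.lift
      (fst (nest ops m fun _ => P).X (nest ops m fun _ => P).X ≫ prj ops m (fun _ => P) p)
      (snd (nest ops m fun _ => P).X (nest ops m fun _ => P).X ≫ prj ops m (fun _ => P) (τ p)))
        (dT (s l))).prod :=
    AF.sum _ fun τ _ => AF.smul _ (AF.ofFn (y := fun p l => (V l).map (Obj.lift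
      (fst (nest ops m fun _ => P).X (nest ops m fun _ => P).X ≫ prj ops m (fun _ => P) p)
      (snd (nest ops m fun _ => P).X (nest ops m fun _ => P).X ≫ prj ops m (fun _ => P) (τ p)))
        (dT (s l))) fun p => AF.map _ (dT_AF hD hmid s))
  have h2 : (fun l => Theta (s l) m) = fun l =>
      ∑ τ : Equiv.Perm (Fin (m + 1)), ((((Equiv.Perm.sign τ : ℤ) : ℚ)) : (V l).K) •
    (List.ofFn fun p => (V l).map (Obj.lift
      (fst (nest ops m fun _ => P).X (nest ops m fun _ => P).X ≫ prj ops m (fun _ => P) p)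
      (snd (nest ops m fun _ => P).X (nest ops m fun _ => P).X ≫ prj ops m (fun _ => P) (τ p)))
        (dT (s l))).prod := by
    funext l
    rw [Theta]
    refine Finset.sum_congr rfl fun τ _ => ?_
    rw [Rat.cast_intCast]
  rw [h2]
  exact h1

/-- monomials of homogeneous elements -/
theorem mono_gr {W : WeilCohomology.{u, v} ops} {P : Polarized 𝒱} {j : ℕ} : ∀ {n : ℕ}
    {x : Fin (n + 1) → W.H P.X}, (∀ p, x p ∈ W.gr P.X j) →
    mono (prj ops n fun _ => P) x ∈ W.gr (nest ops n fun _ => P).X ((n + 1) * j)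
  | 0, x, hx => by
    have h1 : mono (prj ops 0 fun _ => P) x = W.map (𝟙 _) (x 0) := mono_one _ _
    have h2 := W.map_mem (𝟙 P.X) (hx 0)
    have h3 : (0 + 1) * j = j := by omega
    rw [h3]
    exact h1 ▸ h2
  | n + 1, x, hx => by
    have h1 := W.mul_mem (W.map_mem (fst P.X (nest ops n fun _ => P).X) (hx 0))
      (W.map_mem (snd P.X (nest ops n fun _ => P).X)
        (mono_gr (n := n) (x := fun p => x p.succ) fun p => hx p.succ))
    have h3 : (n + 1 + 1) * j = j + (n + 1) * j := by ring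
    rw [h3]
    exact (mono_nest_succ x).symm ▸ h1

theorem v0_gr {W : WeilCohomology.{u, v} ops} {P : Polarized 𝒱} (s : SB W P.X) {m : ℕ}
    (σ : Fin (m + 1) ≃ Fin s.NT) (hmid : transcendental W P.X ≤ W.gr P.X P.X.dim) :
    v0 s σ ∈ W.gr (nest ops m fun _ => P).X ((m + 1) * P.X.dim) :=
  Submodule.sum_mem _ fun _ _ => Submodule.smul_mem _ _
    (mono_gr fun p => hmid (s.bT _).2)

/-- Rational numbers which are squares in all coefficient fields are not negative. -/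
def SqPos (V : Λ → WeilCohomology.{u, v} ops) : Prop :=
  ∀ r : ℚ, (∀ l, IsSquare (r : (V l).K)) → 0 ≤ r

/-- A family of classes of even degree whose external squares are a positive multiple of the classes
of one cycle. -/
structure TD (V : Λ → WeilCohomology.{u, v} ops) (Ω : 𝒱.Obj) (ω : ∀ l, (V l).H Ω) (d : ℚ)
    (e : ℕ) : Prop where
  deg : ∀ l, ω l ∈ (V l).gr Ω (2 * e)
  pos : 0 < d
  sq : ∃ Θ : ∀ l, (V l).H (Ω.prod Ω), AF V (Ω.prod Ω) Θ ∧
    ∀ l, (V l).map (fst Ω Ω) (ω l) * (V l).map (snd Ω Ω) (ω l) = (d : (V l).K) • Θ l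

namespace TD

theorem cen {ω : ∀ l, (V l).H Ω} {d : ℚ} {e : ℕ} (h : TD V Ω ω d e) (l : Λ) (g : Y ⟶ Ω)
    (y : (V l).H Y) : (V l).map g (ω l) * y = y * (V l).map g (ω l) := cen_gr (h.deg l) g y

theorem one (V : Λ → WeilCohomology.{u, v} ops) (Ω : 𝒱.Obj) : TD V Ω (fun _ => 1) 1 0 := by
  refine ⟨fun l => ?_, one_pos, fun _ => 1, AF.one, fun l => ?_⟩
  · exact (V l).one_mem Ω
  · rw [map_one, map_one, one_mul, Rat.cast_one, one_smul]

theorem prod {ω : ∀ l, (V l).H Ω} {d : ℚ} {e : ℕ} (h : TD V Ω ω d e) {ω' : ∀ l, (V l).H Ω'}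
    {d' : ℚ} {e' : ℕ} (h' : TD V Ω' ω' d' e') :
    TD V (Ω.prod Ω') (fun l => (V l).map (fst Ω Ω') (ω l) * (V l).map (snd Ω Ω') (ω' l))
      (d * d') (e + e') := by
  obtain ⟨Θ, hΘ, h1⟩ := h.sq
  obtain ⟨Θ', hΘ', h1'⟩ := h'.sq
  refine ⟨fun l => ?_, mul_pos h.pos h'.pos, fun l =>
    (V l).map (Obj.lift (fst (Ω.prod Ω') (Ω.prod Ω') ≫ fst Ω Ω')
      (snd (Ω.prod Ω') (Ω.prod Ω') ≫ fst Ω Ω')) (Θ l) *
    (V l).map (Obj.lift (fst (Ω.prod Ω') (Ω.prod Ω') ≫ snd Ω Ω')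
      (snd (Ω.prod Ω') (Ω.prod Ω') ≫ snd Ω Ω')) (Θ' l), (hΘ.map _).mul (hΘ'.map _), fun l => ?_⟩
  · rw [mul_add]
    exact (V l).mul_mem ((V l).map_mem _ (h.deg l)) ((V l).map_mem _ (h'.deg l))
  · have e1 := congrArg ((V l).map (Obj.lift (fst (Ω.prod Ω') (Ω.prod Ω') ≫ fst Ω Ω')
      (snd (Ω.prod Ω') (Ω.prod Ω') ≫ fst Ω Ω'))) (h1 l)
    have e2 := congrArg ((V l).map (Obj.lift (fst (Ω.prod Ω') (Ω.prod Ω') ≫ snd Ω Ω')
      (snd (Ω.prod Ω') (Ω.prod Ω') ≫ snd Ω Ω'))) (h1' l)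
    rw [map_mul, ← (V l).map_comp, ← (V l).map_comp, Obj.lift_fst, Obj.lift_snd, map_smul] at e1 e2
    rw [map_mul, map_mul, ← (V l).map_comp, ← (V l).map_comp, ← (V l).map_comp, ← (V l).map_comp,
      Rat.cast_mul, ← smul_mul_smul_comm, ← e1, ← e2, mul_assoc,
      ← mul_assoc ((V l).map (fst (Ω.prod Ω') (Ω.prod Ω') ≫ snd Ω Ω') (ω' l)), h'.cen,
      mul_assoc, ← mul_assoc]

/-- **The values of the twisted traces.** -/
theorem base {ω : ∀ l, (V l).H Ω} {d : ℚ} {e : ℕ} (h : TD V Ω ω d e) (hsq : SqPos V) {l₀ : Λ}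
    {u : (V l₀).H Ω} (hu : W552.AS (V l₀) Ω u) :
    ∃ x : ℚ, 0 ≤ x ∧ (V l₀).tr Ω (u * ω l₀) ^ 2 = (d : (V l₀).K) * x := by
  obtain ⟨y, hy, rfl⟩ := AF.lift hu
  obtain ⟨Θ, hΘ, h1⟩ := h.sq
  obtain ⟨r, hr⟩ := (((hy.map (fst Ω Ω)).mul (hy.map (snd Ω Ω))).mul hΘ).tr
  have h2 : ∀ l, (V l).tr Ω (y l * ω l) ^ 2 = (d : (V l).K) * r := by
    intro l
    have e1 : (d : (V l).K) * (V l).tr (Ω.prod Ω)
        ((V l).map (fst Ω Ω) (y l) * (V l).map (snd Ω Ω) (y l) * Θ l) = (V l).tr (Ω.prod Ω)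
          ((V l).map (fst Ω Ω) (y l) * (V l).map (snd Ω Ω) (y l) * ((d : (V l).K) • Θ l)) := by
      rw [mul_smul_comm, map_smul, smul_eq_mul]
    rw [← hr l, e1, ← h1 l, pow_two, ← (V l).tr_prod, map_mul ((V l).map (fst Ω Ω)),
      map_mul ((V l).map (snd Ω Ω))]
    congr 1
    rw [mul_assoc, ← mul_assoc ((V l).map (fst Ω Ω) (ω l)), h.cen, mul_assoc, ← mul_assoc]
  refine ⟨r, ?_, h2 l₀⟩
  have h3 : 0 ≤ d * r := hsq _ fun l => by
    rw [Rat.cast_mul, ← h2 l, pow_two]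
    exact ⟨_, rfl⟩
  exact nonneg_of_mul_nonneg_right h3 h.pos

end TD

/-- **The determinant classes in all theories.** -/
theorem exists_TD [Nonempty Λ] {P : Polarized 𝒱} (hD : ∀ l, HomEqNum (V l) P.X)
    (hmid : ∀ l, transcendental (V l) P.X ≤ (V l).gr P.X P.X.dim) (heven : Even P.X.dim) {m : ℕ}
    {q : ℚ} (hq : 0 < q) (hdisc : ∀ l, HasDisc (V l) P.X (m + 1) q)
    (s : ∀ l, SB (V l) P.X) (σ : ∀ l, Fin (m + 1) ≃ Fin (s l).NT) :
    ∃ (v : ∀ l, (V l).H (nest ops m fun _ => P).X) (κ : ∀ l, (V l).K),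
      TD V (nest ops m fun _ => P).X v q ((m + 1) * (P.X.dim / 2)) ∧
      (∀ l, v l = κ l • v0 (s l) (σ l)) ∧
      ∀ l f, Fp (V l) P.X P.D f →
        bN ops f m (v l) (v l) = (((m + 1).factorial * q : ℚ) : (V l).K) := by
  choose κ h1 h2 using fun l => exists_det (σ l) (hD l) (hmid l) heven (hdisc l)
  refine ⟨fun l => κ l • v0 (s l) (σ l), κ, ⟨fun l => ?_, hq, ?_⟩, fun _ => rfl, h2⟩
  · have h3 : 2 * ((m + 1) * (P.X.dim / 2)) = (m + 1) * P.X.dim := by
      obtain ⟨j, hj⟩ := heven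
      rw [hj]
      have : (j + j) / 2 = j := by omega
      rw [this]
      ring
    rw [h3]
    exact Submodule.smul_mem _ _ (v0_gr _ _ (hmid l))
  · exact ⟨_, (theta_AF hD hmid s m).smul (((-1) ^ (P.X.dim / 2)) ^ (m + 1)), h1⟩

end Pool.Agent.V5helper86.AP
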