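import Pool.Agent.V5helper86.AP.Nest

/-!
# Classes which are contractions of algebraic classes with a given class
-/

open CategoryTheory AlgebraicGeometry Finset

set_option linter.unusedSectionVars false

universe u v w

namespace Pool.Agent.V5helper86.AP

open Pool.Agent.H914 Pool.Agent.H914.VarClass Pool.Agent.H914.VarClass.Obj
  Pool.Agent.H914.WeilCohomology Pool.Agent.H281R3.HT Pool.Agent.W552 Pool.Agent.H447
  Pool.Agent.TH125.Gal

variable {k : Type u} [Field k] {𝒱 : VarClass k} {ops : CycleOps 𝒱}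
  {W : WeilCohomology.{u, v} ops} {A Z Ω : 𝒱.Obj}

theorem push_fst' (a : W.H A) (c : W.H Z) :
    W.push (fst A Z) (W.map (fst A Z) a * W.map (snd A Z) c) = W.tr Z c • a := by
  refine gr_induction (W.isInternal Z) (p := fun c => W.push (fst A Z)
    (W.map (fst A Z) a * W.map (snd A Z) c) = W.tr Z c • a) ?_ ?_ c
  · intro i c hc
    exact H281R3.HT.push_fst a hc
  · intro c c' h h'
    rw [map_add, mul_add, map_add, h, h', map_add, add_smul]

/-- the contraction with a class of the second factor -/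
noncomputable def cnr (ω : W.H Ω) : W.H (Z.prod Ω) →ₗ[W.K] W.H Z :=
  (W.push (fst Z Ω)).comp (LinearMap.mulRight W.K (W.map (snd Z Ω) ω))

theorem cnr_apply (ω : W.H Ω) (u : W.H (Z.prod Ω)) :
    cnr ω u = W.push (fst Z Ω) (u * W.map (snd Z Ω) ω) := rfl

theorem cnr_ext (ω t : W.H Ω) (z : W.H Z) :
    cnr ω (W.map (fst Z Ω) z * W.map (snd Z Ω) t) = W.tr Ω (t * ω) • z := by
  rw [cnr_apply, mul_assoc, ← map_mul, push_fst']

/-- the contractions of algebraic classes with `ω` -/
def TS (W : WeilCohomology.{u, v} ops) (Ω : 𝒱.Obj) (ω : W.H Ω) (Z : 𝒱.Obj) (z : W.H Z) : Prop :=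
  ∃ u, W552.AS W (Z.prod Ω) u ∧ z = cnr ω u

/-- the associativity isomorphism -/
noncomputable def asc (A Z Ω : 𝒱.Obj) : A.prod (Z.prod Ω) ⟶ (A.prod Z).prod Ω :=
  Obj.lift (Obj.lift (fst A (Z.prod Ω)) (snd A (Z.prod Ω) ≫ fst Z Ω))
    (snd A (Z.prod Ω) ≫ snd Z Ω)

theorem map_asc (a : W.H A) (z : W.H Z) (t : W.H Ω) :
    W.map (asc A Z Ω) (W.map (fst (A.prod Z) Ω) (W.map (fst A Z) a * W.map (snd A Z) z) *
      W.map (snd (A.prod Z) Ω) t) = W.map (fst A (Z.prod Ω)) a *
        W.map (snd A (Z.prod Ω)) (W.map (fst Z Ω) z * W.map (snd Z Ω) t) := by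
  rw [asc, map_mul (W.map (Obj.lift _ _)), ← W.map_comp, ← W.map_comp, Obj.lift_fst,
    Obj.lift_snd, map_mul, ← W.map_comp, ← W.map_comp, Obj.lift_fst, Obj.lift_snd, map_mul,
    ← W.map_comp, ← W.map_comp, mul_assoc]

/-- linear maps on a triple product -/
theorem kun_ext3 {M : Type*} [AddCommGroup M] [Module W.K M]
    {L L' : W.H ((A.prod Z).prod Ω) →ₗ[W.K] M}
    (h : ∀ a z t, L (W.map (fst (A.prod Z) Ω) (W.map (fst A Z) a * W.map (snd A Z) z) *
      W.map (snd (A.prod Z) Ω) t) = L' (W.map (fst (A.prod Z) Ω) (W.map (fst A Z) a *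
        W.map (snd A Z) z) * W.map (snd (A.prod Z) Ω) t)) (c : W.H ((A.prod Z).prod Ω)) :
    L c = L' c := by
  refine kun_ext (L := L) (L' := L') (fun a b => map_add L a b) (fun a b => map_add L' a b) ?_ c
  intro y t
  refine kun_ext (L := fun y => L (W.map (fst (A.prod Z) Ω) y * W.map (snd (A.prod Z) Ω) t))
    (L' := fun y => L' (W.map (fst (A.prod Z) Ω) y * W.map (snd (A.prod Z) Ω) t)) ?_ ?_
    (fun a z => h a z t) y
  · intro a b
    rw [map_add, add_mul, map_add]
  · intro a b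
    rw [map_add, add_mul, map_add]

/-- `cn` as a linear map -/
noncomputable def cnl (u : W.H A) : W.H (A.prod Z) →ₗ[W.K] W.H Z :=
  (W.push (snd A Z)).comp (LinearMap.mulLeft W.K (W.map (fst A Z) u))

theorem cnl_apply (u : W.H A) (c : W.H (A.prod Z)) : cnl u c = cn u c := rfl

theorem cn_cnr (E : W.H A) (ω : W.H Ω) (c : W.H ((A.prod Z).prod Ω)) :
    cn E (cnr ω c) = cnr ω (cn E (W.map (asc A Z Ω) c)) := by
  refine kun_ext3 (L := (cnl E).comp (cnr ω))
    (L' := ((cnr ω).comp (cnl E)).comp (W.map (asc A Z Ω)).toLinearMap) ?_ c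
  intro a z t
  change cn E (cnr ω _) = cnr ω (cn E (W.map (asc A Z Ω) _))
  rw [map_asc, cnr_ext, cn_smul, cn_ext, cn_ext, map_smul, cnr_ext, smul_comm]

theorem ctr_cnr (φ : W.H A →ₗ[W.K] W.K) (ω : W.H Ω) (c : W.H ((A.prod Z).prod Ω)) :
    ctr φ (cnr ω c) = cnr ω (ctr φ (W.map (asc A Z Ω) c)) := by
  refine kun_ext3 (L := (ctr φ).comp (cnr ω))
    (L' := ((cnr ω).comp (ctr φ)).comp (W.map (asc A Z Ω)).toLinearMap) ?_ c
  intro a z t
  change ctr φ (cnr ω _) = cnr ω (ctr φ (W.map (asc A Z Ω) _))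
  rw [map_asc, cnr_ext, map_smul, ctr_apply, ctr_apply, map_smul, cnr_ext, smul_comm]

/-- the contraction of a twisted class with an algebraic class -/
theorem TS.cn {E : W.H A} (hE : W552.AS W A E) {ω : W.H Ω} {c : W.H (A.prod Z)}
    (hc : TS W Ω ω (A.prod Z) c) : TS W Ω ω Z (cn E c) := by
  obtain ⟨u, hu, rfl⟩ := hc
  exact ⟨_, cn_AS hE (hu.map (asc A Z Ω)), cn_cnr E ω u⟩

/-- induction on external products -/
theorem kun_mem {A B : 𝒱.Obj} {p : W.H (A.prod B) → Prop}
    (hadd : ∀ a b, p a → p b → p (a + b))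
    (h : ∀ a b, p (W.map (fst A B) a * W.map (snd A B) b)) (c : W.H (A.prod B)) : p c :=
  W.kunneth_induction (p := p) hadd (fun _ _ a _ b _ => h a b) c

/-- the span of the external products with classes in `V` -/
noncomputable def VSpan (V : Submodule W.K (W.H A)) (Z : 𝒱.Obj) : Submodule W.K (W.H (A.prod Z)) :=
  Submodule.span W.K {c | ∃ a ∈ V, ∃ b, c = W.map (fst A Z) a * W.map (snd A Z) b}

theorem cnr_VSpan {V : Submodule W.K (W.H A)} {ω : W.H Ω} {u : W.H ((A.prod Z).prod Ω)}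
    (hu : W.map (asc A Z Ω) u ∈ VSpan V (Z.prod Ω)) : cnr ω u ∈ VSpan V Z := by
  -- the inverse of the associativity
  have h1 : ∀ c ∈ VSpan V (Z.prod Ω), ∀ u : W.H ((A.prod Z).prod Ω),
      W.map (asc A Z Ω) u = c → cnr ω u ∈ VSpan V Z := by
    have hinv : ∀ u : W.H ((A.prod Z).prod Ω), W.map (Obj.lift (fst (A.prod Z) Ω ≫ fst A Z)
        (Obj.lift (fst (A.prod Z) Ω ≫ snd A Z) (snd (A.prod Z) Ω))) (W.map (asc A Z Ω) u) = u := by
      intro u
      refine kun_ext3 (L := (W.map (Obj.lift (fst (A.prod Z) Ω ≫ fst A Z)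
        (Obj.lift (fst (A.prod Z) Ω ≫ snd A Z) (snd (A.prod Z) Ω)))).toLinearMap.comp
          (W.map (asc A Z Ω)).toLinearMap) (L' := LinearMap.id) ?_ u
      intro a z t
      change W.map _ (W.map (asc A Z Ω) _) = _
      rw [map_asc]
      simp only [map_mul, ← W.map_comp, Obj.lift_fst, Obj.lift_snd, Obj.lift_snd_assoc,
        LinearMap.id_apply]
      rw [mul_assoc]
    intro c hc
    have h2 : ∀ c ∈ VSpan V (Z.prod Ω), cnr ω (W.map (Obj.lift (fst (A.prod Z) Ω ≫ fst A Z)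
        (Obj.lift (fst (A.prod Z) Ω ≫ snd A Z) (snd (A.prod Z) Ω))) c) ∈ VSpan V Z := by
      intro c hc
      induction hc using Submodule.span_induction with
      | mem c hc =>
        obtain ⟨a, ha, b, rfl⟩ := hc
        refine kun_mem (W := W) (A := Z) (B := Ω) (p := fun b => cnr ω (W.map
          (Obj.lift (fst (A.prod Z) Ω ≫ fst A Z) (Obj.lift (fst (A.prod Z) Ω ≫ snd A Z)
            (snd (A.prod Z) Ω))) (W.map (fst A (Z.prod Ω)) a * W.map (snd A (Z.prod Ω)) b)) ∈
              VSpan V Z) ?_ ?_ b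
        · intro b b' hb hb'
          rw [map_add, mul_add, map_add, map_add]
          exact Submodule.add_mem _ hb hb'
        · intro z t
          have h3 : W.map (Obj.lift (fst (A.prod Z) Ω ≫ fst A Z)
              (Obj.lift (fst (A.prod Z) Ω ≫ snd A Z) (snd (A.prod Z) Ω)))
              (W.map (fst A (Z.prod Ω)) a * W.map (snd A (Z.prod Ω))
                (W.map (fst Z Ω) z * W.map (snd Z Ω) t)) =
              W.map (fst (A.prod Z) Ω) (W.map (fst A Z) a * W.map (snd A Z) z) *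
                W.map (snd (A.prod Z) Ω) t := by
            rw [← map_asc, hinv]
          rw [h3, cnr_ext]
          exact Submodule.smul_mem _ _ (Submodule.subset_span ⟨a, ha, z, rfl⟩)
      | zero => rw [map_zero, map_zero]; exact Submodule.zero_mem _
      | add x y _ _ hx hy => rw [map_add, map_add]; exact Submodule.add_mem _ hx hy
      | smul q x _ hx => rw [map_smul, map_smul]; exact Submodule.smul_mem _ _ hx
    intro u hu
    have h3 := h2 c hc
    rwa [← hu, hinv] at h3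
  exact h1 _ hu u rfl

end Pool.Agent.V5helper86.AP
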