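import Mathlib

/-!
# Discriminants of symmetric forms with isometries without real eigenvalues
-/

open Matrix Finset Polynomial

namespace Pool.Agent.V5helper86.AP

section alt

variable {K : Type*} [Field K] [CharZero K]

theorem det_alt_odd (n : ℕ) (hn : n % 2 = 1) (A : Matrix (Fin n) (Fin n) K)
    (hA : ∀ i j, A i j = -A j i) : A.det = 0 := by
  have h : Aᵀ = -A := by
    ext i j
    rw [transpose_apply, neg_apply, hA]
  have h1 : A.det = (-1) ^ n * A.det := by
    conv_lhs => rw [← det_transpose, h, det_neg, Fintype.card_fin]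
  rw [Odd.neg_one_pow (Nat.odd_iff.mpr hn)] at h1
  have h2 : (2 : K) * A.det = 0 := by linear_combination h1
  exact (mul_eq_zero.1 h2).resolve_left two_ne_zero

theorem det_pivot (n : ℕ) (M : Matrix (Fin (n + 1)) (Fin (n + 1)) K) (h : M 0 0 ≠ 0) :
    M.det = M 0 0 * (Matrix.of fun i j : Fin n =>
      M i.succ j.succ - M i.succ 0 / M 0 0 * M 0 j.succ).det := by
  have h1 : M.det = (Matrix.of fun i j : Fin (n + 1) =>
      M i j - (if i = 0 then 0 else M i 0 / M 0 0) * M 0 j).det := by
    refine det_eq_of_forall_row_eq_smul_add_const (fun i => if i = 0 then 0 else M i 0 / M 0 0) 0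
      (by simp) ?_
    intro i j
    simp only [Matrix.of_apply, if_true, zero_mul, sub_zero]
    ring
  rw [h1, det_succ_column_zero]
  rw [Finset.sum_eq_single 0]
  · simp only [Fin.val_zero, pow_zero, one_mul, Matrix.of_apply, if_true, zero_mul, sub_zero]
    congr 2
  · intro i _ hi
    simp only [Matrix.of_apply, if_neg hi]
    rw [div_mul_cancel₀ _ h, sub_self]
    ring
  · intro h0
    exact absurd (Finset.mem_univ _) h0

theorem isSquare_aux (n : ℕ) : ∀ (A : Matrix (Fin n) (Fin n) K) (w : Fin n → K),
    (∀ i j, A i j = -A j i) → IsSquare (Matrix.of fun i j => A i j + w i * w j).det := by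
  induction n with
  | zero =>
    intro A w _
    rw [det_fin_zero]
    exact ⟨1, by norm_num⟩
  | succ n ih =>
    have key : ∀ (A : Matrix (Fin (n + 1)) (Fin (n + 1)) K) (w : Fin (n + 1) → K),
        (∀ i j, A i j = -A j i) → w 0 ≠ 0 →
        IsSquare (Matrix.of fun i j => A i j + w i * w j).det := by
      intro A w hA hw
      have h00 : A 0 0 = 0 := by
        have h0 := hA 0 0
        have h2 : (2 : K) * A 0 0 = 0 := by linear_combination h0
        exact (mul_eq_zero.1 h2).resolve_left two_ne_zero
      have h0 : (Matrix.of fun i j => A i j + w i * w j) 0 0 = w 0 * w 0 := by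
        rw [Matrix.of_apply, h00, zero_add]
      rw [det_pivot n _ (by rw [h0]; exact mul_ne_zero hw hw), h0]
      have h1 := ih (Matrix.of fun i j : Fin n => A i.succ j.succ +
        (A 0 i.succ * w j.succ - w i.succ * A 0 j.succ) / w 0) (fun i => A 0 i.succ / w 0)
        (by
          intro i j
          simp only [Matrix.of_apply]
          rw [hA i.succ j.succ]
          ring)
      have h2 : (Matrix.of fun i j : Fin n =>
          (Matrix.of fun i j => A i j + w i * w j) i.succ j.succ -
          (Matrix.of fun i j => A i j + w i * w j) i.succ 0 / (w 0 * w 0) *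
          (Matrix.of fun i j => A i j + w i * w j) 0 j.succ) =
          (Matrix.of fun i j : Fin n => (Matrix.of fun i j : Fin n => A i.succ j.succ +
        (A 0 i.succ * w j.succ - w i.succ * A 0 j.succ) / w 0) i j +
        (A 0 i.succ / w 0) * (A 0 j.succ / w 0)) := by
        ext i j
        simp only [Matrix.of_apply]
        rw [hA i.succ 0]
        field_simp
        ring
      rw [h2]
      exact IsSquare.mul ⟨w 0, rfl⟩ h1
    intro A w hA
    by_cases hw : w = 0
    · subst hw
      simp only [Pi.zero_apply, mul_zero, add_zero]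
      have hAA : (Matrix.of fun i j => A i j) = A := rfl
      rw [hAA]
      by_cases hn : (n + 1) % 2 = 1
      · rw [det_alt_odd _ hn A hA]
        exact ⟨0, by norm_num⟩
      · have hn' : n % 2 = 1 := by omega
        have h1 := key A (fun i => if i = 0 then 1 else 0) hA (by simp)
        have h2 : (Matrix.of fun i j => A i j + (if i = 0 then (1 : K) else 0) *
            (if j = 0 then 1 else 0)) = A.updateRow 0 (A 0 + Pi.single 0 1) := by
          ext i j
          rw [Matrix.of_apply, updateRow_apply]
          by_cases hi : i = 0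
          · subst hi
            rw [if_pos rfl, if_pos rfl, Pi.add_apply, Pi.single_apply, one_mul]
          · rw [if_neg hi, if_neg hi, zero_mul, add_zero]
        rw [h2, det_updateRow_add, updateRow_eq_self] at h1
        have h3 : (A.updateRow 0 (Pi.single 0 1)).det = 0 := by
          rw [det_succ_row_zero, Finset.sum_eq_single 0]
          · have h4 : ((A.updateRow 0 (Pi.single 0 1)).submatrix Fin.succ (Fin.succAbove 0)).det
                = 0 := by
              apply det_alt_odd n hn'
              intro i j
              rw [submatrix_apply, submatrix_apply, updateRow_apply, updateRow_apply,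
                if_neg (Fin.succ_ne_zero _), if_neg (Fin.succ_ne_zero _), Fin.succAbove_zero]
              exact hA _ _
            rw [h4, mul_zero]
          · intro j _ hj
            rw [updateRow_self, Pi.single_apply, if_neg hj]
            ring
          · intro h0
            exact absurd (Finset.mem_univ _) h0
        rw [h3, add_zero] at h1
        exact h1
    · obtain ⟨i, hi⟩ := Function.ne_iff.mp hw
      let e := Equiv.swap (0 : Fin (n + 1)) i
      have h1 := key (A.submatrix e e) (w ∘ e) (by
        intro a b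
        rw [submatrix_apply, submatrix_apply]
        exact hA _ _) (by
        simp only [Function.comp_apply, e, Equiv.swap_apply_left]
        exact hi)
      have h2 : (Matrix.of fun a b => A.submatrix e e a b + (w ∘ e) a * (w ∘ e) b) =
          (Matrix.of fun a b => A a b + w a * w b).submatrix e e := by
        ext a b
        simp only [Matrix.of_apply, submatrix_apply, Function.comp_apply]
      rw [h2, det_submatrix_equiv_self] at h1
      exact h1

/-- the determinant of an alternating matrix is a square -/
theorem isSquare_det_alt {n : ℕ} (A : Matrix (Fin n) (Fin n) K)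
    (hA : ∀ i j, A i j = -A j i) : IsSquare A.det := by
  have h := isSquare_aux n A 0 hA
  have h1 : (Matrix.of fun i j => A i j + (0 : Fin n → K) i * (0 : Fin n → K) j) = A := by
    ext i j
    simp
  rwa [h1] at h

end alt

/-- a monic polynomial without real roots is positive -/
theorem pos_of_no_root {P : ℝ[X]} (hP : P.Monic) (h : ∀ x : ℝ, P.eval x ≠ 0) (x : ℝ) :
    0 < P.eval x := by
  by_contra hcon
  have hx : P.eval x < 0 := lt_of_le_of_ne (not_lt.1 hcon) (h x)
  by_cases hd : P.natDegree = 0
  · have h1 : P = 1 := hP.natDegree_eq_zero.1 hd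
    rw [h1, eval_one] at hx
    linarith
  · have h1 : 0 < P.degree := natDegree_pos_iff_degree_pos.1 (Nat.pos_of_ne_zero hd)
    have h2 := P.tendsto_atTop_of_leadingCoeff_nonneg h1 (by rw [hP.leadingCoeff]; norm_num)
    obtain ⟨y, hy, hxy⟩ := ((h2.eventually_gt_atTop 0).and (Filter.eventually_ge_atTop x)).exists
    have h3 := intermediate_value_Icc hxy (f := fun z => P.eval z) P.continuous.continuousOn
    obtain ⟨z, _, hz⟩ := h3 ⟨hx.le, hy.le⟩
    exact h z hz

section iso

variable {K : Type*} [Field K] [CharZero K]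

/-- **The discriminant of a form with an isometry without real eigenvalues.** -/
theorem disc_of_isometry {n : ℕ} (G F : Matrix (Fin n) (Fin n) K) (hG : Gᵀ = G)
    (hGd : G.det ≠ 0) (hF : Fᵀ * G * F = G) {P : ℚ[X]} (hP : ∀ x : ℝ, aeval x P ≠ 0)
    (hFP : F.charpoly = P.map (algebraMap ℚ K)) :
    0 < P.eval 1 * P.eval (-1) ∧
      ∃ c : K, c ≠ 0 ∧ G.det = ((P.eval 1 * P.eval (-1) : ℚ) : K) * c ^ 2 := by
  have hmon : P.Monic := by
    have h1 : (P.map (algebraMap ℚ K)).Monic := hFP ▸ F.charpoly_monic
    exact Polynomial.monic_of_injective (algebraMap ℚ K).injective h1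
  have hpos : ∀ q : ℚ, 0 < P.eval q := by
    intro q
    have h1 := pos_of_no_root (hmon.map (algebraMap ℚ ℝ)) (fun x => by
      rw [eval_map_algebraMap]
      exact hP x) (q : ℝ)
    have h2 : (P.map (algebraMap ℚ ℝ)).eval (q : ℝ) = ((P.eval q : ℚ) : ℝ) := by
      rw [eval_map_algebraMap]
      have := Polynomial.aeval_algebraMap_apply ℝ q P
      simpa using this
    rw [h2] at h1
    exact_mod_cast h1
  have hev : ∀ q : ℚ, (Matrix.scalar (Fin n) (q : K) - F).det = ((P.eval q : ℚ) : K) := by
    intro q
    rw [← Matrix.eval_charpoly, hFP]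
    have := Polynomial.eval_map_algebraMap P (q : K)
    rw [this]
    have h2 := Polynomial.aeval_algebraMap_apply K q P
    simpa using h2
  have hdF : F.det * F.det = 1 := by
    have h1 := congrArg Matrix.det hF
    rw [det_mul, det_mul, det_transpose] at h1
    have h2 : G.det * (F.det * F.det) = G.det * 1 := by linear_combination h1
    exact mul_left_cancel₀ hGd h2
  have hdF0 : F.det ≠ 0 := by
    intro h
    rw [h, zero_mul] at hdF
    exact zero_ne_one hdF
  have hFu : IsUnit F.det := isUnit_iff_ne_zero.2 hdF0
  -- the alternating matrix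
  have hGF : Fᵀ * G = G * F⁻¹ := by
    have h1 : Fᵀ * G * F * F⁻¹ = G * F⁻¹ := by rw [hF]
    rwa [Matrix.mul_assoc, Matrix.mul_nonsing_inv _ hFu, Matrix.mul_one] at h1
  have hFiG : (F⁻¹)ᵀ * G = G * F := by
    have h1 : (F⁻¹)ᵀ * (Fᵀ * G * F) = (F⁻¹)ᵀ * G := by rw [hF]
    rw [← h1, Matrix.mul_assoc Fᵀ, ← Matrix.mul_assoc (F⁻¹)ᵀ, ← Matrix.transpose_mul,
      Matrix.mul_nonsing_inv _ hFu, Matrix.transpose_one, Matrix.one_mul]
  set A := G * (F - F⁻¹) with hA
  have hAt : Aᵀ = -A := by
    rw [hA, Matrix.transpose_mul, hG, Matrix.transpose_sub, Matrix.sub_mul, hGF, hFiG,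
      Matrix.mul_sub]
    abel
  have hAalt : ∀ i j, A i j = -A j i := by
    intro i j
    have := congrFun (congrFun hAt j) i
    rw [transpose_apply, neg_apply] at this
    exact this
  have hAd : A.det * F.det = G.det * ((P.eval 1 * P.eval (-1) : ℚ) : K) := by
    have h1 := hev 1
    have h2 := hev (-1)
    have h3 : A * F = G * ((1 - F) * (-1 - F)) := by
      rw [hA, Matrix.mul_assoc]
      congr 1
      rw [Matrix.sub_mul, Matrix.nonsing_inv_mul _ hFu]
      noncomm_ring
    rw [← det_mul, h3, det_mul, det_mul]
    have h4 : (Matrix.scalar (Fin n) ((1 : ℚ) : K)) = 1 := by simp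
    have h5 : (Matrix.scalar (Fin n) ((-1 : ℚ) : K)) = -1 := by
      rw [show ((-1 : ℚ) : K) = -1 by norm_num, map_neg, map_one]
    rw [h4] at h1
    rw [h5] at h2
    rw [h1, h2, Rat.cast_mul]
  obtain ⟨c, hc⟩ := isSquare_det_alt A hAalt
  have hq : 0 < P.eval 1 * P.eval (-1) := mul_pos (by exact_mod_cast hpos 1) (hpos (-1))
  have hq' : ((P.eval 1 * P.eval (-1) : ℚ) : K) ≠ 0 := by exact_mod_cast hq.ne'
  have hA0 : A.det ≠ 0 := by
    intro h
    rw [h, zero_mul] at hAd
    exact mul_ne_zero hGd hq' hAd.symm
  have heven : n % 2 = 0 := by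
    by_contra hn
    exact hA0 (det_alt_odd n (by omega) A hAalt)
  have hdet1 : F.det = 1 := by
    have h1 := hev 0
    have h2 : (Matrix.scalar (Fin n) ((0 : ℚ) : K)) = 0 := by simp
    rw [h2, zero_sub, det_neg, Fintype.card_fin, (Nat.even_iff.2 heven).neg_one_pow,
      one_mul] at h1
    have h3 : P.eval 0 * P.eval 0 = 1 := by
      have h4 : ((P.eval 0 * P.eval 0 : ℚ) : K) = ((1 : ℚ) : K) := by
        rw [Rat.cast_mul, ← h1, hdF, Rat.cast_one]
      exact_mod_cast h4
    have h5 : P.eval 0 = 1 := by
      have h6 : (P.eval 0 - 1) * (P.eval 0 + 1) = 0 := by linear_combination h3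
      rcases mul_eq_zero.1 h6 with h7 | h7
      · linarith
      · have := hpos 0
        linarith
    rw [h1, h5, Rat.cast_one]
  refine ⟨hq, c / ((P.eval 1 * P.eval (-1) : ℚ) : K), ?_, ?_⟩
  · intro h
    rcases div_eq_zero_iff.1 h with h1 | h1
    · rw [h1, mul_zero] at hc
      exact hA0 hc
    · exact hq' h1
  · rw [hdet1, mul_one, hc] at hAd
    rw [div_pow, sq c, hAd]
    field_simp

end iso

end Pool.Agent.V5helper86.AP
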