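import Pool.Agent.H914R2.DDefs
import Pool.Agent.H281R3.HT.Defs

/-!
# Galois actions and discriminants: definitions
-/

open CategoryTheory AlgebraicGeometry

universe u v w x

namespace Pool.Agent.V5helper86.AP.P

open Pool.Agent.H914 Pool.Agent.H914.VarClass Pool.Agent.H914.VarClass.Obj
  Pool.Agent.H914.WeilCohomology Pool.Agent.H281R3.HT

/-- An algebra `A` over `K` with subspaces `gr i`, a number `dim`, a linear form `tr` and subsets
`cls j`. (The example: the cohomology algebra of a variety, its dimension, the orientation and the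
classes of the cycles of codimension `j`.) -/
structure CohAlg (K : Type v) [Field K] where
  A : Type v
  [ring : Ring A]
  [algebra : Algebra K A]
  gr : ℕ → Submodule K A
  dim : ℕ
  tr : A →ₗ[K] K
  cls : ℕ → Set A

attribute [instance] CohAlg.ring CohAlg.algebra

section Alg

variable {K : Type v} [Field K]

/-- The transcendental part: the elements `a` with `tr (a c) = 0` for all `c` in the sets
`cls j`. -/
def CohAlg.T (M : CohAlg K) : Submodule K M.A := orthCompl M.tr (⋃ j, M.cls j)

/-- The transcendental part is in the middle degree. -/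
def CohAlg.Middle (M : CohAlg K) : Prop := M.T ≤ M.gr M.dim

/-- The elements `t 0, …, t (N - 1)` are a basis of the transcendental part. -/
def CohAlg.IsBasis (M : CohAlg K) {N : ℕ} (t : Fin N → M.A) : Prop :=
  LinearIndependent K t ∧ Submodule.span K (Set.range t) = M.T

/-- The transcendental part has dimension `N`. -/
def CohAlg.HasRank (M : CohAlg K) (N : ℕ) : Prop := ∃ t : Fin N → M.A, M.IsBasis t

/-- The matrix of the form `tr (x y)`, multiplied by the sign `(-1) ^ (dim / 2)`. -/
def CohAlg.gram (M : CohAlg K) {N : ℕ} (t : Fin N → M.A) : Matrix (Fin N) (Fin N) K :=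
  Matrix.of fun i j => (-1) ^ (M.dim / 2) * M.tr (t i * t j)

/-- The form `(-1) ^ (dim / 2) tr (x y)` on the transcendental part has rank `N` and, up to squares,
discriminant `q`. -/
def CohAlg.Disc (M : CohAlg K) (N : ℕ) (q : K) : Prop :=
  ∃ t : Fin N → M.A, M.IsBasis t ∧ ∃ c : K, c ≠ 0 ∧ (M.gram t).det = q * c ^ 2

/-- There is an isometry of the transcendental part with the characteristic polynomial `P` (`m` is
its matrix with respect to a basis). -/
def CohAlg.Isometry (M : CohAlg K) (P : Polynomial K) : Prop :=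
  ∃ (N : ℕ) (t : Fin N → M.A), M.IsBasis t ∧ ∃ m : Matrix (Fin N) (Fin N) K,
    m.transpose * M.gram t * m = M.gram t ∧ m.charpoly = P

/-- The actions of the group `Γ` on the algebra `A`. -/
def CohAlg.Act (M : CohAlg K) (Γ : Type w) [Group Γ] : Type (max v w) :=
  Γ →* (M.A ≃ₐ[K] M.A)

variable {M : CohAlg K} {Γ : Type w} [Group Γ]

/-- The action of the element `g` of `Γ` on the element `a` of `A`. -/
def CohAlg.Act.op (ρ : M.Act Γ) (g : Γ) (a : M.A) : M.A :=
  DFunLike.coe (F := Γ →* (M.A ≃ₐ[K] M.A)) ρ g a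

/-- On the element `c` a subgroup of finite index acts by the power `χ ^ j`. -/
def CohAlg.Act.SemiInv (ρ : M.Act Γ) (χ : Γ →* Kˣ) (j : ℕ) (c : M.A) : Prop :=
  ∃ Δ : Subgroup Γ, Δ.FiniteIndex ∧ ∀ g ∈ Δ, ρ.op g c = (χ g : K) ^ j • c

/-- The formal properties of a Galois action on the cohomology of a variety: it respects the
grading, `g` multiplies the orientation by `χ g ^ dim` (`χ` is the action on the Tate twists) and maps
the classes of cycles of codimension `j` to `χ g ^ j` times classes of cycles of codimension `j`;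
for all `g` in a subgroup of finite index the class `c` is mapped to `χ g ^ j c`. -/
structure CohAlg.Act.IsGalois (ρ : M.Act Γ) (χ : Γ →* Kˣ) : Prop where
  gr_mem : ∀ g i, ∀ a ∈ M.gr i, ρ.op g a ∈ M.gr i
  tr_act : ∀ g a, M.tr (ρ.op g a) = (χ g : K) ^ M.dim * M.tr a
  cl_act : ∀ g j, ∀ c ∈ M.cls j, ∃ c' ∈ M.cls j, ρ.op g c = (χ g : K) ^ j • c'
  cl_fix : ∀ j, ∀ c ∈ M.cls j, ρ.SemiInv χ j c

/-- The Tate conjecture: if a subgroup of finite index acts on `c` in `gr (2 j)` by `χ ^ j`, then `c`
is a linear combination of elements of `cls j`. -/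
def CohAlg.Act.Tate (ρ : M.Act Γ) (χ : Γ →* Kˣ) : Prop :=
  ∀ j, ∀ c ∈ M.gr (2 * j), ρ.SemiInv χ j c → c ∈ Submodule.span K (M.cls j)

/-- The transcendental part is irreducible under all subgroups of finite index. -/
def CohAlg.Act.Irred (ρ : M.Act Γ) : Prop :=
  ∀ Δ : Subgroup Γ, Δ.FiniteIndex → ∀ U ≤ M.T, (∀ g ∈ Δ, ∀ a ∈ U, ρ.op g a ∈ U) →
    U = ⊥ ∨ U = M.T

/-- `g` acts on the transcendental part by a Picard-Lefschetz formula. -/
def CohAlg.Act.IsPL (ρ : M.Act Γ) (g : Γ) : Prop :=
  ∃ δ ∈ M.T, δ ≠ 0 ∧ ∃ c : K, c ≠ 0 ∧ ∀ t ∈ M.T, ρ.op g t = t + (c * M.tr (δ * t)) • δ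

/-- `g` acts trivially. -/
def CohAlg.Act.Triv (ρ : M.Act Γ) (g : Γ) : Prop := ∀ a, ρ.op g a = a

/-- The homomorphism `f` is equivariant. -/
def Compat {N : CohAlg K} (f : M.A →ₐ[K] N.A) (ρ : M.Act Γ) (υ : N.Act Γ) : Prop :=
  ∀ g a, υ.op g (f a) = f (ρ.op g a)

/-- The field `K` contains only finitely many elements of the form `ζ + ζ⁻¹`, where `ζ` is a root
of unity (for instance, `K` is a finite extension of a field of `p`-adic numbers). -/
def FewRoots (K : Type v) [Field K] : Prop :=
  {y : K | ∃ ζ : AlgebraicClosure K, (∃ m ≥ 1, ζ ^ m = 1) ∧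
    algebraMap K (AlgebraicClosure K) y = ζ + ζ⁻¹}.Finite

end Alg

variable {k : Type u} [Field k] {𝒱 : VarClass k} {ops : CycleOps 𝒱}

/-- The cohomology of the variety `X`. -/
def coh (W : WeilCohomology.{u, v} ops) (X : 𝒱.Obj) : CohAlg W.K where
  A := W.H X
  gr := W.gr X
  dim := X.dim
  tr := W.tr X
  cls := algClasses W X

/-- The divisor satisfies the hard Lefschetz theorem and the standard conjectures of Lefschetz and
of Hodge type. -/
structure IsPol (W : WeilCohomology.{u, v} ops) (P : Polarized 𝒱) : Prop where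
  div : P.X.IsCyc 1 P.D
  hard : HardLefschetz W P.X P.D
  lefschetz : LefschetzB W P.X P.D
  hodge : HodgeType W P.X P.D

/-- The product `P × (P × ( ⋯ × P))` of `n + 1` copies of `P`, with the sum of the pull-backs of the
divisors. -/
noncomputable def power (ops : CycleOps 𝒱) (P : Polarized 𝒱) (n : ℕ) : Polarized 𝒱 :=
  (P.prod ops)^[n] P

/-- The product `P i₁ ^ (n₁ + 1) × (P i₂ ^ (n₂ + 1) × (⋯ × Z))` for the list of the `(i, n)`, with
the sum of the pull-backs of the divisors. -/
noncomputable def productOfPowers (ops : CycleOps 𝒱) {ι : Type} (P : ι → Polarized 𝒱)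
    (Z : Polarized 𝒱) (L : List (ι × ℕ)) : Polarized 𝒱 :=
  L.foldr (fun a Q => (power ops (P a.1) a.2).prod ops Q) Z

section

variable {W : WeilCohomology.{u, v} ops} {Γ : Type w} [Group Γ]

/-- `G` is a class of varieties with an action of `Γ` on the cohomology which has the formal
properties of a Galois action; it is closed under products. -/
structure IsClass (χ : Γ →* W.Kˣ) (G : ∀ X : 𝒱.Obj, (coh W X).Act Γ → Prop) : Prop where
  galois : ∀ X ρ, G X ρ → ρ.IsGalois χ
  prod : ∀ A ρ B τ, G A ρ → G B τ → ∃ υ, G (A.prod B) υ ∧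
    Compat (M := coh W A) (N := coh W (A.prod B)) (W.map (fst A B)) ρ υ ∧
    Compat (M := coh W B) (N := coh W (A.prod B)) (W.map (snd A B)) τ υ

/-- `Z` and the `P i` are members of the class `G` and satisfy `IsPol`; the transcendental cohomology
of `P i` is in the middle degree and irreducible under all subgroups of finite index; for every `i`
there is an element `g` of `Γ` which acts on the transcendental cohomology of `P i` by a
Picard-Lefschetz formula and trivially on the cohomology of `Z` and of the other `P j`, and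
`χ g = 1`; if some `P i` has even dimension the coefficient field satisfies `FewRoots`; and `Z`
satisfies the Tate conjecture. -/
structure NodalSystem (χ : Γ →* W.Kˣ) (G : ∀ X : 𝒱.Obj, (coh W X).Act Γ → Prop) {ι : Type}
    (P : ι → Polarized 𝒱) (ρ : ∀ i, (coh W (P i).X).Act Γ) (Z : Polarized 𝒱)
    (ζ : (coh W Z.X).Act Γ) : Prop where
  isClass : IsClass χ G
  mem : ∀ i, G (P i).X (ρ i)
  mem_base : G Z.X ζ
  pol : ∀ i, IsPol W (P i)
  pol_base : IsPol W Z
  middle : ∀ i, (coh W (P i).X).Middle
  irred : ∀ i, (ρ i).Irred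
  node : ∀ i, ∃ g, (ρ i).IsPL g ∧ χ g = 1 ∧ ζ.Triv g ∧ ∀ j, j ≠ i → (ρ j).Triv g
  few : (∃ i, Even (P i).X.dim) → FewRoots W.K
  tate : ζ.Tate χ

end

section

variable {Λ : Type x}

/-- Up to squares, the discriminants of the intersection form, multiplied by the sign
`(-1) ^ (dim X / 2)`, on the transcendental cohomology of `X` in all theories `V l` are the same
positive rational number; or in all theories `V l` there are isometries of the transcendental
cohomology with the same rational characteristic polynomial, which has no real root. -/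
inductive PosDisc (V : Λ → WeilCohomology.{u, v} ops) (X : 𝒱.Obj) : Prop
  | disc (N : ℕ) (q : ℚ) : 0 < q → (∀ l, (coh (V l) X).Disc N q) → PosDisc V X
  | isometry (P : Polynomial ℚ) : (∀ x : ℝ, Polynomial.aeval x P ≠ 0) →
      (∀ l, (coh (V l) X).Isometry (P.map (Rat.castHom (V l).K))) → PosDisc V X

/-- In all theories `V l` homological and numerical equivalence coincide for `X` and the
transcendental cohomology of `X` is in the middle degree, and `X` satisfies `PosDisc`. -/
structure EvenType (V : Λ → WeilCohomology.{u, v} ops) (X : 𝒱.Obj) : Prop where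
  homEqNum : ∀ l, HomEqNum (V l) X
  middle : ∀ l, (coh (V l) X).Middle
  posDisc : PosDisc V X

/-- For almost all prime numbers `p` there is a theory `V l` whose coefficient field is isomorphic to
the field of `p`-adic numbers. -/
def AlmostAllPrimes (V : Λ → WeilCohomology.{u, v} ops) : Prop :=
  ∃ S : Finset ℕ, ∀ (p : ℕ) [Fact p.Prime], p ∉ S → ∃ l, Nonempty ((V l).K ≃+* ℚ_[p])

/-- The indices in the list are pairwise different. For the pairs `(i, n)` for which `P i` has even
dimension: `n + 1` is less than the dimension of the transcendental cohomology of `P i`, or this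
dimension is at least three and `P i` satisfies `EvenType` (and `n` is arbitrary). -/
def AllowedPowers (V : Λ → WeilCohomology.{u, v} ops) (l₀ : Λ) {ι : Type}
    (P : ι → Polarized 𝒱) (L : List (ι × ℕ)) : Prop :=
  (L.map Prod.fst).Nodup ∧ ∀ a ∈ L, Even (P a.1).X.dim →
    ∃ N, (coh (V l₀) (P a.1).X).HasRank N ∧
      (a.2 + 1 < N ∨ (3 ≤ N ∧ EvenType V (P a.1).X))

end

end Pool.Agent.V5helper86.AP.P
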