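import Mathlib

/-!
# Rational numbers which are squares in almost all fields of `ℓ`-adic numbers
-/

namespace Pool.Agent.V5helper86.AP

theorem jac_neg (m : ℕ) (hm : 0 < m) {p : ℕ} (hp : p % (4 * m) = 4 * m - 1) :
    jacobiSym (-(m : ℤ)) p = -1 := by
  have hodd : Odd p := by
    rw [Nat.odd_iff]
    have h1 : p % (4 * m) % 2 = p % 2 := Nat.mod_mod_of_dvd p ⟨2 * m, by ring⟩
    rw [hp] at h1
    omega
  have hodd' : Odd (4 * m - 1) := by
    rw [Nat.odd_iff]
    omega
  rw [jacobiSym.mod_right _ hodd, Int.natAbs_neg, Int.natAbs_natCast, hp]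
  have h1 : jacobiSym (4 * m : ℤ) (4 * m - 1) = 1 := by
    have h2 : (4 * m : ℤ) % ((4 * m - 1 : ℕ) : ℤ) = 1 % ((4 * m - 1 : ℕ) : ℤ) := by
      have h3 : (4 * m : ℤ) = 1 + ((4 * m - 1 : ℕ) : ℤ) := by
        rw [Nat.cast_sub (by omega)]
        push_cast
        ring
      rw [h3, Int.add_emod_right]
    rw [jacobiSym.mod_left' h2, jacobiSym.one_left]
  have hcop : Int.gcd 2 (4 * m - 1 : ℕ) = 1 := by
    have : Nat.Coprime 2 (4 * m - 1) := (Nat.coprime_two_left).2 hodd'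
    exact_mod_cast this
  have h4 : jacobiSym (m : ℤ) (4 * m - 1) = 1 := by
    rw [show (4 * m : ℤ) = 2 ^ 2 * m by ring, jacobiSym.mul_left,
      jacobiSym.sq_one' hcop, one_mul] at h1
    exact h1
  have h5 : jacobiSym (-1) (4 * m - 1) = -1 := by
    rw [jacobiSym.at_neg_one hodd']
    have : ((4 * m - 1 : ℕ) : ZMod 4) = 3 := by
      rw [Nat.cast_sub (by omega)]
      push_cast
      have : (4 : ZMod 4) = 0 := by decide
      rw [this, zero_mul]
      decide
    rw [this]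
    decide
  rw [← neg_one_mul, jacobiSym.mul_left, h4, h5]
  norm_num

theorem isSquare_zmod {p : ℕ} [Fact p.Prime] {a : ℤ} (ha : ¬ (p : ℤ) ∣ a)
    (h : IsSquare ((a : ℚ_[p]))) : IsSquare ((a : ZMod p)) := by
  obtain ⟨x, hx⟩ := h
  have h1 : ‖(a : ℚ_[p])‖ = 1 := by
    refine le_antisymm (Padic.norm_int_le_one a) ?_
    by_contra hcon
    push Not at hcon
    exact ha ((Padic.norm_intCast_lt_one_iff).1 hcon)
  have h2 : ‖x‖ ≤ 1 := by
    rw [hx, norm_mul] at h1
    by_contra hcon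
    push Not at hcon
    nlinarith
  set y : ℤ_[p] := ⟨x, h2⟩ with hy
  have h3 : (a : ℤ_[p]) = y * y := by
    apply Subtype.ext
    rw [PadicInt.coe_mul]
    push_cast
    exact hx
  refine ⟨PadicInt.toZMod y, ?_⟩
  have h4 := congrArg (PadicInt.toZMod (p := p)) h3
  rw [map_mul, map_intCast] at h4
  exact h4

/-- **A rational number which is a square in all fields of `p`-adic numbers except for finitely
many `p` is not negative.** -/
theorem nonneg_of_squares (S : Finset ℕ) (r : ℚ)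
    (h : ∀ p : ℕ, [Fact p.Prime] → p ∉ S → IsSquare ((r : ℚ_[p]))) : 0 ≤ r := by
  by_contra hr
  push Not at hr
  set m : ℕ := (r.num * r.den).natAbs with hm
  have hneg : r.num * r.den < 0 := by
    have h1 : r.num < 0 := Rat.num_neg.2 hr
    have h2 : (0 : ℤ) < r.den := by exact_mod_cast r.den_pos
    exact mul_neg_of_neg_of_pos h1 h2
  have hm' : -(m : ℤ) = r.num * r.den := by
    rw [hm, Int.ofNat_natAbs_of_nonpos hneg.le, neg_neg]
  have hmpos : 0 < m := by
    rw [hm, Int.natAbs_pos]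
    exact hneg.ne
  have : NeZero (4 * m) := ⟨by omega⟩
  have hunit : IsUnit ((4 * m - 1 : ℕ) : ZMod (4 * m)) := by
    rw [ZMod.isUnit_iff_coprime]
    have h1 : 4 * m = (4 * m - 1) + 1 := by omega
    have h2 : Nat.Coprime (4 * m - 1) ((4 * m - 1) + 1) := by simp
    rwa [← h1] at h2
  have hinf := Nat.infinite_setOfPred_prime_and_eq_mod hunit
  obtain ⟨p, hp, hpS⟩ := hinf.exists_notMem_finset (S ∪ Finset.range (m + 1))
  obtain ⟨hpp, hpm⟩ := hp
  have : Fact p.Prime := ⟨hpp⟩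
  rw [Finset.mem_union, not_or, Finset.mem_range, not_lt] at hpS
  have hmod : p % (4 * m) = 4 * m - 1 := by
    rw [ZMod.natCast_eq_natCast_iff'] at hpm
    rw [hpm, Nat.mod_eq_of_lt]
    omega
  have h1 : IsSquare (((-(m : ℤ) : ℤ) : ℚ_[p])) := by
    rw [hm']
    obtain ⟨x, hx⟩ := h p hpS.1
    refine ⟨x * r.den, ?_⟩
    have h2 : (r : ℚ_[p]) * r.den = r.num := by
      have := Rat.mul_den_eq_num r
      exact_mod_cast congrArg (Rat.cast (K := ℚ_[p])) this
    push_cast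
    rw [← h2]
    rw [hx]
    ring
  have hndvd : ¬ (p : ℤ) ∣ -(m : ℤ) := by
    rw [dvd_neg]
    intro h2
    have h3 : p ∣ m := by exact_mod_cast h2
    have := Nat.le_of_dvd hmpos h3
    omega
  have h2 := isSquare_zmod hndvd h1
  have h3 := jac_neg m hmpos hmod
  rw [← jacobiSym.legendreSym.to_jacobiSym] at h3
  exact (legendreSym.eq_neg_one_iff p).1 h3 h2

/-- The version for fields isomorphic to the fields of `p`-adic numbers. -/
theorem nonneg_of_fields {Λ : Type*} (K : Λ → Type*) [∀ l, Field (K l)] (S : Finset ℕ)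
    (hK : ∀ (p : ℕ) [Fact p.Prime], p ∉ S → ∃ l, Nonempty (K l ≃+* ℚ_[p])) (r : ℚ)
    (h : ∀ l, IsSquare ((r : K l))) : 0 ≤ r := by
  refine nonneg_of_squares S r fun p hp hpS => ?_
  obtain ⟨l, ⟨e⟩⟩ := hK p hpS
  obtain ⟨x, hx⟩ := h l
  refine ⟨e x, ?_⟩
  rw [← map_mul, ← hx, map_ratCast]

end Pool.Agent.V5helper86.AP
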