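import Pool.Agent.V5helper86.AP.Fin
import Pool.Agent.V5helper86.AP.Sq
import Pool.Agent.V5helper86.AP.Disc
import Pool.Agent.V5helper86.AP.Pub

/-!
# The main theorem for the public definitions
-/

open CategoryTheory AlgebraicGeometry Finset Function

set_option linter.unusedSectionVars false

universe u v w x

namespace Pool.Agent.V5helper86.AP.P

open Pool.Agent.H914 Pool.Agent.H914.VarClass Pool.Agent.H914.VarClass.Obj
  Pool.Agent.H914.WeilCohomology Pool.Agent.H281R3.HT Pool.Agent.W552 Pool.Agent.H447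
  Pool.Agent.TH125.Gal Pool.Agent.Y127 Pool.Agent.V5helper86.AP

theorem CohAlg.IsBasis.basis {K : Type v} [Field K] {M : CohAlg K} {N : ℕ} {t : Fin N → M.A}
    (h : M.IsBasis t) : ∃ b : Module.Basis (Fin N) K M.T, ∀ i, (b i : M.A) = t i := by
  obtain ⟨h1, h2⟩ := h
  have h3 : ∀ T, Submodule.span K (Set.range t) = T →
      ∃ b : Module.Basis (Fin N) K T, ∀ i, (b i : M.A) = t i := by
    rintro _ rfl
    exact ⟨Module.Basis.span h1, fun i => congrArg Subtype.val (Module.Basis.span_apply h1 i)⟩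
  exact h3 _ h2

variable {k : Type u} [Field k] {𝒱 : VarClass k} {ops : CycleOps 𝒱}

theorem coh_T (W : WeilCohomology.{u, v} ops) (X : 𝒱.Obj) :
    (coh W X).T = transcendental W X := rfl

theorem hasDisc_of {W : WeilCohomology.{u, v} ops} {X : 𝒱.Obj} {N : ℕ} {q : ℚ}
    (h : (coh W X).Disc N q) : HasDisc W X N q := by
  obtain ⟨t, ht, c, hc, hdet⟩ := h
  obtain ⟨b, hb⟩ := ht.basis
  refine ⟨b, c, hc, ?_⟩
  refine Eq.trans ?_ hdet
  congr 1
  ext i j
  have h1 : ((b i : (coh W X).A) : W.H X) = t i := hb i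
  have h2 : ((b j : (coh W X).A) : W.H X) = t j := hb j
  exact congrArg₂ (fun x y : W.H X => (-1 : W.K) ^ (X.dim / 2) * W.tr X (x * y)) h1 h2

/-- The discriminant of a form with an isometry. -/
theorem disc_of_iso {W : WeilCohomology.{u, v} ops} {X : 𝒱.Obj} {P : Polynomial ℚ}
    (hD : HomEqNum W X) (hmid : transcendental W X ≤ W.gr X X.dim) (heven : Even X.dim)
    (hP : ∀ x : ℝ, Polynomial.aeval x P ≠ 0)
    (h : (coh W X).Isometry (P.map (Rat.castHom W.K))) :
    0 < P.eval 1 * P.eval (-1) ∧ HasDisc W X P.natDegree (P.eval 1 * P.eval (-1)) := by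
  obtain ⟨N, t', ht', M, hM, hchar⟩ := h
  obtain ⟨t, ht⟩ : ∃ b : Module.Basis (Fin N) W.K (transcendental W X),
      ∀ i, (b i : W.H X) = t' i := ht'.basis
  have hN : P.natDegree = N := by
    have h1 := congrArg Polynomial.natDegree hchar
    rw [Matrix.charpoly_natDegree_eq_dim, Fintype.card_fin,
      Polynomial.natDegree_map_eq_of_injective (Rat.castHom W.K).injective] at h1
    exact h1.symm
  rw [hN]
  have hsy : ∀ a b : transcendental W X, rform W X (transcendental W X) a b =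
      rform W X (transcendental W X) b a := by
    intro a b
    rw [rform_apply, rform_apply, trans_symm hmid a.2 b.2, heven.neg_one_pow, one_mul]
  set ε : W.K := (-1) ^ (X.dim / 2) with hε
  have hε0 : ε ≠ 0 := pow_ne_zero _ (neg_ne_zero.2 one_ne_zero)
  set G : Matrix (Fin N) (Fin N) W.K := (coh W X).gram t' with hG
  have hGr : ∀ i j, G i j = ε * rform W X (transcendental W X) (t i) (t j) := by
    intro i j
    have h1 : ((t i : transcendental W X) : W.H X) = t' i := ht i
    have h2 : ((t j : transcendental W X) : W.H X) = t' j := ht j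
    exact (congrArg₂ (fun x y : W.H X => (-1 : W.K) ^ (X.dim / 2) * W.tr X (x * y)) h1 h2).symm
  have hGt : G.transpose = G := by
    ext i j
    rw [Matrix.transpose_apply, hGr, hGr, hsy]
  obtain ⟨R, hR⟩ := exists_inv_gram (s := (1 : W.K)) (B := rform W X (transcendental W X))
    (fun x y => by rw [one_mul]; exact hsy x y) (trans_nondeg hD) t
  have hGd : G.det ≠ 0 := by
    have h1 : G * (ε⁻¹ • R) = 1 := by
      have h2 : G = ε • (Matrix.of fun i j => rform W X (transcendental W X) (t i) (t j)) := by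
        ext i j
        exact hGr i j
      rw [h2, Matrix.smul_mul, Matrix.mul_smul, hR, smul_smul, mul_inv_cancel₀ hε0, one_smul]
    intro h0
    have h3 := congrArg Matrix.det h1
    rw [Matrix.det_mul, h0, zero_mul, Matrix.det_one] at h3
    exact zero_ne_one h3
  obtain ⟨h1, c, hc, h2⟩ := disc_of_isometry G M hGt hGd hM hP (by
    rw [hchar]
    congr 1)
  exact ⟨h1, hasDisc_of ⟨t', ht', c, hc, h2⟩⟩

theorem EvenType.exists_disc {Λ : Type x} {V : Λ → WeilCohomology.{u, v} ops} (l₀ : Λ)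
    {X : 𝒱.Obj} (h : EvenType V X) (heven : Even X.dim) :
    ∃ (N : ℕ) (q : ℚ), 0 < q ∧ ∀ l, HasDisc (V l) X N q := by
  obtain ⟨h1, h2, h3⟩ := h
  cases h3 with
  | disc N q hq hN => exact ⟨N, q, hq, fun l => hasDisc_of (hN l)⟩
  | isometry P hP hiso =>
    exact ⟨_, _, (disc_of_iso (h1 l₀) (h2 l₀) heven hP (hiso l₀)).1, fun l =>
      (disc_of_iso (h1 l) (h2 l) heven hP (hiso l)).2⟩

theorem AlmostAllPrimes.sqPos {Λ : Type x} {V : Λ → WeilCohomology.{u, v} ops}
    (h : AlmostAllPrimes V) : SqPos V := by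
  obtain ⟨S, hS⟩ := h
  exact fun r hr => nonneg_of_fields (fun l => (V l).K) S (fun p _ hp => hS p hp) r hr

theorem power_eq (P : Polarized 𝒱) (n : ℕ) : power ops P n = polPow ops P n := by
  induction n with
  | zero => rfl
  | succ n ih =>
    rw [polPow, ← ih, power, Function.iterate_succ_apply']
    rfl

theorem productOfPowers_eq {ι : Type} (P : ι → Polarized 𝒱) (Z : Polarized 𝒱)
    (L : List (ι × ℕ)) : productOfPowers ops P Z L = tower ops P Z L := by
  induction L with
  | nil => rfl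
  | cons a L ih =>
    rw [tower, ← ih, ← power_eq]
    rfl

theorem HasRank.eq {W : WeilCohomology.{u, v} ops} {X : 𝒱.Obj} {N : ℕ}
    (h : (coh W X).HasRank N) : transRank W X = N := by
  obtain ⟨t, ht⟩ := h
  obtain ⟨b, -⟩ := ht.basis
  have h1 : Module.finrank W.K (coh W X).T = N := by
    rw [Module.finrank_eq_card_basis b, Fintype.card_fin]
  exact h1

section

variable {W : WeilCohomology.{u, v} ops} {Γ : Type w} [Group Γ] {χ : Γ →* W.Kˣ}
  {G : ∀ X : 𝒱.Obj, (coh W X).Act Γ → Prop} {ι : Type} {P : ι → Polarized 𝒱}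
  {ρ : ∀ i, (coh W (P i).X).Act Γ} {Z : Polarized 𝒱} {ζ : (coh W Z.X).Act Γ}

/-- the variety with the action -/
def gv (X : 𝒱.Obj) (ρ : (coh W X).Act Γ) : GVar W Γ := ⟨X, ρ⟩

theorem IsPol.to {P : Polarized 𝒱} (h : IsPol W P) : IsPolarization W P.X P.D :=
  ⟨h.div, h.hard, h.lefschetz, h.hodge⟩

theorem IsClass.to (h : IsClass χ G) : GaloisClass χ {A : GVar W Γ | G A.X A.act} where
  galois := by
    intro A hA
    have h1 := h.galois A.X A.act hA
    exact ⟨h1.gr_mem, h1.tr_act, h1.cl_act, h1.cl_fix⟩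
  prod := by
    intro A hA B hB
    obtain ⟨υ, h1, h2, h3⟩ := h.prod A.X A.act B.X B.act hA hB
    exact ⟨gv _ υ, h1, IsProdVar.mk υ h2 h3⟩

theorem NodalSystem.to (h : NodalSystem χ G P ρ Z ζ) :
    TH125.Gal.NodalSystem χ {A : GVar W Γ | G A.X A.act} (fun i => gv (P i).X (ρ i))
      (fun i => (P i).D) (gv Z.X ζ) where
  galoisClass := h.isClass.to
  mem := h.mem
  mem_base := h.mem_base
  transIrred i := ⟨(h.pol i).to, h.middle i, h.irred i⟩
  node := h.node
  few := h.few

end

/-- **The standard conjecture of Hodge type and the conjecture D for products of powers.** -/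
theorem NodalSystem.hodge {Λ : Type x} {V : Λ → WeilCohomology.{u, v} ops}
    (hV : AlmostAllPrimes V) {l₀ : Λ} {Γ : Type w} [Group Γ] {χ : Γ →* (V l₀).Kˣ}
    {G : ∀ X : 𝒱.Obj, (coh (V l₀) X).Act Γ → Prop} {ι : Type} {P : ι → Polarized 𝒱}
    {ρ : ∀ i, (coh (V l₀) (P i).X).Act Γ} {Z : Polarized 𝒱} {ζ : (coh (V l₀) Z.X).Act Γ}
    (h : NodalSystem χ G P ρ Z ζ) {L : List (ι × ℕ)} (hL : AllowedPowers V l₀ P L) :
    HodgeType (V l₀) (productOfPowers ops P Z L).X (productOfPowers ops P Z L).D ∧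
      HomEqNum (V l₀) (productOfPowers ops P Z L).X := by
  rw [productOfPowers_eq]
  refine hodge_all h.to h.pol_base.to h.tate hV.sqPos L hL.1 fun a ha he => ?_
  obtain ⟨N, hN, h1⟩ := hL.2 a ha he
  have h2 := HasRank.eq hN
  rcases h1 with h1 | ⟨h1, h3⟩
  · left
    change a.2 + 1 < transRank (V l₀) (P a.1).X
    rw [h2]
    exact h1
  · right
    refine ⟨?_, h3.homEqNum, h3.middle, h3.exists_disc l₀ he⟩
    change 3 ≤ transRank (V l₀) (P a.1).X
    rw [h2]
    exact h1

end Pool.Agent.V5helper86.AP.P
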