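import Pool.Agent.H914R2.DDefs
import Pool.Agent.H281R3.HT.Defs

/-!
# Maximal degenerations, K3 slopes and discriminants: definitions
-/

open CategoryTheory AlgebraicGeometry

universe u x

namespace Pool.Agent.V5helper86.AP.O

open Pool.Agent.H914 Pool.Agent.H914.VarClass Pool.Agent.H914.VarClass.Obj
  Pool.Agent.H914.WeilCohomology Pool.Agent.H281R3.HT

/-- Local information: an element `g` of `Γ` (an element of an inertia group, if `v` is `none`, or a
Frobenius element, if `v` is a function `K → ℚ`, a valuation), a number `c` and a rank `r`. -/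
structure Loc (K Γ : Type) where
  g : Γ
  v : Option (K → ℚ)
  c : ℚ
  r : ℕ

section Matrix

variable {K : Type} [Field K] {Γ : Type}

/-- The slopes of the matrix `m`: the values of `v` at its eigenvalues, with multiplicities. -/
noncomputable def slopes (v : K → ℚ) {N : ℕ} (m : Matrix (Fin N) (Fin N) K) : Multiset ℚ :=
  m.charpoly.roots.map v

/-- The number of pairs of slopes, counted with multiplicities, with difference `c`. -/
def gaps (s : Multiset ℚ) (c : ℚ) : ℕ := (s ×ˢ s).countP fun x => x.1 = x.2 + c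

/-- The matrix `m` is like the one of an element of the inertia group at a place of maximal
degeneration (type III): `(m - 1) ^ 3 = 0`, `(m - 1) ^ 2 ≠ 0` and `m - 1` has rank `2`; or `m` has
the slopes `h + c` and `h - c`, once each, and `h`, where `c > 0` and `v` is additive. -/
def Loc.Big (l : Loc K Γ) {N : ℕ} (m : Matrix (Fin N) (Fin N) K) : Prop :=
  (l.v = none → (m - 1) ^ 3 = 0 ∧ (m - 1) ^ 2 ≠ 0 ∧ (m - 1).rank = 2) ∧
    ∀ v, l.v = some v → (∀ x y, x ≠ 0 → y ≠ 0 → v (x * y) = v x + v y) ∧ 0 < l.c ∧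
      ∃ h, slopes v m = (h + l.c) ::ₘ (h - l.c) ::ₘ Multiset.replicate (N - 2) h

/-- `(m - 1) ^ 2 = 0` and the square of the rank of `m - 1` is smaller than `r - 2`; or the number
of the pairs of slopes with difference `c` is smaller than `r - 2`. -/
def Loc.Small (l : Loc K Γ) {N : ℕ} (m : Matrix (Fin N) (Fin N) K) : Prop :=
  (l.v = none → (m - 1) ^ 2 = 0 ∧ (m - 1).rank ^ 2 + 2 < l.r) ∧
    ∀ v, l.v = some v → gaps (slopes v m) l.c + 2 < l.r

end Matrix

section Lin

variable {K : Type} [Field K] {A : Type} [AddCommGroup A] [Module K A] {A' : Type}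
  [AddCommGroup A'] [Module K A'] {Γ : Type} [Group Γ]

/-- The elements `t 0, …, t (N - 1)` are a basis of `T`. -/
def IsBasis (T : Submodule K A) {N : ℕ} (t : Fin N → A) : Prop :=
  LinearIndependent K t ∧ Submodule.span K (Set.range t) = T

/-- `m` is the matrix of the map `φ` on `T` with respect to a basis. -/
def HasMatrix (T : Submodule K A) (φ : A → A) {N : ℕ} (m : Matrix (Fin N) (Fin N) K) : Prop :=
  ∃ t : Fin N → A, IsBasis T t ∧ ∀ j, φ (t j) = ∑ i, m i j • t i

/-- Every subspace of `T` which is stable under a subgroup of finite index is `0` or `T`. -/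
def Irred (T : Submodule K A) (ρ : Γ → A → A) : Prop :=
  ∀ Δ : Subgroup Γ, Δ.FiniteIndex → ∀ U ≤ T, (∀ g ∈ Δ, ∀ a ∈ U, ρ g a ∈ U) → U = ⊥ ∨ U = T

/-- `T` is contained in `M`, has the rank `r`, which is `3` or at least `5`, is irreducible under all
subgroups of finite index, and the matrix of `g` on `T` satisfies `Loc.Big`. -/
def OrthAct (l : Loc K Γ) (T M : Submodule K A) (ρ : Γ → A → A) : Prop :=
  T ≤ M ∧ (l.r = 3 ∨ 5 ≤ l.r) ∧ Irred T ρ ∧
    ∃ m : Matrix (Fin l.r) (Fin l.r) K, HasMatrix T (ρ l.g) m ∧ l.Big m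

/-- `T` carries a nondegenerate form `B` with `B(x, y) = s B(y, x)` which is invariant up to a
character. -/
def HasForm (T : Submodule K A) (ρ : Γ → A → A) (s : K) : Prop :=
  ∃ (μ : Γ →* Kˣ) (B : A →ₗ[K] A →ₗ[K] K), (∀ x ∈ T, ∀ y ∈ T, B x y = s * B y x) ∧
    (∀ x ∈ T, (∀ y ∈ T, B x y = 0) → x = 0) ∧
    ∀ g, ∀ x ∈ T, ∀ y ∈ T, B (ρ g x) (ρ g y) = (μ g : K) * B x y

/-- `T` is small with respect to `l`: the matrix of `g` on `T` satisfies `Loc.Small`, or `T` carries
a symmetric form and `dim T < r`, or `T` carries an alternating form and `dim T + 1 < r`. -/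
def IsSmall (l : Loc K Γ) (T : Submodule K A) (ρ : Γ → A → A) : Prop :=
  (∃ (N : ℕ) (m : Matrix (Fin N) (Fin N) K), HasMatrix T (ρ l.g) m ∧ l.Small m) ∨
    (HasForm T ρ 1 ∧ Module.finrank K T < l.r) ∨
    (HasForm T ρ (-1) ∧ Module.finrank K T + 1 < l.r)

/-- There are a linear isomorphism `ψ : T → T'` and a function `ε` with
`ψ (g x) = ε(g) g ψ(x)`. -/
def TwistIso (T : Submodule K A) (ρ : Γ → A → A) (T' : Submodule K A') (ρ' : Γ → A' → A') :
    Prop :=
  ∃ (ψ : T ≃ₗ[K] T') (ε : Γ → K), ∀ (g : Γ) (x y : T), ρ g x = y →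
    (ψ y : A') = ε g • ρ' g (ψ x)

/-- On the element `c` a subgroup of finite index acts by the power `χ ^ j`. -/
def SemiInv (χ : Γ → K) (ρ : Γ → A → A) (j : ℕ) (c : A) : Prop :=
  ∃ Δ : Subgroup Γ, Δ.FiniteIndex ∧ ∀ g ∈ Δ, ρ g c = χ g ^ j • c

/-- The Tate conjecture: if a subgroup of finite index acts on `c` in `gr (2 j)` by `χ ^ j`, then `c`
is a linear combination of elements of `C j`. -/
def Tate (χ : Γ → K) (gr : ℕ → Submodule K A) (C : ℕ → Set A) (ρ : Γ → A → A) : Prop :=
  ∀ j, ∀ c ∈ gr (2 * j), SemiInv χ ρ j c → c ∈ Submodule.span K (C j)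

/-- The matrix of the form `q`. -/
def gram (q : A → A → K) {N : ℕ} (t : Fin N → A) : Matrix (Fin N) (Fin N) K :=
  Matrix.of fun i j => q (t i) (t j)

/-- The form `q` on `T` has rank `N` and, up to squares, discriminant `d`. -/
def Disc [CharZero K] (q : A → A → K) (T : Submodule K A) (N : ℕ) (d : ℚ) : Prop :=
  ∃ t : Fin N → A, IsBasis T t ∧ ∃ c : K, c ≠ 0 ∧ (gram q t).det = d * c ^ 2

/-- There is an isometry of `T` with the characteristic polynomial `P` (`m` is its matrix with
respect to a basis). -/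
def Isometry [CharZero K] (q : A → A → K) (T : Submodule K A) (P : Polynomial ℚ) : Prop :=
  ∃ (N : ℕ) (t : Fin N → A), IsBasis T t ∧ ∃ m : Matrix (Fin N) (Fin N) K,
    m.transpose * gram q t * m = gram q t ∧ m.charpoly = P.map (algebraMap ℚ K)

/-- The space `T` (the transcendental cohomology) is contained in `M` (the cohomology in the middle
degree). -/
def Middle (T M : Submodule K A) : Prop := T ≤ M

end Lin

section Alg

variable {K : Type} [Field K] {A : Type} [Ring A] [Algebra K A] {B : Type} [Ring B]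
  [Algebra K B] {Γ : Type} [Group Γ]

/-- The form `(-1) ^ (n / 2) tr (x y)`. -/
def form (n : ℕ) (tr : A →ₗ[K] K) (x y : A) : K := (-1) ^ (n / 2) * tr (x * y)

/-- The homomorphism `f` is equivariant. -/
def Compat (f : A →ₐ[K] B) (ρ : Γ → A → A) (υ : Γ → B → B) : Prop :=
  ∀ g a, υ g (f a) = f (ρ g a)

/-- The formal properties of a Galois action on the cohomology algebra `A` of a variety of dimension
`n`: `Γ` acts by automorphisms of the algebra, the action respects the grading `gr`, `g` multiplies
the orientation `tr` by `χ g ^ n` (`χ` is the action on the Tate twists) and maps the elements of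
`C j` (the classes of cycles of codimension `j`) to `χ g ^ j` times elements of `C j`; for all `g` in a
subgroup of finite index the class `c` is mapped to `χ g ^ j c`. -/
structure IsGalois (χ : Γ → K) (gr : ℕ → Submodule K A) (n : ℕ) (tr : A →ₗ[K] K)
    (C : ℕ → Set A) (ρ : Γ → A → A) : Prop where
  action : ∃ τ : Γ →* (A ≃ₐ[K] A), ∀ g a, τ g a = ρ g a
  gr_mem : ∀ g i, ∀ a ∈ gr i, ρ g a ∈ gr i
  tr_act : ∀ g a, tr (ρ g a) = χ g ^ n * tr a
  cl_act : ∀ g j, ∀ c ∈ C j, ∃ c' ∈ C j, ρ g c = χ g ^ j • c'
  cl_fix : ∀ j, ∀ c ∈ C j, SemiInv χ ρ j c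

/-- The algebra is generated by finitely many stable subspaces which are small with respect to all
`l i`. -/
def GenSmall {ι : Type} (l : ι → Loc K Γ) (ρ : Γ → A → A) : Prop :=
  ∃ (m : ℕ) (U : Fin m → Submodule K A), (∀ a i, IsSmall (l i) (U a) ρ) ∧
    (∀ a g, ∀ x ∈ U a, ρ g x ∈ U a) ∧ Algebra.adjoin K (⋃ a, (U a : Set A)) = ⊤

end Alg

variable {k : Type u} [Field k] {𝒱 : VarClass k} {ops : CycleOps 𝒱}

/-- The divisor satisfies the hard Lefschetz theorem and the standard conjectures of Lefschetz and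
of Hodge type. -/
structure IsPol (W : WeilCohomology.{u, 0} ops) (P : Polarized 𝒱) : Prop where
  div : P.X.IsCyc 1 P.D
  hard : HardLefschetz W P.X P.D
  lefschetz : LefschetzB W P.X P.D
  hodge : HodgeType W P.X P.D

/-- The product `P × (P × ( ⋯ × P))` of `n + 1` copies of `P`, with the sum of the pull-backs of the
divisors. -/
noncomputable def power (ops : CycleOps 𝒱) (P : Polarized 𝒱) (n : ℕ) : Polarized 𝒱 :=
  (P.prod ops)^[n] P

/-- The product `P i₁ ^ (n₁ + 1) × (P i₂ ^ (n₂ + 1) × (⋯ × Z))` for the list of the `(i, n)`, with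
the sum of the pull-backs of the divisors. -/
noncomputable def productOfPowers (ops : CycleOps 𝒱) {ι : Type} (P : ι → Polarized 𝒱)
    (Z : Polarized 𝒱) (L : List (ι × ℕ)) : Polarized 𝒱 :=
  L.foldr (fun a Q => (power ops (P a.1) a.2).prod ops Q) Z

section

variable {Γ : Type} [Group Γ]

/-- `χ` is a character, and `G` is a class of varieties with an action of `Γ` on the cohomology which
has the formal properties of a Galois action; it is closed under products. -/
structure IsClass (W : WeilCohomology.{u, 0} ops) (χ : Γ → W.K)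
    (G : ∀ X : 𝒱.Obj, (Γ → W.H X → W.H X) → Prop) : Prop where
  one : χ 1 = 1
  mul : ∀ g g', χ (g * g') = χ g * χ g'
  galois : ∀ X ρ, G X ρ → IsGalois χ (W.gr X) X.dim (W.tr X) (algClasses W X) ρ
  prod : ∀ A ρ B τ, G A ρ → G B τ → ∃ υ, G (A.prod B) υ ∧
    Compat (W.map (fst A B)) ρ υ ∧ Compat (W.map (snd A B)) τ υ

/-- The coefficient field is algebraically closed; `Z` and the `P i` are members of the class `G` and
satisfy `IsPol`; the `P i` have even dimension; their transcendental cohomology is in the middle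
degree and satisfies `OrthAct`; for different `i` these representations are not isomorphic up to a
function on `Γ`; for those with rank `8` the element and the valuation are the same; and the
cohomology algebra of `Z` satisfies `GenSmall`. -/
structure Family (W : WeilCohomology.{u, 0} ops) (χ : Γ → W.K)
    (G : ∀ X : 𝒱.Obj, (Γ → W.H X → W.H X) → Prop) {ι : Type} (l : ι → Loc W.K Γ)
    (P : ι → Polarized 𝒱) (ρ : ∀ i, Γ → W.H (P i).X → W.H (P i).X) (Z : Polarized 𝒱)
    (ζ : Γ → W.H Z.X → W.H Z.X) : Prop where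
  closed : IsAlgClosed W.K
  isClass : IsClass W χ G
  mem : ∀ i, G (P i).X (ρ i)
  mem_base : G Z.X ζ
  pol : ∀ i, IsPol W (P i)
  pol_base : IsPol W Z
  even : ∀ i, Even (P i).X.dim
  orth : ∀ i, OrthAct (l i) (transcendental W (P i).X) (W.gr (P i).X (P i).X.dim) (ρ i)
  notIso : ∀ i j, i ≠ j → ¬ TwistIso (transcendental W (P i).X) (ρ i)
    (transcendental W (P j).X) (ρ j)
  eight : ∀ i j, i ≠ j → (l i).r = 8 → (l j).r = 8 → (l i).g = (l j).g ∧ (l i).v = (l j).v
  small : GenSmall l ζ

/-- The Tate conjecture for `X`. -/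
def TateFor (W : WeilCohomology.{u, 0} ops) (χ : Γ → W.K) (X : 𝒱.Obj)
    (ρ : Γ → W.H X → W.H X) : Prop := Tate χ (W.gr X) (algClasses W X) ρ

end

section

variable {Λ : Type x}

/-- Up to squares, the discriminants of the intersection form, multiplied by the sign
`(-1) ^ (dim X / 2)`, on the transcendental cohomology of `X` in all theories `V l` are the same
positive rational number; or in all theories `V l` there are isometries of the transcendental
cohomology with the same rational characteristic polynomial, which has no real root. -/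
inductive PosDisc (V : Λ → WeilCohomology.{u, 0} ops) (X : 𝒱.Obj) : Prop
  | disc (N : ℕ) (q : ℚ) : 0 < q → (∀ l, Disc (form X.dim ((V l).tr X)) (transcendental (V l) X)
      N q) → PosDisc V X
  | isometry (P : Polynomial ℚ) : (∀ x : ℝ, Polynomial.aeval x P ≠ 0) →
      (∀ l, Isometry (form X.dim ((V l).tr X)) (transcendental (V l) X) P) → PosDisc V X

/-- In all theories `V l` homological and numerical equivalence coincide for `X` and the
transcendental cohomology of `X` is in the middle degree, and `X` satisfies `PosDisc`. -/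
structure EvenType (V : Λ → WeilCohomology.{u, 0} ops) (X : 𝒱.Obj) : Prop where
  homEqNum : ∀ l, HomEqNum (V l) X
  middle : ∀ l, Middle (transcendental (V l) X) ((V l).gr X X.dim)
  posDisc : PosDisc V X

/-- For almost all prime numbers `p` there is a theory `V l` whose coefficient field is isomorphic to
the field of `p`-adic numbers. -/
def AlmostAllPrimes (V : Λ → WeilCohomology.{u, 0} ops) : Prop :=
  ∃ S : Finset ℕ, ∀ (p : ℕ) [Fact p.Prime], p ∉ S → ∃ l, Nonempty ((V l).K ≃+* ℚ_[p])

/-- The indices in the list are pairwise different; for the pairs `(i, n)`: `n + 1` is less than the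
number `r i`, or `n` is arbitrary, `P i` satisfies `EvenType` and `T` is true. -/
def AllowedPowers (V : Λ → WeilCohomology.{u, 0} ops) {ι : Type} (P : ι → Polarized 𝒱)
    (r : ι → ℕ) (T : Prop) (L : List (ι × ℕ)) : Prop :=
  (L.map Prod.fst).Nodup ∧ ∀ a ∈ L, a.2 + 1 < r a.1 ∨ (EvenType V (P a.1).X ∧ T)

end

end Pool.Agent.V5helper86.AP.O
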