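import Pool.Agent.V5helper86.AP.Mxd
import Pool.Agent.V5helper86.AP.Cnv
import Pool.Agent.V5helper86.AP.PubO

/-!
# The main theorem for the public definitions: maximal degenerations and K3 slopes
-/

open CategoryTheory AlgebraicGeometry Finset Function

set_option linter.unusedSectionVars false

universe u x

namespace Pool.Agent.V5helper86.AP.O

open Pool.Agent.H914 Pool.Agent.H914.VarClass Pool.Agent.H914.VarClass.Obj
  Pool.Agent.H914.WeilCohomology Pool.Agent.H281R3.HT Pool.Agent.W552 Pool.Agent.H447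
  Pool.Agent.TH125.Gal Pool.Agent.Y127 Pool.Agent.V5helper86.AP

section Lin

variable {K : Type} [Field K] {A : Type} [AddCommGroup A] [Module K A]

theorem HasMatrix.lin {T : Submodule K A} {φ : A → A} {N : ℕ} {m : Matrix (Fin N) (Fin N) K}
    (h : HasMatrix T φ m) {L : A →ₗ[K] A} (hL : ∀ a, L a = φ a) :
    ∃ (b : Module.Basis (Fin N) K T) (hT : ∀ x ∈ T, L x ∈ T),
      L.restrict hT = Matrix.toLin b b m := by
  obtain ⟨t, ⟨hli, hsp⟩, hm⟩ := h
  subst hsp
  have hb : ∀ j, ((Module.Basis.span hli j : Submodule.span K (Set.range t)) : A) = t j :=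
    fun j => congrArg Subtype.val (Module.Basis.span_apply hli j)
  have hT : ∀ x ∈ Submodule.span K (Set.range t), L x ∈ Submodule.span K (Set.range t) := by
    intro x hx
    have h1 : Submodule.span K (Set.range t) ≤
        (Submodule.span K (Set.range t)).comap L := by
      refine Submodule.span_le.2 ?_
      rintro _ ⟨j, rfl⟩
      change L (t j) ∈ Submodule.span K (Set.range t)
      rw [hL, hm]
      exact Submodule.sum_mem _ fun i _ => Submodule.smul_mem _ _
        (Submodule.subset_span ⟨i, rfl⟩)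
    exact h1 hx
  refine ⟨Module.Basis.span hli, hT, (Module.Basis.span hli).ext fun j => Subtype.ext ?_⟩
  rw [Matrix.toLin_self, LinearMap.coe_restrict_apply, hb, hL, hm]
  rw [Submodule.coe_sum]
  refine Finset.sum_congr rfl fun i _ => ?_
  rw [Submodule.coe_smul, hb]

theorem HasMatrix.finrank {T : Submodule K A} {φ : A → A} {N : ℕ}
    {m : Matrix (Fin N) (Fin N) K} (h : HasMatrix T φ m) : Module.finrank K T = N := by
  obtain ⟨t, ⟨hli, hsp⟩, hm⟩ := h
  rw [← hsp, finrank_span_eq_card hli, Fintype.card_fin]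

/-- the map `L - 1` on a stable subspace -/
theorem map_sub_one {T : Submodule K A} {L : A →ₗ[K] A} (hT : ∀ x ∈ T, L x ∈ T) :
    Module.finrank K (T.map (L - LinearMap.id)) =
      Module.finrank K (LinearMap.range (L.restrict hT - 1)) := by
  rw [← Submodule.finrank_map_subtype_eq T (LinearMap.range (L.restrict hT - 1))]
  have h1 : T.map (L - LinearMap.id) =
      (LinearMap.range (L.restrict hT - 1)).map T.subtype := by
    ext x
    simp only [Submodule.mem_map, LinearMap.mem_range]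
    constructor
    · rintro ⟨y, hy, rfl⟩
      exact ⟨_, ⟨⟨y, hy⟩, rfl⟩, rfl⟩
    · rintro ⟨_, ⟨⟨y, hy⟩, rfl⟩, rfl⟩
      exact ⟨y, hy, rfl⟩
  rw [h1]

theorem rank_sub_one {T : Submodule K A} {N : ℕ} {m : Matrix (Fin N) (Fin N) K}
    {b : Module.Basis (Fin N) K T} {f : T →ₗ[K] T} (hf : f = Matrix.toLin b b m) :
    (m - 1).rank = Module.finrank K (LinearMap.range (f - 1)) := by
  rw [Matrix.rank_eq_finrank_range_toLin (m - 1) b b, map_sub, ← hf, Matrix.toLin_one]
  rfl

theorem pow_sub_one {T : Submodule K A} {N : ℕ} {m : Matrix (Fin N) (Fin N) K}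
    {b : Module.Basis (Fin N) K T} {f : Module.End K T} (hf : f = Matrix.toLin b b m) (n : ℕ) :
    (m - 1) ^ n = 0 ↔ (f - 1) ^ n = 0 := by
  have h1 : Matrix.toLinAlgEquiv b ((m - 1) ^ n) = (f - 1) ^ n := by
    rw [map_pow, map_sub, map_one]
    congr 2
    exact hf.symm
  rw [← h1]
  exact (EmbeddingLike.map_eq_zero_iff).symm

/-- the values of the valuation at the eigenvalues -/
theorem slopes_eq {T : Submodule K A} {N : ℕ} {m : Matrix (Fin N) (Fin N) K}
    {b : Module.Basis (Fin N) K T} {f : T →ₗ[K] T} (hf : f = Matrix.toLin b b m)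
    [FiniteDimensional K T]
    (hinj : Injective f) {v : K → ℚ} {w : Additive Kˣ →+ ℚ}
    (hw : ∀ (x : K) (hx : x ≠ 0), w (Additive.ofMul (Units.mk0 x hx)) = v x) :
    G.slopes w f = slopes v m := by
  have h1 : f.charpoly = m.charpoly := by
    rw [← LinearMap.charpoly_toMatrix f b, hf, LinearMap.toMatrix_toLin]
  rw [G.slopes, slopes, h1]
  refine Multiset.map_congr rfl fun α hα => ?_
  have h2 : α ≠ 0 := by
    rintro rfl
    rw [← h1, Polynomial.mem_roots (LinearMap.charpoly_monic f).ne_zero] at hα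
    have h3 := (Module.End.hasEigenvalue_iff_isRoot_charpoly f 0).2 hα
    obtain ⟨x, hx⟩ := h3.exists_hasEigenvector
    have h4 := hx.apply_eq_smul
    rw [zero_smul] at h4
    exact hx.2 (hinj (h4.trans (map_zero f).symm))
  rw [G.sl, dif_neg h2]
  exact hw α h2

end Lin

section loc

variable {K : Type} [Field K] {Γ : Type}

/-- the two forms of the local information -/
def Rel (l : Loc K Γ) (l' : Q71.TM.Loc K Γ) : Prop :=
  (l.v = none ∧ l' = .inertia l.g) ∨ ∃ v w, l.v = some v ∧ l' = .frobenius w l.g l.c ∧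
    ∀ (x : K) (hx : x ≠ 0), w (Additive.ofMul (Units.mk0 x hx)) = v x

theorem exists_rel {l : Loc K Γ} {N : ℕ} {m : Matrix (Fin N) (Fin N) K} (h : l.Big m) :
    ∃ l', Rel l l' := by
  cases hv : l.v with
  | none => exact ⟨.inertia l.g, Or.inl ⟨hv, rfl⟩⟩
  | some v =>
    obtain ⟨h1, -⟩ := h.2 v hv
    let w : Additive Kˣ →+ ℚ :=
      { toFun := fun x => v ((Additive.toMul x : Kˣ) : K)
        map_zero' := by
          have h2 := h1 1 1 one_ne_zero one_ne_zero
          rw [mul_one] at h2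
          rw [toMul_zero, Units.val_one]
          exact left_eq_add.1 h2
        map_add' := fun x y => by
          rw [toMul_add, Units.val_mul]
          exact h1 _ _ (Units.ne_zero _) (Units.ne_zero _) }
    exact ⟨.frobenius w l.g l.c, Or.inr ⟨v, w, hv, rfl, fun x hx => rfl⟩⟩

theorem Rel.same {l₁ l₂ : Loc K Γ} {l₁' l₂' : Q71.TM.Loc K Γ} (h1 : Rel l₁ l₁')
    (h2 : Rel l₂ l₂') (hg : l₁.g = l₂.g) (hv : l₁.v = l₂.v) : l₁'.Same l₂' := by
  rcases h1 with ⟨e1, rfl⟩ | ⟨v, w, e1, rfl, hw⟩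
  · rcases h2 with ⟨e2, rfl⟩ | ⟨v', w', e2, rfl, hw'⟩
    · exact hg
    · rw [hv, e2] at e1
      cases e1
  · rcases h2 with ⟨e2, rfl⟩ | ⟨v', w', e2, rfl, hw'⟩
    · rw [hv, e2] at e1
      cases e1
    · refine ⟨?_, hg⟩
      rw [hv, e2] at e1
      cases e1
      refine AddMonoidHom.ext fun x => ?_
      have h3 := (hw _ (Units.ne_zero (Additive.toMul x))).trans
        (hw' _ (Units.ne_zero (Additive.toMul x))).symm
      rw [Units.mk0_val, ofMul_toMul] at h3
      exact h3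

variable {A : Type} [Ring A] [Algebra K A] [FiniteDimensional K A] [Group Γ]

theorem typeOn_of {T : Submodule K A} {ρ : Γ → A → A} {τ : Γ →* (A ≃ₐ[K] A)}
    (hτ : ∀ g a, τ g a = ρ g a) {l : Loc K Γ} {l' : Q71.TM.Loc K Γ} (hl : Rel l l') {N : ℕ}
    {m : Matrix (Fin N) (Fin N) K} (hm : HasMatrix T (ρ l.g) m) (h : l.Big m) :
    Q71.TM.TypeOn τ T l' := by
  obtain ⟨b, hT, hf⟩ := hm.lin (L := (τ l.g).toLinearMap) fun a => hτ _ a
  rcases hl with ⟨hv, rfl⟩ | ⟨v, w, hv, rfl, hw⟩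
  · obtain ⟨h3, h2, hr⟩ := h.1 hv
    have e3 := (pow_sub_one hf 3).1 h3
    have e2 : (((τ l.g).toLinearMap.restrict hT : Module.End K T) - 1) ^ 2 ≠ 0 := fun h0 =>
      h2 ((pow_sub_one hf 2).2 h0)
    refine ⟨fun x hx => ?_, ?_, ?_⟩
    · have h4 := congrArg Subtype.val (LinearMap.congr_fun e3 ⟨x, hx⟩)
      rw [pow_succ, pow_two] at h4
      exact h4
    · by_contra hcon
      push Not at hcon
      apply e2
      rw [pow_two]
      apply LinearMap.ext
      intro x
      exact Subtype.ext (hcon x x.2)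
    · exact (map_sub_one hT).trans ((rank_sub_one hf).symm.trans hr)
  · obtain ⟨-, hc, h0, h1⟩ := h.2 v hv
    refine ⟨hc, h0, hT, ?_⟩
    have h2 := slopes_eq hf (fun x y hxy => Subtype.ext ((τ l.g).injective
      (congrArg Subtype.val hxy))) hw
    rw [G.K3Slopes, h2, h1, hm.finrank]

theorem smallFor_of {U : Submodule K A} {ρ : Γ → A → A} {τ : Γ →* (A ≃ₐ[K] A)}
    (hτ : ∀ g a, τ g a = ρ g a) {l : Loc K Γ} {l' : Q71.TM.Loc K Γ} (hl : Rel l l')
    (h : IsSmall l U ρ) : Q71.TM.SmallFor τ U l' l.r := by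
  have hρ : (fun g a => τ g a) = ρ := by
    funext g a
    exact hτ g a
  subst hρ
  rcases h with ⟨N, m, hm, h⟩ | ⟨⟨μ, B, h1, h2, h3⟩, h4⟩ | ⟨⟨μ, B, h1, h2, h3⟩, h4⟩
  · left
    obtain ⟨b, hT, hf⟩ := hm.lin (L := (τ l.g).toLinearMap) fun a => rfl
    rcases hl with ⟨hv, rfl⟩ | ⟨v, w, hv, rfl, hw⟩
    · obtain ⟨h2, hr⟩ := h.1 hv
      have e2 := (pow_sub_one hf 2).1 h2
      refine ⟨fun x hx => ?_, ?_⟩
      · have h4 := congrArg Subtype.val (LinearMap.congr_fun e2 ⟨x, hx⟩)
        rw [pow_two] at h4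
        exact h4
      · have h5 : Module.finrank K (U.map (Q71.TM.nil τ l.g)) = (m - 1).rank :=
          (map_sub_one hT).trans (rank_sub_one hf).symm
        rw [h5]
        exact hr
    · have h1 := h.2 v hv
      refine ⟨hT, ?_⟩
      have h2 := slopes_eq hf (fun x y hxy => Subtype.ext ((τ l.g).injective
        (congrArg Subtype.val hxy))) hw
      rw [h2]
      exact h1
  · exact Or.inr (Or.inl ⟨⟨μ, B, h1, h2, h3⟩, h4⟩)
  · exact Or.inr (Or.inr ⟨⟨μ, B, h1, h2, h3⟩, h4⟩)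

end loc

variable {k : Type u} [Field k] {𝒱 : VarClass k} {ops : CycleOps 𝒱}

theorem IsPol.to {W : WeilCohomology.{u, 0} ops} {P : Polarized 𝒱} (h : IsPol W P) :
    IsPolarization W P.X P.D := ⟨h.div, h.hard, h.lefschetz, h.hodge⟩

theorem power_eq (P : Polarized 𝒱) (n : ℕ) : power ops P n = polPow ops P n := by
  induction n with
  | zero => rfl
  | succ n ih =>
    rw [polPow, ← ih, power, Function.iterate_succ_apply']
    rfl

theorem productOfPowers_eq {ι : Type} (P : ι → Polarized 𝒱) (Z : Polarized 𝒱)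
    (L : List (ι × ℕ)) : productOfPowers ops P Z L = tower' ops P Z L := by
  rw [← tower_eq]
  induction L with
  | nil => rfl
  | cons a L ih =>
    rw [tower, ← ih, ← power_eq]
    rfl

section

variable {W : WeilCohomology.{u, 0} ops} {X : 𝒱.Obj}

theorem disc_of {N : ℕ} {q : ℚ} (h : Disc (form X.dim (W.tr X)) (transcendental W X) N q) :
    HasDisc W X N q := by
  obtain ⟨t, ht, c, hc, hdet⟩ := h
  exact P.hasDisc_of ⟨t, ht, c, hc, hdet⟩

theorem iso_of {p : Polynomial ℚ}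
    (h : Isometry (form X.dim (W.tr X)) (transcendental W X) p) :
    (P.coh W X).Isometry (p.map (Rat.castHom W.K)) := by
  obtain ⟨N, t, ht, m, h1, h2⟩ := h
  refine ⟨N, t, ht, m, h1, h2.trans ?_⟩
  congr 1

end

theorem EvenType.exists_disc {Λ : Type x} {V : Λ → WeilCohomology.{u, 0} ops} (l₀ : Λ)
    {X : 𝒱.Obj} (h : EvenType V X) (heven : Even X.dim) :
    ∃ (N : ℕ) (q : ℚ), 0 < q ∧ ∀ l, HasDisc (V l) X N q := by
  obtain ⟨h1, h2, h3⟩ := h
  cases h3 with
  | disc N q hq hN => exact ⟨N, q, hq, fun l => disc_of (hN l)⟩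
  | isometry p hp hiso =>
    exact ⟨_, _, (P.disc_of_iso (h1 l₀) (h2 l₀) heven hp (iso_of (hiso l₀))).1, fun l =>
      (P.disc_of_iso (h1 l) (h2 l) heven hp (iso_of (hiso l))).2⟩

section

variable {W : WeilCohomology.{u, 0} ops} {Γ : Type} [Group Γ] {χ : Γ → W.K}
  {G : ∀ X : 𝒱.Obj, (Γ → W.H X → W.H X) → Prop}

/-- the character -/
def IsClass.chi (h : IsClass W χ G) : Γ →* W.Kˣ :=
  MonoidHom.toHomUnits { toFun := χ, map_one' := h.one, map_mul' := h.mul }

theorem IsClass.chi_apply (h : IsClass W χ G) (g : Γ) : ((h.chi g : W.Kˣ) : W.K) = χ g := rfl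

theorem isGaloisAct_of {χ' : Γ →* W.Kˣ} (hχ : ∀ g, ((χ' g : W.Kˣ) : W.K) = χ g) {X : 𝒱.Obj}
    {ρ : Γ → W.H X → W.H X}
    (h : IsGalois χ (W.gr X) X.dim (W.tr X) (algClasses W X) ρ)
    {τ : Γ →* (W.H X ≃ₐ[W.K] W.H X)} (hτ : ∀ g a, τ g a = ρ g a) :
    GaloisType χ' (⟨X, τ⟩ : GVar W Γ) := by
  have hρ : (fun g a => τ g a) = ρ := by
    funext g a
    exact hτ g a
  subst hρ
  refine ⟨h.gr_mem, fun g a => ?_, fun g j c hc => ?_, fun j c hc => ?_⟩
  · rw [hχ]
    exact h.tr_act g a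
  · rw [hχ]
    exact h.cl_act g j c hc
  · obtain ⟨Δ, hΔ, h1⟩ := h.cl_fix j c hc
    refine ⟨Δ, hΔ, fun g hg => ?_⟩
    rw [hχ]
    exact h1 g hg

theorem IsClass.to (h : IsClass W χ G) :
    GaloisClass h.chi {A : GVar W Γ | G A.X fun g a => A.act g a} where
  galois := by
    intro A hA
    exact isGaloisAct_of h.chi_apply (h.galois _ _ hA) fun _ _ => rfl
  prod := by
    intro A hA B hB
    obtain ⟨υ, h1, h2, h3⟩ := h.prod A.X _ B.X _ hA hB
    obtain ⟨τ, hτ⟩ := (h.galois _ _ h1).action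
    have hυ : (fun g a => τ g a) = υ := by
      funext g a
      exact hτ g a
    subst hυ
    exact ⟨⟨A.X.prod B.X, τ⟩, h1, IsProdVar.mk τ h2 h3⟩

end

/-- **The standard conjecture of Hodge type and the conjecture D for products of powers.** -/
theorem Family.hodge {Λ : Type x} {V : Λ → WeilCohomology.{u, 0} ops}
    (hV : AlmostAllPrimes V) {l₀ : Λ} {Γ : Type} [Group Γ] {χ : Γ → (V l₀).K}
    {G : ∀ X : 𝒱.Obj, (Γ → (V l₀).H X → (V l₀).H X) → Prop} {ι : Type}
    {l : ι → Loc (V l₀).K Γ} {P : ι → Polarized 𝒱}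
    {ρ : ∀ i, Γ → (V l₀).H (P i).X → (V l₀).H (P i).X} {Z : Polarized 𝒱}
    {ζ : Γ → (V l₀).H Z.X → (V l₀).H Z.X} (h : Family (V l₀) χ G l P ρ Z ζ)
    {L : List (ι × ℕ)}
    (hL : AllowedPowers V P (fun i => (l i).r) (TateFor (V l₀) χ Z.X ζ) L) :
    HodgeType (V l₀) (productOfPowers ops P Z L).X (productOfPowers ops P Z L).D ∧
      HomEqNum (V l₀) (productOfPowers ops P Z L).X := by
  have hK := h.closed
  rw [productOfPowers_eq]
  choose τ hτ using fun i => (h.isClass.galois _ _ (h.mem i)).action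
  obtain ⟨ξ, hξ⟩ := (h.isClass.galois _ _ h.mem_base).action
  have hρ : (fun i g a => τ i g a) = ρ := by
    funext i g a
    exact hτ i g a
  subst hρ
  have hζ : (fun g a => ξ g a) = ζ := by
    funext g a
    exact hξ g a
  subst hζ
  choose m hm hbig using fun i => (h.orth i).2.2.2
  choose l' hl' using fun i => exists_rel (hbig i)
  have hrank : ∀ i, transRank (V l₀) (P i).X = (l i).r := fun i => (hm i).finrank
  have hD : ∀ i, HomEqNum (V l₀) (P i).X := fun i => by
    obtain ⟨f, F, _⟩ := exists_Fp (h.pol i).div (h.pol i).hard (h.pol i).lefschetz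
      (h.pol i).hodge
    exact F.hodge.2
  have hO : Q71.TM.OrthFamily h.isClass.chi l' (fun i => ⟨(P i).X, τ i⟩) ⟨Z.X, ξ⟩ := by
    refine ⟨fun i => ?_, ?_, ?_, ?_⟩
    · refine ⟨isGaloisAct_of h.isClass.chi_apply (h.isClass.galois _ _ (h.mem i))
        fun _ _ => rfl, hD i, h.even i, (h.orth i).1, ?_, (h.orth i).2.2.1,
        typeOn_of (fun _ _ => rfl) (hl' i) (hm i) (hbig i)⟩
      change transRank (V l₀) (P i).X = 3 ∨ 5 ≤ transRank (V l₀) (P i).X
      rw [hrank]
      exact (h.orth i).2.1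
    · exact fun i j hij => h.notIso i j hij
    · intro i j hij hi hj
      have hi' : (l i).r = 8 := (hrank i).symm.trans hi
      have hj' : (l j).r = 8 := (hrank j).symm.trans hj
      obtain ⟨h1, h2⟩ := h.eight i j hij hi' hj'
      exact (hl' i).same (hl' j) h1 h2
    · obtain ⟨n, U, h1, h2, h3⟩ := h.small
      refine ⟨n, U, fun a i => ?_, h2, h3⟩
      have h4 := smallFor_of (τ := ξ) (fun _ _ => rfl) (hl' i) (h1 a i)
      change Q71.TM.SmallFor ξ (U a) (l' i) (transRank (V l₀) (P i).X)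
      rw [hrank]
      exact h4
  by_cases hTate : TateFor (V l₀) χ Z.X fun g a => ξ g a
  · have hT : TateConjecture h.isClass.chi (⟨Z.X, ξ⟩ : GVar (V l₀) Γ) := by
      rintro j c hc ⟨Δ, hΔ, h1⟩
      exact hTate j c hc ⟨Δ, hΔ, h1⟩
    obtain ⟨Al, hA⟩ := exists_asys (V := V) hO h.isClass.to (fun i => h.mem i) h.mem_base
      (D := fun i => (P i).D) (fun i => (h.pol i).to) Z.D hT
    refine hA.hodge h.pol_base.to ?_ L hL.1 fun a ha => ?_
    · obtain ⟨S, hS⟩ := hV
      exact fun r hr => nonneg_of_fields (fun l => (V l).K) S (fun p _ hp => hS p hp) r hr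
    · rcases hL.2 a ha with h1 | ⟨h1, -⟩
      · left
        change a.2 + 1 < transRank (V l₀) (P a.1).X
        rw [hrank]
        exact h1
      · exact Or.inr ⟨h1.homEqNum, h1.middle, h1.exists_disc l₀ (h.even a.1)⟩
  · have hst := Q71.TS.tsteps hO h.isClass.to (fun i => h.mem i) h.mem_base
      (D := fun i => (P i).D) (fun i => (h.pol i).to) Z.D L hL.1 fun a ha => by
        rcases hL.2 a ha with h1 | ⟨-, h1⟩
        · change a.2 + 1 < transRank (V l₀) (P a.1).X
          rw [hrank]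
          exact h1
        · exact absurd h1 hTate
    obtain ⟨g, F⟩ := Q71.TS.fp_tower hst h.pol_base.to
    exact F.hodge

end Pool.Agent.V5helper86.AP.O
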