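import Pool.Agent.V5helper86.AP.Fam

/-!
# The determinant class of the transcendental cohomology
-/

open CategoryTheory AlgebraicGeometry Finset Function

set_option linter.unusedSectionVars false

universe u v w x

namespace Pool.Agent.V5helper86.AP

open Pool.Agent.H914 Pool.Agent.H914.VarClass Pool.Agent.H914.VarClass.Obj
  Pool.Agent.H914.WeilCohomology Pool.Agent.H281R3.HT Pool.Agent.W552 Pool.Agent.H447
  Pool.Agent.TH125.Gal Pool.Agent.Y127

section lin

variable {K : Type*} [Field K] {T : Type*} [AddCommGroup T] [Module K T]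

/-- change of the basis in a Gram matrix -/
theorem gram_change {ι : Type} [Fintype ι] [DecidableEq ι] (B : T →ₗ[K] T →ₗ[K] K)
    (β β' : Module.Basis ι K T) : ∃ c : K, c ≠ 0 ∧
      (Matrix.of fun i j => B (β i) (β j)).det =
        (Matrix.of fun i j => B (β' i) (β' j)).det * c ^ 2 := by
  set Q := β'.toMatrix β with hQ
  have h1 : Q * β.toMatrix β' = 1 := β'.toMatrix_mul_toMatrix_flip β
  have hdet : Q.det ≠ 0 := by
    intro h
    have h2 := congrArg Matrix.det h1
    rw [Matrix.det_mul, h, zero_mul, Matrix.det_one] at h2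
    exact zero_ne_one h2
  refine ⟨Q.det, hdet, ?_⟩
  have h3 : (Matrix.of fun i j => B (β i) (β j)) =
      Q.transpose * (Matrix.of fun i j => B (β' i) (β' j)) * Q := by
    ext i j
    rw [Matrix.of_apply, Matrix.mul_apply]
    have e1 : ∀ i, β i = ∑ k, Q k i • β' k := fun i => (β'.sum_toMatrix_smul_self β i).symm
    conv_lhs => rw [e1 i, e1 j]
    rw [map_sum]
    refine Finset.sum_congr rfl fun k _ => ?_
    rw [map_smul, map_sum, LinearMap.sum_apply, Matrix.mul_apply, smul_eq_mul, mul_comm]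
    congr 1
    refine Finset.sum_congr rfl fun k' _ => ?_
    rw [map_smul, LinearMap.smul_apply, smul_eq_mul, Matrix.transpose_apply, Matrix.of_apply]
  rw [h3, Matrix.det_mul, Matrix.det_mul, Matrix.det_transpose]
  ring

end lin

variable {k : Type u} [Field k] {𝒱 : VarClass k} {ops : CycleOps 𝒱}
  {W : WeilCohomology.{u, v} ops} {P : Polarized 𝒱}

/-- The intersection form on the transcendental cohomology of `X`, multiplied by the sign
`(-1) ^ (dim X / 2)`, has rank `N` and, up to squares, discriminant `q`. -/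
def HasDisc (W : WeilCohomology.{u, v} ops) (X : 𝒱.Obj) (N : ℕ) (q : ℚ) : Prop :=
  ∃ (t : Module.Basis (Fin N) W.K (transcendental W X)) (c : W.K), c ≠ 0 ∧
    (Matrix.of fun i j : Fin N =>
      (-1 : W.K) ^ (X.dim / 2) * W.tr X ((t i : W.H X) * (t j : W.H X))).det = (q : W.K) * c ^ 2

section

variable {s : SB W P.X} {m : ℕ} (σ : Fin (m + 1) ≃ Fin s.NT)

theorem HasDisc.bT {N : ℕ} {q : ℚ} {X : 𝒱.Obj} (h : HasDisc W X N q) (s : SB W X)
    (τ : Fin N ≃ Fin s.NT) : ∃ c : W.K, c ≠ 0 ∧
      (Matrix.of fun i j : Fin N => (-1 : W.K) ^ (X.dim / 2) *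
        bil W X (s.bT (τ i)) (s.bT (τ j))).det = (q : W.K) * c ^ 2 := by
  obtain ⟨t, c, hc, hdet⟩ := h
  obtain ⟨c', hc', h1⟩ := gram_change ((-1 : W.K) ^ (X.dim / 2) • rform W X (transcendental W X))
    (s.bT.reindex τ.symm) t
  refine ⟨c * c', mul_ne_zero hc hc', ?_⟩
  have e1 : (Matrix.of fun i j : Fin N => (-1 : W.K) ^ (X.dim / 2) *
        bil W X (s.bT (τ i)) (s.bT (τ j))) = Matrix.of fun i j : Fin N =>
        ((-1 : W.K) ^ (X.dim / 2) • rform W X (transcendental W X)) (s.bT.reindex τ.symm i)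
          (s.bT.reindex τ.symm j) := by
    ext i j
    rw [Matrix.of_apply, Matrix.of_apply, Module.Basis.reindex_apply,
      Module.Basis.reindex_apply]
    rfl
  have e2 : (Matrix.of fun i j : Fin N =>
        ((-1 : W.K) ^ (X.dim / 2) • rform W X (transcendental W X)) (t i) (t j)) =
      Matrix.of fun i j : Fin N =>
      (-1 : W.K) ^ (X.dim / 2) * W.tr X ((t i : W.H X) * (t j : W.H X)) := rfl
  rw [e1, h1, e2, hdet]
  ring

/-- the determinant class, not normalized -/
noncomputable def v0 (s : SB W P.X) {m : ℕ} (σ : Fin (m + 1) ≃ Fin s.NT) :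
    W.H (nest ops m fun _ => P).X :=
  ∑ τ : Equiv.Perm (Fin (m + 1)), ((Equiv.Perm.sign τ : ℤ) : W.K) •
    mono (prj ops m fun _ => P) fun p => (s.bT (σ (τ p)) : W.H P.X)

theorem v0_coord
    {b' : Module.Basis (Fin (m + 1) → Fin s.NC ⊕ Fin s.NT) W.K (W.H (nest ops m fun _ => P).X)}
    (hb' : ∀ r, b' r = mono (prj ops m fun _ => P) fun p => s.e (r p))
    (r : Fin (m + 1) → Fin s.NC ⊕ Fin s.NT) : b'.coord r (v0 s σ) = eps W.K σ r := by
  rw [v0, map_sum, eps, ← Matrix.det_transpose, Matrix.det_apply']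
  refine Finset.sum_congr rfl fun τ _ => ?_
  have h1 : (mono (prj ops m fun _ => P) fun p => (s.bT (σ (τ p)) : W.H P.X)) =
      b' fun p => Sum.inr (σ (τ p)) := by
    rw [hb']
    congr 1
    funext p
    rw [s.e_inr]
  rw [map_smul, smul_eq_mul, h1, Module.Basis.coord_apply, Module.Basis.repr_self]
  congr 1
  by_cases h : (fun p => (Sum.inr (σ (τ p)) : Fin s.NC ⊕ Fin s.NT)) = r
  · rw [h, Finsupp.single_eq_same]
    symm
    refine Finset.prod_eq_one fun p _ => ?_
    rw [Matrix.transpose_apply, Matrix.of_apply, ← h, if_pos rfl]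
  · rw [Finsupp.single_eq_of_ne (Ne.symm h)]
    obtain ⟨p, hp⟩ := Function.ne_iff.1 h
    symm
    refine Finset.prod_eq_zero (Finset.mem_univ p) ?_
    rw [Matrix.transpose_apply, Matrix.of_apply, if_neg (fun h' => hp h'.symm)]

/-- the form of the determinant class -/
theorem v0_bN {f : Module.End W.K (W.H P.X)} (F : Fr W P.X P.D f) :
    bN ops f m (v0 s σ) (v0 s σ) = ((m + 1).factorial : W.K) *
      (Matrix.of fun p i : Fin (m + 1) =>
        bf W P.X P.D f (s.bT (σ p)) (s.bT (σ i))).det := by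
  set M : Matrix (Fin (m + 1)) (Fin (m + 1)) W.K := Matrix.of fun p i =>
    bf W P.X P.D f (s.bT (σ p)) (s.bT (σ i)) with hM
  have h1 : ∀ τ : Equiv.Perm (Fin (m + 1)), bN ops f m
      (mono (prj ops m fun _ => P) fun p => (s.bT (σ (τ p)) : W.H P.X)) (v0 s σ) =
      ((Equiv.Perm.sign τ : ℤ) : W.K) * M.det := by
    intro τ
    rw [v0, map_sum]
    have h2 := Matrix.det_permute τ M
    rw [← Matrix.det_transpose (M.submatrix τ id), Matrix.det_apply'] at h2
    rw [← h2]
    refine Finset.sum_congr rfl fun τ' _ => ?_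
    rw [map_smul, smul_eq_mul, bf_mono F]
    rfl
  conv_lhs =>
    arg 1
    rw [v0, map_sum]
  rw [LinearMap.sum_apply]
  have h3 : ∀ τ : Equiv.Perm (Fin (m + 1)), (bN ops f m (((Equiv.Perm.sign τ : ℤ) : W.K) •
      mono (prj ops m fun _ => P) fun p => (s.bT (σ (τ p)) : W.H P.X))) (v0 s σ) = M.det := by
    intro τ
    rw [map_smul, LinearMap.smul_apply, smul_eq_mul, h1, ← mul_assoc]
    rcases Int.units_eq_one_or (Equiv.Perm.sign τ) with h | h <;> rw [h] <;> norm_num
  rw [Finset.sum_congr rfl fun τ _ => h3 τ, Finset.sum_const, Finset.card_univ,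
    Fintype.card_perm, Fintype.card_fin, nsmul_eq_mul]

variable (hDX : HomEqNum W P.X) (hmid : transcendental W P.X ≤ W.gr P.X P.X.dim)
  (heven : Even P.X.dim)

section ident

variable {Y : 𝒱.Obj}

include hDX hmid heven in
/-- pull-backs of classes as elements of the center -/
theorem cen_mem (g : Y ⟶ P.X) (x : W.H P.X) :
    W.map g x ∈ Subalgebra.center W.K (W.H Y) := by
  rw [Subalgebra.mem_center_iff]
  intro y
  exact (cenX hDX hmid heven g x y).symm

/-- the determinant of a matrix of central elements -/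
theorem det_val {N : ℕ} (M : Matrix (Fin N) (Fin N) (Subalgebra.center W.K (W.H Y))) :
    (M.det : W.H Y) = ∑ τ : Equiv.Perm (Fin N), ((Equiv.Perm.sign τ : ℤ) : W.K) •
      (List.ofFn fun p => (M p (τ p) : W.H Y)).prod := by
  rw [← Matrix.det_transpose, Matrix.det_apply', ← Subalgebra.coe_val, map_sum]
  refine Finset.sum_congr rfl fun τ _ => ?_
  have h1 : (∏ i, M.transpose (τ i) i) = (List.ofFn fun p => M p (τ p)).prod := by
    rw [List.prod_ofFn]
    rfl
  rw [h1, map_mul, map_intCast, Algebra.smul_def, map_intCast, map_list_prod, List.map_ofFn]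
  rfl

end ident

/-- the determinant of the transcendental parts of the diagonals -/
noncomputable def Theta (s : SB W P.X) (m : ℕ) :
    W.H ((nest ops m fun _ => P).X.prod (nest ops m fun _ => P).X) :=
  ∑ τ : Equiv.Perm (Fin (m + 1)), ((Equiv.Perm.sign τ : ℤ) : W.K) •
    (List.ofFn fun p => W.map (Obj.lift
      (fst (nest ops m fun _ => P).X (nest ops m fun _ => P).X ≫ prj ops m (fun _ => P) p)
      (snd (nest ops m fun _ => P).X (nest ops m fun _ => P).X ≫ prj ops m (fun _ => P) (τ p)))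
        (dT s)).prod

include hDX hmid heven in
theorem map_v0 {Y : 𝒱.Obj} (g : Y ⟶ (nest ops m fun _ => P).X) :
    W.map g (v0 s σ) = ((Matrix.of fun p i : Fin (m + 1) =>
      (⟨W.map (g ≫ prj ops m (fun _ => P) p) (s.bT (σ i)),
        cen_mem hDX hmid heven _ _⟩ : Subalgebra.center W.K (W.H Y))).det : W.H Y) := by
  rw [det_val, v0, map_sum]
  refine Finset.sum_congr rfl fun τ _ => ?_
  rw [map_smul, map_mono]
  rfl

include hDX hmid heven in
/-- **The determinant identity.** -/
theorem theta_eq : Theta s m = (gram s).det •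
    (W.map (fst (nest ops m fun _ => P).X (nest ops m fun _ => P).X) (v0 s σ) *
      W.map (snd (nest ops m fun _ => P).X (nest ops m fun _ => P).X) (v0 s σ)) := by
  set Y := (nest ops m fun _ => P).X.prod (nest ops m fun _ => P).X with hY
  set a : Fin (m + 1) → (Y ⟶ P.X) := fun p =>
    fst (nest ops m fun _ => P).X (nest ops m fun _ => P).X ≫ prj ops m (fun _ => P) p with ha
  set c : Fin (m + 1) → (Y ⟶ P.X) := fun p =>
    snd (nest ops m fun _ => P).X (nest ops m fun _ => P).X ≫ prj ops m (fun _ => P) p with hc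
  set A : Matrix (Fin (m + 1)) (Fin (m + 1)) (Subalgebra.center W.K (W.H Y)) :=
    Matrix.of fun p i => ⟨W.map (a p) (s.bT (σ i)), cen_mem hDX hmid heven _ _⟩ with hA
  set C : Matrix (Fin (m + 1)) (Fin (m + 1)) (Subalgebra.center W.K (W.H Y)) :=
    Matrix.of fun p i => ⟨W.map (c p) (s.bT (σ i)), cen_mem hDX hmid heven _ _⟩ with hC
  set U : Matrix (Fin (m + 1)) (Fin (m + 1)) (Subalgebra.center W.K (W.H Y)) :=
    Matrix.of fun p i => ⟨W.map (c p) (s.uT (σ i)), cen_mem hDX hmid heven _ _⟩ with hU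
  set Gm : Matrix (Fin (m + 1)) (Fin (m + 1)) W.K :=
    Matrix.of fun p i => gram s (σ p) (σ i) with hGm
  have hUC : U = C * (Gm.map (algebraMap W.K (Subalgebra.center W.K (W.H Y)))) := by
    ext p i
    rw [Matrix.mul_apply]
    rw [← Subalgebra.coe_val, map_sum]
    have h1 : (s.uT (σ i) : W.H P.X) = ∑ j, gram s (σ j) (σ i) • (s.bT (σ j) : W.H P.X) := by
      have h2 := s.expand_T (s.uT (σ i)).2
      rw [← Equiv.sum_comp σ] at h2
      exact h2
    change W.map (c p) (s.uT (σ i) : W.H P.X) = _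
    conv_lhs => rw [h1]
    rw [map_sum]
    refine Finset.sum_congr rfl fun j _ => ?_
    rw [map_smul, map_mul, Matrix.map_apply, AlgHom.commutes, ← Algebra.commutes,
      ← Algebra.smul_def]
    rfl
  have hAU : Theta s m = ((A * U.transpose).det : W.H Y) := by
    rw [det_val, Theta]
    refine Finset.sum_congr rfl fun τ _ => ?_
    congr 3
    funext p
    rw [Matrix.mul_apply, ← Subalgebra.coe_val, map_sum, dT, map_sum, ← Equiv.sum_comp σ]
    refine Finset.sum_congr rfl fun i _ => ?_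
    rw [map_mul, ← W.map_comp, ← W.map_comp, Obj.lift_fst, Obj.lift_snd, map_mul]
    rfl
  have hdetG : Gm.det = (gram s).det := by
    have h1 : Gm = (gram s).submatrix σ σ := rfl
    rw [h1, Matrix.det_submatrix_equiv_self]
  rw [hAU, Matrix.det_mul, Matrix.det_transpose, hUC, Matrix.det_mul, map_v0 σ hDX hmid heven,
    map_v0 σ hDX hmid heven, ← RingHom.mapMatrix_apply, ← RingHom.map_det, hdetG,
    ← Algebra.commutes, ← Algebra.smul_def, mul_smul_comm]
  rfl

include hmid heven in
/-- the Gram matrices of dual bases -/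
theorem gram_mul_bT : (gram s) * (Matrix.of fun i j => bil W P.X (s.bT i) (s.bT j)) = 1 := by
  ext i j
  rw [Matrix.mul_apply, Matrix.one_apply]
  have h1 := s.uT_bT i j
  have h2 : (s.uT i : W.H P.X) = ∑ k, bil W P.X (s.uT k) (s.uT i) • (s.bT k : W.H P.X) :=
    s.expand_T (s.uT i).2
  rw [h2, map_sum, LinearMap.sum_apply] at h1
  have h3 : (if i = j then (1 : W.K) else 0) = if j = i then 1 else 0 := by
    by_cases h : i = j
    · rw [if_pos h, if_pos h.symm]
    · rw [if_neg h, if_neg (Ne.symm h)]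
  rw [h3, ← h1]
  refine Finset.sum_congr rfl fun k _ => ?_
  rw [map_smul, LinearMap.smul_apply, smul_eq_mul, gram_symm hmid heven i k]
  rfl

include hDX hmid heven in
/-- **The normalized determinant class.** -/
theorem exists_det {q : ℚ} (hq : HasDisc W P.X (m + 1) q) : ∃ κ : W.K,
      W.map (fst (nest ops m fun _ => P).X (nest ops m fun _ => P).X) (κ • v0 s σ) *
        W.map (snd (nest ops m fun _ => P).X (nest ops m fun _ => P).X) (κ • v0 s σ) =
          (q : W.K) • (((((-1) ^ (P.X.dim / 2)) ^ (m + 1) : ℚ)) : W.K) • Theta s m ∧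
      ∀ f, Fp W P.X P.D f →
        bN ops f m (κ • v0 s σ) (κ • v0 s σ) = (((m + 1).factorial * q : ℚ) : W.K) := by
  obtain ⟨c, hc, hdet⟩ := hq.bT s σ
  set G0 : Matrix (Fin (m + 1)) (Fin (m + 1)) W.K := Matrix.of fun i j =>
    bil W P.X (s.bT (σ i)) (s.bT (σ j)) with hG0
  set e : W.K := (-1) ^ (P.X.dim / 2) with he
  have hee : e * e = 1 := by rw [he, ← mul_pow]; norm_num
  have h1 : e ^ (m + 1) * G0.det = (q : W.K) * c ^ 2 := by
    rw [← hdet]
    have h2 : (Matrix.of fun i j : Fin (m + 1) => e * bil W P.X (s.bT (σ i)) (s.bT (σ j))) =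
        e • G0 := by
      ext i j
      rfl
    rw [h2, Matrix.det_smul, Fintype.card_fin]
  have h2 : (gram s).det * G0.det = 1 := by
    have h3 := congrArg Matrix.det (gram_mul_bT (s := s) hmid heven)
    rw [Matrix.det_mul, Matrix.det_one] at h3
    rw [← h3]
    congr 1
    have h4 : G0 = (Matrix.of fun i j => bil W P.X (s.bT i) (s.bT j)).submatrix σ σ := rfl
    rw [h4, Matrix.det_submatrix_equiv_self]
  have h5 : e ^ (m + 1) * e ^ (m + 1) = 1 := by rw [← mul_pow, hee, one_pow]
  refine ⟨c⁻¹, ?_, ?_⟩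
  · rw [map_smul, map_smul, smul_mul_smul_comm, theta_eq σ hDX hmid heven, smul_smul, smul_smul]
    congr 1
    have h6 : c⁻¹ * c⁻¹ * (c ^ 2) = 1 := by field_simp
    have h7 : ((((((-1) ^ (P.X.dim / 2)) ^ (m + 1) : ℚ)) : W.K)) = e ^ (m + 1) := by
      rw [he]
      push_cast
      rfl
    rw [h7]
    have h8 : (q : W.K) * e ^ (m + 1) * (gram s).det * c ^ 2 = 1 := by
      calc (q : W.K) * e ^ (m + 1) * (gram s).det * c ^ 2
          = ((q : W.K) * c ^ 2) * e ^ (m + 1) * (gram s).det := by ring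
        _ = (e ^ (m + 1) * G0.det) * e ^ (m + 1) * (gram s).det := by rw [h1]
        _ = (e ^ (m + 1) * e ^ (m + 1)) * ((gram s).det * G0.det) := by ring
        _ = 1 := by rw [h5, h2, mul_one]
    have hc2 : c ^ 2 ≠ 0 := pow_ne_zero _ hc
    refine mul_right_cancel₀ hc2 ?_
    rw [h6, ← h8]
  · intro f F
    rw [map_smul, map_smul, LinearMap.smul_apply, v0_bN σ F.fr, smul_eq_mul, smul_eq_mul]
    have h6 : (Matrix.of fun p i : Fin (m + 1) =>
        bf W P.X P.D f (s.bT (σ p)) (s.bT (σ i))) = e • G0 := by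
      ext p i
      rw [Matrix.of_apply, bf_trans hmid F _ (s.bT (σ i)).2, Matrix.smul_apply, hG0,
        Matrix.of_apply, smul_eq_mul]
      congr 1
      obtain ⟨j, hj⟩ := heven
      rw [he, hj, ← two_mul, sg_two_mul, Nat.mul_div_cancel_left j two_pos]
      push_cast
      rfl
    rw [h6, Matrix.det_smul, Fintype.card_fin, h1]
    push_cast
    field_simp

end

end Pool.Agent.V5helper86.AP
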