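import Pool.Agent.V5helper86.AP.Cn

/-!
# Positivity for twisted classes: expansions, products and varieties with algebraic cohomology
-/

open CategoryTheory AlgebraicGeometry Finset

set_option linter.unusedSectionVars false

universe u v w

namespace Pool.Agent.V5helper86.AP

open Pool.Agent.H914 Pool.Agent.H914.VarClass Pool.Agent.H914.VarClass.Obj
  Pool.Agent.H914.WeilCohomology Pool.Agent.H281R3.HT Pool.Agent.W552 Pool.Agent.H447
  Pool.Agent.TH125.Gal

variable {k : Type u} [Field k] {𝒱 : VarClass k} {ops : CycleOps 𝒱}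
  {W : WeilCohomology.{u, v} ops} {A Z Ω : 𝒱.Obj}

/-- The form on the twisted classes is `d` times a positive definite rational form. -/
def Tw (W : WeilCohomology.{u, v} ops) (Ω : 𝒱.Obj) (ω : W.H Ω) (d : ℚ) (Z : 𝒱.Obj)
    (E : Z.Cycles) (g : Module.End W.K (W.H Z)) : Prop :=
  ∀ z, TS W Ω ω Z z → ∃ q : ℚ, 0 ≤ q ∧ (z ≠ 0 → 0 < q) ∧ bf W Z E g z z = (d : W.K) * q

section

variable {D : A.Cycles} {f : Module.End W.K (W.H A)} {V : Submodule W.K (W.H A)} {N : ℕ}
  {e : Fin N → W.H A} {w : Fin N → ℚ}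

/-- Expansion in an orthogonal basis. -/
theorem vspan_expand (F : Fr W A D f) (he : ∀ k, W552.AS W A (e k))
    (hexp : ∀ x ∈ V, x = ∑ k, ((w k : W.K)⁻¹ * bf W A D f x (e k)) • e k)
    {c : W.H (A.prod Z)} (hc : c ∈ VSpan V Z) :
    c = ∑ k, (w k : W.K)⁻¹ • H281R3.HT.ext W (e k) (cn (st W A D f (e k)) c) := by
  induction hc using Submodule.span_induction with
  | mem c hc =>
    obtain ⟨a, ha, b, rfl⟩ := hc
    have h1 : W.map (fst A Z) a = ∑ k, ((w k : W.K)⁻¹ * bf W A D f a (e k)) •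
        W.map (fst A Z) (e k) := by
      conv_lhs => rw [hexp a ha]
      rw [map_sum]
      simp only [map_smul]
    conv_lhs => rw [h1, Finset.sum_mul]
    refine Finset.sum_congr rfl fun k _ => ?_
    rw [cn_ext, (F.st_AS (he k)).comm, ← bf_apply, H281R3.HT.ext, map_smul, mul_smul_comm,
      smul_mul_assoc, smul_smul]
  | zero => simp [cn, H281R3.HT.ext]
  | add x y _ _ hx hy =>
    conv_lhs => rw [hx, hy]
    rw [← Finset.sum_add_distrib]
    refine Finset.sum_congr rfl fun k _ => ?_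
    rw [cn_add, H281R3.HT.ext, H281R3.HT.ext, H281R3.HT.ext, map_add, mul_add, smul_add]
  | smul q x _ hx =>
    conv_lhs => rw [hx]
    rw [Finset.smul_sum]
    refine Finset.sum_congr rfl fun k _ => ?_
    rw [cn_smul, H281R3.HT.ext, H281R3.HT.ext, map_smul, mul_smul_comm, smul_comm]

/-- the form of an expansion -/
theorem bf_expand (F : Fr W A D f) {E : Z.Cycles} {g : Module.End W.K (W.H Z)}
    (G : Fr W Z E g) (hw : ∀ k, 0 < w k)
    (horth : ∀ k l, bf W A D f (e k) (e l) = if k = l then (w k : W.K) else 0)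
    {c : W.H (A.prod Z)} {z : Fin N → W.H Z}
    (hc : c = ∑ k, (w k : W.K)⁻¹ • H281R3.HT.ext W (e k) (z k)) :
    bf W (A.prod Z) (ops.pull (fst A Z) D + ops.pull (snd A Z) E) (extSum W f g) c c =
      ∑ k, (w k : W.K)⁻¹ * bf W Z E g (z k) (z k) := by
  have hw' : ∀ k, (w k : W.K) ≠ 0 := fun k => by exact_mod_cast (hw k).ne'
  rw [hc, map_sum (bf W (A.prod Z) _ _), LinearMap.sum_apply]
  refine Finset.sum_congr rfl fun k _ => ?_
  rw [map_sum, Finset.sum_eq_single k]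
  · rw [map_smul, map_smul, LinearMap.smul_apply, F.bf_ext G, horth, if_pos rfl,
      smul_eq_mul, smul_eq_mul]
    rw [← mul_assoc, ← mul_assoc, inv_mul_cancel_right₀ (hw' k)]
  · intro l _ hl
    rw [map_smul, map_smul, LinearMap.smul_apply, F.bf_ext G, horth,
      if_neg (Ne.symm hl), zero_mul, smul_zero, smul_zero]
  · intro h
    exact absurd (Finset.mem_univ _) h

/-- positivity of a sum with twisted classes -/
theorem sum_pos_of {Z : 𝒱.Obj} {E : Z.Cycles} {g : Module.End W.K (W.H Z)} {d : ℚ}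
    (hw : ∀ k, 0 < w k) {z : Fin N → W.H Z}
    (hz : ∀ k, ∃ q : ℚ, 0 ≤ q ∧ (z k ≠ 0 → 0 < q) ∧ bf W Z E g (z k) (z k) = (d : W.K) * q) :
    ∃ q : ℚ, 0 ≤ q ∧ ((∃ k, z k ≠ 0) → 0 < q) ∧
      ∑ k, (w k : W.K)⁻¹ * bf W Z E g (z k) (z k) = (d : W.K) * q := by
  choose q hq0 hq1 hq2 using hz
  refine ⟨∑ k, (w k)⁻¹ * q k, ?_, ?_, ?_⟩
  · exact Finset.sum_nonneg fun k _ => mul_nonneg (inv_nonneg.2 (hw k).le) (hq0 k)
  · rintro ⟨k, hk⟩
    exact Finset.sum_pos' (fun b _ => mul_nonneg (inv_nonneg.2 (hw b).le) (hq0 b))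
      ⟨k, Finset.mem_univ _, mul_pos (inv_pos.2 (hw k)) (hq1 k hk)⟩
  · rw [Rat.cast_sum, Finset.mul_sum]
    refine Finset.sum_congr rfl fun k _ => ?_
    rw [hq2]
    push_cast
    ring

/-- **The step, if all classes are in the span.** -/
theorem tw_step (F : Fr W A D f) {E : Z.Cycles} {g : Module.End W.K (W.H Z)}
    (G : Fr W Z E g) (he : ∀ k, W552.AS W A (e k)) (hw : ∀ k, 0 < w k)
    (horth : ∀ k l, bf W A D f (e k) (e l) = if k = l then (w k : W.K) else 0)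
    (hexp : ∀ x ∈ V, x = ∑ k, ((w k : W.K)⁻¹ * bf W A D f x (e k)) • e k) {ω : W.H Ω} {d : ℚ}
    (hspan : ∀ u, W552.AS W (A.prod (Z.prod Ω)) u → u ∈ VSpan V (Z.prod Ω))
    (hT : Tw W Ω ω d Z E g) :
    Tw W Ω ω d (A.prod Z) (ops.pull (fst A Z) D + ops.pull (snd A Z) E) (extSum W f g) := by
  intro c hc
  have hcV : c ∈ VSpan V Z := by
    obtain ⟨u, hu, rfl⟩ := hc
    exact cnr_VSpan (hspan _ (hu.map (asc A Z Ω)))
  have h1 := vspan_expand F he hexp hcV
  obtain ⟨q, hq0, hq1, hq2⟩ := sum_pos_of (W := W) (E := E) (g := g) (d := d) hw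
    (z := fun k => cn (st W A D f (e k)) c) fun k => hT _ (hc.cn (F.st_AS (he k)))
  refine ⟨q, hq0, fun hc0 => hq1 ?_, ?_⟩
  · by_contra hcon
    push Not at hcon
    apply hc0
    rw [h1]
    refine Finset.sum_eq_zero fun k _ => ?_
    rw [hcon k, H281R3.HT.ext, map_zero, mul_zero, smul_zero]
  · rw [← hq2]
    exact bf_expand F G hw horth h1

/-- **The base: varieties on which the twisted classes are algebraic.** -/
theorem tw_base {E : Z.Cycles} {g : Module.End W.K (W.H Z)} (G : Fp W Z E g) {ω : W.H Ω}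
    (hZ : ∀ z, TS W Ω ω Z z → z ∈ algSpan W Z) {d : ℚ}
    (hω : ∀ u, W552.AS W Ω u → ∃ x : ℚ, 0 ≤ x ∧ W.tr Ω (u * ω) ^ 2 = (d : W.K) * x) :
    Tw W Ω ω d Z E g := by
  rintro _ ⟨u, hu, rfl⟩
  obtain ⟨N, e, w, he, hw, horth, hexp⟩ := G.exists_onb
  have hst := fun k => G.fr.st_AS (he k)
  set z := cnr (Z := Z) ω u with hz
  have h1 : ∀ k, bf W Z E g z (e k) =
      W.tr Ω (W.push (snd Z Ω) (u * W.map (fst Z Ω) (st W Z E g (e k))) * ω) := by
    intro k
    rw [bf_apply, hz, cnr_apply, W.tr_push, W.tr_push, mul_assoc, mul_assoc,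
      ((hst k).map (fst Z Ω)).comm]
  have h2 : ∀ k, ∃ x : ℚ, 0 ≤ x ∧ bf W Z E g z (e k) ^ 2 = (d : W.K) * x := by
    intro k
    rw [h1]
    exact hω _ ((hu.mul ((hst k).map _)).push _)
  choose x hx0 hx using h2
  have hexz : z = ∑ k, ((w k : W.K)⁻¹ * bf W Z E g z (e k)) • e k :=
    hexp z (hZ z ⟨u, hu, rfl⟩)
  have hw' : ∀ k, (w k : W.K) ≠ 0 := fun k => by exact_mod_cast (hw k).ne'
  refine ⟨∑ k, (w k)⁻¹ * x k, ?_, ?_, ?_⟩
  · exact Finset.sum_nonneg fun k _ => mul_nonneg (inv_nonneg.2 (hw k).le) (hx0 k)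
  · intro hz0
    obtain ⟨k, hk⟩ : ∃ k, bf W Z E g z (e k) ≠ 0 := by
      by_contra hcon
      push Not at hcon
      apply hz0
      rw [hexz]
      refine Finset.sum_eq_zero fun k _ => ?_
      rw [hcon k, mul_zero, zero_smul]
    have hk0 : x k ≠ 0 := by
      intro h
      have h3 := hx k
      rw [h, Rat.cast_zero, mul_zero] at h3
      exact hk (pow_eq_zero_iff (two_ne_zero) |>.1 h3)
    exact Finset.sum_pos' (fun b _ => mul_nonneg (inv_nonneg.2 (hw b).le) (hx0 b))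
      ⟨k, Finset.mem_univ _, mul_pos (inv_pos.2 (hw k)) (lt_of_le_of_ne (hx0 k) (Ne.symm hk0))⟩
  · have h3 : bf W Z E g z z = ∑ k, (w k : W.K)⁻¹ * bf W Z E g z (e k) ^ 2 := by
      conv_lhs =>
        arg 2
        rw [hexz]
      rw [map_sum]
      refine Finset.sum_congr rfl fun k _ => ?_
      rw [map_smul, smul_eq_mul]
      ring
    rw [h3, Rat.cast_sum, Finset.mul_sum]
    refine Finset.sum_congr rfl fun k _ => ?_
    rw [hx]
    push_cast
    ring

end

end Pool.Agent.V5helper86.AP
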