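import Pool.Agent.V5helper86.AP.Step

/-!
# Families of classes of cycles in several cohomology theories
-/

open CategoryTheory AlgebraicGeometry Finset Function

set_option linter.unusedSectionVars false

universe u v w x

namespace Pool.Agent.V5helper86.AP

open Pool.Agent.H914 Pool.Agent.H914.VarClass Pool.Agent.H914.VarClass.Obj
  Pool.Agent.H914.WeilCohomology Pool.Agent.H281R3.HT Pool.Agent.W552 Pool.Agent.H447
  Pool.Agent.TH125.Gal Pool.Agent.Y127

variable {k : Type u} [Field k] {𝒱 : VarClass k} {ops : CycleOps 𝒱} {Λ : Type x}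
  {V : Λ → WeilCohomology.{u, v} ops} {X Y : 𝒱.Obj}

/-- families of classes of sums of cycles -/
def AF (V : Λ → WeilCohomology.{u, v} ops) (X : 𝒱.Obj) (x : ∀ l, (V l).H X) : Prop :=
  x ∈ AddSubmonoid.closure {y | ∃ j z, X.IsCyc j z ∧ ∀ l, y l = (V l).cl X z}

namespace AF

theorem of {j : ℕ} {z : X.Cycles} (hz : X.IsCyc j z) : AF V X fun l => (V l).cl X z :=
  AddSubmonoid.subset_closure ⟨j, z, hz, fun _ => rfl⟩

theorem zero : AF V X fun _ => 0 := AddSubmonoid.zero_mem _

theorem add {y z : ∀ l, (V l).H X} (hy : AF V X y) (hz : AF V X z) :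
    AF V X fun l => y l + z l := AddSubmonoid.add_mem _ hy hz

theorem ind {p : (∀ l, (V l).H X) → Prop}
    (h1 : ∀ j z, X.IsCyc j z → p fun l => (V l).cl X z)
    (h2 : ∀ y z, p y → p z → p fun l => y l + z l) {y : ∀ l, (V l).H X} (hy : AF V X y) :
    p y := by
  induction hy using AddSubmonoid.closure_induction with
  | mem y hy =>
    obtain ⟨j, z, hz, h⟩ := hy
    have h3 : y = fun l => (V l).cl X z := funext h
    rw [h3]
    exact h1 j z hz
  | zero =>
    have h3 : (0 : ∀ l, (V l).H X) = fun l => (V l).cl X (0 : X.Cycles) := by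
      funext l
      rw [map_zero]
      rfl
    rw [h3]
    exact h1 0 0 (SmVar.IsCyc.zero _ _)
  | add y z _ _ hy hz => exact h2 y z hy hz

theorem smul (q : ℚ) {y : ∀ l, (V l).H X} (hy : AF V X y) :
    AF V X fun l => (q : (V l).K) • y l := by
  refine ind (p := fun y => AF V X fun l => (q : (V l).K) • y l) ?_ ?_ hy
  · intro j z hz
    have h := of (V := V) (hz.smul q)
    have h1 : (fun l => (V l).cl X (q • z)) = fun l => (q : (V l).K) • (V l).cl X z := by
      funext l
      exact (V l).cl_smul q z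
    rwa [h1] at h
  · intro y z hy hz
    have h := hy.add hz
    have h1 : (fun l => (q : (V l).K) • (y l + z l)) =
        fun l => (q : (V l).K) • y l + (q : (V l).K) • z l := by
      funext l
      rw [smul_add]
    rw [h1]
    exact h

theorem sub {y z : ∀ l, (V l).H X} (hy : AF V X y) (hz : AF V X z) :
    AF V X fun l => y l - z l := by
  have h := hy.add (hz.smul (-1))
  have h1 : (fun l => y l - z l) = fun l => y l + ((-1 : ℚ) : (V l).K) • z l := by
    funext l
    push_cast
    rw [neg_one_smul, sub_eq_add_neg]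
  rw [h1]
  exact h

theorem sum {ι : Type*} (S : Finset ι) {y : ι → ∀ l, (V l).H X} (hy : ∀ i ∈ S, AF V X (y i)) :
    AF V X fun l => ∑ i ∈ S, y i l := by
  classical
  induction S using Finset.induction_on with
  | empty =>
    simp only [Finset.sum_empty]
    exact zero
  | insert a S ha ih =>
    simp only [Finset.sum_insert ha]
    exact (hy a (Finset.mem_insert_self _ _)).add
      (ih fun i hi => hy i (Finset.mem_insert_of_mem hi))

theorem one : AF V X fun _ => 1 := by
  have h := of (V := V) X.V.fundCycle_mem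
  have h1 : (fun l => (V l).cl X X.V.fundCycle) = fun _ => 1 := by
    funext l
    exact (V l).cl_fund X
  rwa [h1] at h

theorem mul {y z : ∀ l, (V l).H X} (hy : AF V X y) (hz : AF V X z) :
    AF V X fun l => y l * z l := by
  refine ind (p := fun y => AF V X fun l => y l * z l) ?_ ?_ hy
  · intro j y hy
    refine ind (p := fun z => AF V X fun l => (V l).cl X y * z l) ?_ ?_ hz
    · intro i z hz
      have h := of (V := V) (ops.mul_mem hy hz)
      have h1 : (fun l => (V l).cl X (ops.mul y z)) =
          fun l => (V l).cl X y * (V l).cl X z := by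
        funext l
        exact (V l).cl_mul y z
      rwa [h1] at h
    · intro a b ha hb
      simp only [mul_add]
      exact ha.add hb
  · intro a b ha hb
    simp only [add_mul]
    exact ha.add hb

theorem map (g : X ⟶ Y) {y : ∀ l, (V l).H Y} (hy : AF V Y y) :
    AF V X fun l => (V l).map g (y l) := by
  refine ind (p := fun y => AF V X fun l => (V l).map g (y l)) ?_ ?_ hy
  · intro j y hy
    have h := of (V := V) (ops.pull_mem g hy)
    have h1 : (fun l => (V l).cl X (ops.pull g y)) = fun l => (V l).map g ((V l).cl Y y) := by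
      funext l
      exact (V l).cl_pull g y
    rwa [h1] at h
  · intro a b ha hb
    simp only [map_add]
    exact ha.add hb

theorem tr {y : ∀ l, (V l).H X} (hy : AF V X y) : ∃ q : ℚ, ∀ l, (V l).tr X (y l) = q := by
  refine ind (p := fun y => ∃ q : ℚ, ∀ l, (V l).tr X (y l) = q) ?_ ?_ hy
  · intro j z hz
    by_cases hj : j = X.dim
    · subst hj
      exact ⟨X.V.degCycle z, fun l => (V l).tr_cl hz⟩
    · refine ⟨0, fun l => ?_⟩
      rw [(V l).tr_eq_zero ((V l).cl_mem hz) (by omega), Rat.cast_zero]
  · rintro a b ⟨q, hq⟩ ⟨r, hr⟩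
    exact ⟨q + r, fun l => by rw [map_add, hq, hr, Rat.cast_add]⟩

theorem as {y : ∀ l, (V l).H X} (hy : AF V X y) (l : Λ) : W552.AS (V l) X (y l) := by
  refine ind (p := fun y => W552.AS (V l) X (y l)) ?_ ?_ hy
  · intro j z hz
    exact W552.AS.of ⟨z, hz, rfl⟩
  · intro a b ha hb
    exact ha.add hb

theorem lift {l : Λ} {y : (V l).H X} (hy : W552.AS (V l) X y) : ∃ z, AF V X z ∧ z l = y := by
  refine W552.AS.ind (p := fun y => ∃ z, AF V X z ∧ z l = y) ?_ ?_ hy
  · rintro j _ ⟨z, hz, rfl⟩
    exact ⟨_, of hz, rfl⟩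
  · rintro a b ⟨y, hy, rfl⟩ ⟨z, hz, rfl⟩
    exact ⟨_, hy.add hz, rfl⟩

/-- Homological and numerical equivalence. -/
theorem eq_zero {y : ∀ l, (V l).H X} (hy : AF V X y) {l₀ : Λ} (h0 : y l₀ = 0) {l : Λ}
    (hD : HomEqNum (V l) X) : y l = 0 := by
  refine homEqNum_iff.1 hD _ (hy.as l) fun w hw => ?_
  obtain ⟨z, hz, rfl⟩ := lift hw
  obtain ⟨q, hq⟩ := (hy.mul hz).tr
  have h1 := hq l₀
  rw [h0, zero_mul, map_zero] at h1
  rw [hq l, ← (Rat.cast_injective (α := (V l₀).K)) (a₁ := 0) (a₂ := q)
    (by rw [Rat.cast_zero]; exact h1), Rat.cast_zero]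

/-- the class of the diagonal -/
theorem diag : AF V (X.prod X) fun l => (V l).push (Obj.diag X) 1 := by
  have h := of (V := V) (ops.push_mem (Obj.diag X) (p := 0) (q := X.dim) X.V.fundCycle_mem (by
    rw [dim_prod]; omega))
  have h1 : (fun l => (V l).cl (X.prod X) (ops.push (Obj.diag X) X.V.fundCycle)) =
      fun l => (V l).push (Obj.diag X) 1 := by
    funext l
    rw [(V l).cl_push, (V l).cl_fund]
  rwa [h1] at h

end AF

/-- **The transcendental parts of the diagonal in all theories are given by one cycle.** -/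
theorem dT_AF [Nonempty Λ] (hD : ∀ l, HomEqNum (V l) X)
    (hmid : ∀ l, transcendental (V l) X ≤ (V l).gr X X.dim) (s : ∀ l, SB (V l) X) :
    AF V (X.prod X) fun l => dT (s l) := by
  classical
  obtain ⟨l₀⟩ := (inferInstance : Nonempty Λ)
  set s₀ := s l₀ with hs₀
  choose z hz hcl using fun i => s₀.alg i
  have hzA : ∀ i, AF V X fun l => (V l).cl X (z i) := fun i => AF.of (hz i)
  have hQ : ∀ i j, ∃ q : ℚ, ∀ l, bil (V l) X ((V l).cl X (z i)) ((V l).cl X (z j)) = q :=
    fun i j => ((hzA i).mul (hzA j)).tr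
  choose q hq using hQ
  set Q : Matrix (Fin s₀.NC) (Fin s₀.NC) ℚ := Matrix.of q with hQdef
  have hQ0 : Q.det ≠ 0 := by
    intro h0
    have h1 : (Q.map (algebraMap ℚ (V l₀).K)).det = 0 := by
      rw [← RingHom.mapMatrix_apply, ← RingHom.map_det, h0, map_zero]
    obtain ⟨v, hv0, hv⟩ := Matrix.exists_mulVec_eq_zero_iff.2 h1
    apply hv0
    have h2 : (∑ j, v j • s₀.bC j) = 0 := by
      refine alg_nondeg (hD l₀) _ fun c => ?_
      rw [rform_apply, bil_apply, alg_comm (Subtype.property _), ← bil_apply]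
      have h3 : ∀ i, bil (V l₀) X (s₀.bC i) (∑ j, v j • s₀.bC j : algSpan (V l₀) X) = 0 := by
        intro i
        have h4 := congrFun hv i
        rw [Submodule.coe_sum, map_sum]
        rw [Matrix.mulVec, dotProduct] at h4
        rw [Pi.zero_apply] at h4
        rw [← h4]
        refine Finset.sum_congr rfl fun j _ => ?_
        rw [Submodule.coe_smul, map_smul, smul_eq_mul, ← hcl, ← hcl, hq, mul_comm]
        rfl
      rw [← s₀.bC.sum_repr c, Submodule.coe_sum, map_sum, LinearMap.sum_apply]
      refine Finset.sum_eq_zero fun i _ => ?_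
      rw [Submodule.coe_smul, map_smul, LinearMap.smul_apply, h3, smul_zero]
    have h5 := Fintype.linearIndependent_iff.1 s₀.bC.linearIndependent v h2
    funext i
    exact h5 i
  have hQu : IsUnit Q.det := isUnit_iff_ne_zero.2 hQ0
  have hQsy : ∀ i j, Q i j = Q j i := by
    intro i j
    have h1 := hq i j l₀
    rw [bil_apply, alg_comm (alg_mem ⟨z i, hz i, rfl⟩), ← bil_apply, hq j i l₀] at h1
    exact_mod_cast h1.symm
  -- the dual classes
  set y' : Fin s₀.NC → ∀ l, (V l).H X := fun i l =>
    ∑ j, ((Q⁻¹ i j : ℚ) : (V l).K) • (V l).cl X (z j) with hy'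
  have hy'A : ∀ i, AF V X (y' i) := fun i => AF.sum _ fun j _ => (hzA j).smul _
  have hdual : ∀ l i j, bil (V l) X ((V l).cl X (z j)) (y' i l) = if j = i then 1 else 0 := by
    intro l i j
    have h1 : (Q⁻¹ * Q) i j = (1 : Matrix _ _ ℚ) i j := by
      rw [Matrix.nonsing_inv_mul _ hQu]
    rw [Matrix.mul_apply] at h1
    have h2 : bil (V l) X ((V l).cl X (z j)) (y' i l) = ((∑ k, Q⁻¹ i k * Q k j : ℚ) : (V l).K) := by
      rw [hy']
      beta_reduce
      rw [map_sum]
      push_cast
      refine Finset.sum_congr rfl fun k _ => ?_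
      rw [map_smul, hq, smul_eq_mul]
      congr 2
      exact hQsy j k
    rw [h2, h1, Matrix.one_apply]
    by_cases h : i = j
    · rw [if_pos h, if_pos h.symm, Rat.cast_one]
    · rw [if_neg h, if_neg (Ne.symm h), Rat.cast_zero]
  -- expansion
  have hexp : ∀ l, ∀ c ∈ algSpan (V l) X,
      c = ∑ i, bil (V l) X c (y' i l) • (V l).cl X (z i) := by
    have hA : ∀ (c : ∀ l, (V l).H X), AF V X c → ∀ l,
        c l = ∑ i, bil (V l) X (c l) (y' i l) • (V l).cl X (z i) := by
      intro c hc
      have h1 : ∀ i, ∃ r : ℚ, ∀ l, bil (V l) X (c l) (y' i l) = r :=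
        fun i => (hc.mul (hy'A i)).tr
      choose r hr using h1
      have h2 : AF V X fun l => c l - ∑ i, ((r i : ℚ) : (V l).K) • (V l).cl X (z i) :=
        hc.sub (AF.sum _ fun i _ => (hzA i).smul _)
      have h3 : (fun l => c l - ∑ i, ((r i : ℚ) : (V l).K) • (V l).cl X (z i)) l₀ = 0 := by
        have h4 : c l₀ ∈ algSpan (V l₀) X := as_algSpan (hc.as l₀)
        have h5 := s₀.bC.sum_repr ⟨c l₀, h4⟩
        have h6 : c l₀ = ∑ i, s₀.bC.repr ⟨c l₀, h4⟩ i • (V l₀).cl X (z i) := by
          conv_lhs => rw [show c l₀ = ((⟨c l₀, h4⟩ : algSpan (V l₀) X) : (V l₀).H X) from rfl,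
            ← h5]
          rw [Submodule.coe_sum]
          refine Finset.sum_congr rfl fun i _ => ?_
          rw [Submodule.coe_smul, hcl]
        have h7 : ∀ i, ((r i : ℚ) : (V l₀).K) = s₀.bC.repr ⟨c l₀, h4⟩ i := by
          intro i
          rw [← hr i l₀]
          conv_lhs => rw [h6]
          rw [map_sum (bil (V l₀) X), LinearMap.sum_apply, Finset.sum_eq_single i]
          · rw [map_smul, LinearMap.smul_apply, hdual, if_pos rfl, smul_eq_mul, mul_one]
          · intro j _ hj
            rw [map_smul, LinearMap.smul_apply, hdual, if_neg hj, smul_zero]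
          · intro h
            exact absurd (Finset.mem_univ _) h
        beta_reduce
        rw [sub_eq_zero]
        conv_lhs => rw [h6]
        refine Finset.sum_congr rfl fun i _ => ?_
        rw [h7]
      intro l
      have h4 := h2.eq_zero h3 (hD l)
      rw [sub_eq_zero] at h4
      conv_lhs => rw [h4]
      refine Finset.sum_congr rfl fun i _ => ?_
      rw [hr]
    intro l c hc
    induction hc using Submodule.span_induction with
    | mem c hc =>
      obtain ⟨j, hj⟩ := Set.mem_iUnion.1 hc
      obtain ⟨w, hw, rfl⟩ := hj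
      exact hA _ (AF.of hw) l
    | zero => simp
    | add a b _ _ ha hb =>
      conv_lhs => rw [ha, hb]
      rw [← Finset.sum_add_distrib]
      refine Finset.sum_congr rfl fun i _ => ?_
      rw [map_add, LinearMap.add_apply, add_smul]
    | smul r a _ ha =>
      conv_lhs => rw [ha]
      rw [Finset.smul_sum]
      refine Finset.sum_congr rfl fun i _ => ?_
      rw [map_smul, LinearMap.smul_apply, smul_eq_mul, smul_smul]
  have hdC : ∀ l, dC (s l) = ∑ i, (V l).map (fst X X) ((V l).cl X (z i)) *
      (V l).map (snd X X) (y' i l) := by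
    intro l
    have h1 : ∀ i, y' i l = ∑ k, bil (V l) X ((s l).bC k) (y' i l) • ((s l).uC k : (V l).H X) :=
      fun i => expand_uC (s l) (as_algSpan ((hy'A i).as l))
    rw [dC]
    calc ∑ k, (V l).map (fst X X) ((s l).bC k : (V l).H X) *
          (V l).map (snd X X) ((s l).uC k : (V l).H X)
        = ∑ k, ∑ i, (V l).map (fst X X) (bil (V l) X ((s l).bC k) (y' i l) •
            (V l).cl X (z i)) * (V l).map (snd X X) ((s l).uC k : (V l).H X) := by
          refine Finset.sum_congr rfl fun k _ => ?_
          conv_lhs => rw [hexp l _ ((s l).bC k).2]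
          rw [map_sum, Finset.sum_mul]
      _ = _ := by
          rw [Finset.sum_comm]
          refine Finset.sum_congr rfl fun i _ => ?_
          conv_rhs => rw [h1 i]
          rw [map_sum, Finset.mul_sum]
          refine Finset.sum_congr rfl fun k _ => ?_
          rw [map_smul, map_smul, smul_mul_assoc, mul_smul_comm]
  have hfin : (fun l => dT (s l)) = fun l => (V l).push (Obj.diag X) 1 -
      ∑ i, (V l).map (fst X X) ((V l).cl X (z i)) * (V l).map (snd X X) (y' i l) := by
    funext l
    rw [← hdC, diag_eq (hD l) (hmid l) (s l), add_sub_cancel_left]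
  rw [hfin]
  exact AF.diag.sub (AF.sum _ fun i _ => ((hzA i).map _).mul ((hy'A i).map _))

end Pool.Agent.V5helper86.AP
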