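import Pool.Agent.V5helper86.AP.Tow

/-!
# The standard conjecture of Hodge type for all powers
-/

open CategoryTheory AlgebraicGeometry Finset Function

set_option linter.unusedSectionVars false

universe u v w x

namespace Pool.Agent.V5helper86.AP

open Pool.Agent.H914 Pool.Agent.H914.VarClass Pool.Agent.H914.VarClass.Obj
  Pool.Agent.H914.WeilCohomology Pool.Agent.H281R3.HT Pool.Agent.W552 Pool.Agent.H447
  Pool.Agent.TH125.Gal Pool.Agent.Y127

variable {k : Type u} [Field k] {𝒱 : VarClass k} {ops : CycleOps 𝒱}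

/-- algebraic classes are twisted classes for the trivial twist -/
theorem ts_one {W : WeilCohomology.{u, v} ops} {Y Z : 𝒱.Obj} (hZ : HomEqNum W Z)
    (hZ1 : (1 : W.H Z) ≠ 0) {y : W.H Y} (hy : W552.AS W Y y) : TS W Z 1 Y y := by
  obtain ⟨p, hp, hp0⟩ : ∃ p, W552.AS W Z p ∧ W.tr Z p ≠ 0 := by
    by_contra hcon
    push Not at hcon
    exact hZ1 (homEqNum_iff.1 hZ 1 W552.AS.one fun w hw => by rw [one_mul]; exact hcon w hw)
  obtain ⟨q, hq⟩ := hp.tr
  refine ⟨W.map (fst Y Z) y * W.map (snd Y Z) (((q⁻¹ : ℚ) : W.K) • p),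
    (hy.map _).mul ((hp.smul _).map _), ?_⟩
  have hq0 : (q : W.K) ≠ 0 := by rwa [← hq]
  rw [cnr_ext, mul_one, map_smul, hq, smul_eq_mul, Rat.cast_inv, inv_mul_cancel₀ hq0, one_smul]

section main

variable {Λ : Type x} {V : Λ → WeilCohomology.{u, v} ops} {l₀ : Λ} {Γ : Type w} [Group Γ]
  {χ : Γ →* (V l₀).Kˣ} {G : Set (GVar (V l₀) Γ)} {ι : Type} {X : ι → GVar (V l₀) Γ}
  {D : ∀ i, (X i).X.Cycles} {Z : GVar (V l₀) Γ} {E : Z.X.Cycles}

theorem tower_one {W : WeilCohomology.{u, v} ops} {P : ι → Polarized 𝒱} {Q : Polarized 𝒱}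
    (h : (1 : W.H Q.X) = 0) : ∀ L : List (ι × ℕ), (1 : W.H (tower' ops P Q L).X) = 0
  | [] => h
  | a :: L => by
    have h1 := tower_one (P := P) h L
    have h2 : (1 : W.H ((nest ops a.2 fun _ => P a.1).X.prod (tower' ops P Q L).X)) = 0 := by
      rw [← map_one (W.map (snd (nest ops a.2 fun _ => P a.1).X (tower' ops P Q L).X)), h1,
        map_zero]
    exact h2

/-- **The standard conjecture of Hodge type for all powers.** -/
theorem hodge_all (h : NodalSystem χ G X D Z) (hE : IsPolarization (V l₀) Z.X E)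
    (hT : TateConjecture χ Z) (hsq : SqPos V) (L : List (ι × ℕ)) (hL : (L.map Prod.fst).Nodup)
    (hLe : ∀ a ∈ L, Even (X a.1).X.dim → a.2 + 1 < transRank (V l₀) (X a.1).X ∨
      (3 ≤ transRank (V l₀) (X a.1).X ∧ (∀ l, HomEqNum (V l) (X a.1).X) ∧
        (∀ l, transcendental (V l) (X a.1).X ≤ (V l).gr (X a.1).X (X a.1).X.dim) ∧
        ∃ (N : ℕ) (q : ℚ), 0 < q ∧ ∀ l, HasDisc (V l) (X a.1).X N q)) :
    HodgeType (V l₀) (nodalTower X D Z E L).X (nodalTower X D Z E L).D ∧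
      HomEqNum (V l₀) (nodalTower X D Z E L).X := by
  choose γ hγ using h.node
  choose f hf hls using fun i => exists_Fp (h.transIrred i).polarization.div
    (h.transIrred i).polarization.hard (h.transIrred i).polarization.lefschetz
    (h.transIrred i).polarization.hodge
  obtain ⟨g, hg, _⟩ := exists_Fp hE.div hE.hard hE.lefschetz hE.hodge
  rw [nodalTower, tower_eq]
  have hFp : Fp (V l₀) (tower' ops (fun i => (⟨(X i).X, D i⟩ : Polarized 𝒱)) ⟨Z.X, E⟩ L).X
      (tower' ops (fun i => (⟨(X i).X, D i⟩ : Polarized 𝒱)) ⟨Z.X, E⟩ L).D (gT D E f g L) := by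
    refine ⟨gT_fr (fun i => (hf i).fr) hg.fr L,
      gT_sy (fun i => (hf i).fr) (fun i => (hf i).sy) hg.fr hg.sy L, fun y hy hy0 => ?_⟩
    by_cases hZ1 : (1 : (V l₀).H Z.X) = 0
    · exfalso
      apply hy0
      rw [← one_mul y, tower_one (P := fun i => (⟨(X i).X, D i⟩ : Polarized 𝒱))
        (Q := ⟨Z.X, E⟩) hZ1 L, zero_mul]
    · have hdet : ∀ a ∈ L, Even (X a.1).X.dim → a.2 + 1 < transRank (V l₀) (X a.1).X ∨
          (3 ≤ transRank (V l₀) (X a.1).X ∧
            DetData V l₀ ⟨(X a.1).X, D a.1⟩ (f a.1)) := by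
        intro a ha hi
        refine (hLe a ha hi).imp_right fun h0 => ?_
        obtain ⟨h1, h2, h2', N, q, hq, hdisc⟩ := h0
        refine ⟨h1, exists_detData l₀ (P := ⟨(X a.1).X, D a.1⟩) h2 h2' hi (N := N) ?_ hq hdisc
          (hf a.1)⟩
        obtain ⟨t, -⟩ := hdisc l₀
        have h3 : transRank (V l₀) (X a.1).X = N := by
          rw [transRank, Module.finrank_eq_card_basis t, Fintype.card_fin]
        omega
      have hbase : ∀ (Ω : GVar (V l₀) Γ) (ω : ∀ l, (V l).H Ω.X) (d : ℚ) (e : ℕ), Ω ∈ G →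
          TD V Ω.X ω d e → Tw (V l₀) Ω.X (ω l₀) d Z.X E g := by
        intro Ω ω d e hΩ hTD
        obtain ⟨Θ, hΘ, h1⟩ := hTD.sq
        obtain ⟨Δ, hΔ, hfix⟩ := semi h.galoisClass hΩ (hTD.deg l₀) (hΘ.as l₀)
          (d := ((d : ℚ) : (V l₀).K)) (by exact_mod_cast hTD.pos.ne') (h1 l₀)
        exact tw_base hg (fun z hz => ts_alg h.galoisClass h.mem_base hΩ hT (hTD.deg l₀) hΔ
          hfix hz) fun u hu => hTD.base hsq hu
      have h1 := tw_tower h hγ hf hls hg hZ1 hbase L hL hdet Z (fun _ => 1) 1 0 h.mem_base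
        (TD.one V Z.X) fun a _ => (hγ a.1).2.2.1
      obtain ⟨q, hq0, hq1, hq2⟩ := h1 y (ts_one hg.hodge.2 hZ1 hy)
      exact ⟨q, hq1 hy0, by rw [hq2, Rat.cast_one, one_mul]⟩
  exact hFp.hodge

end main

end Pool.Agent.V5helper86.AP
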