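import Pool.Agent.TH125.Gal.Rec
import Pool.Agent.Y127.FftO

/-!
# Invariant functions of multi-indices with algebraic and transcendental entries
-/

set_option linter.unusedSectionVars false

open Finset Function

namespace Pool.Agent.V5helper86.AP

open Pool.Agent.TH125.Gal Pool.Agent.TH125.Nod Pool.Agent.Y127

universe u v

variable {K : Type u} [Field K] {a t : ℕ} {M : Type v} [AddCommGroup M] [Module K M]

/-- the entry of the matrix, zero for the algebraic indices -/
def qx (Q : Matrix (Fin t) (Fin t) K) (v : Fin t) : Fin a ⊕ Fin t → K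
  | Sum.inl _ => 0
  | Sum.inr q => Q v q

/-- invariance of a function of multi-indices with algebraic and transcendental entries -/
def InvF (Q : Matrix (Fin t) (Fin t) K) {N : ℕ} (f : (Fin N → Fin a ⊕ Fin t) → M) : Prop :=
  ∀ u v : Fin t, ∀ J : Fin N → Fin a ⊕ Fin t,
    ∑ j, (qx Q v (J j) • f (update J j (Sum.inr u)) -
      qx Q u (J j) • f (update J j (Sum.inr v))) = 0

theorem update_comb {N : ℕ} {c₀ : Fin N → Option (Fin a)} (r : Free c₀ → Fin t) (j : Free c₀)
    (u : Fin t) : update (comb c₀ r) j.1 (Sum.inr u) = comb c₀ (update r j u) := by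
  funext p
  cases h : c₀ p with
  | some i =>
    have hp : p ≠ j.1 := by
      rintro rfl
      rw [j.2] at h
      cases h
    rw [update_of_ne hp, comb_some r h, comb_some _ h]
  | none =>
    rw [comb_none (update r j u) ⟨p, h⟩]
    by_cases hp : p = j.1
    · subst hp
      rw [update_self]
      have : (⟨j.1, h⟩ : Free c₀) = j := rfl
      rw [this, update_self]
    · rw [update_of_ne hp, comb_none r ⟨p, h⟩, update_of_ne]
      intro h1
      exact hp (congrArg Subtype.val h1)

theorem sum_free {M' : Type*} [AddCommMonoid M'] {N : ℕ} {c₀ : Fin N → Option (Fin a)}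
    {F : Fin N → M'}
    (hF : ∀ j, c₀ j ≠ none → F j = 0) : ∑ j, F j = ∑ j : Free c₀, F j.1 := by
  rw [← Finset.sum_filter_add_sum_filter_not Finset.univ (fun p => c₀ p = none)]
  rw [Finset.sum_eq_zero (s := Finset.univ.filter fun p => ¬ c₀ p = none)
    fun p hp => hF p (Finset.mem_filter.1 hp).2, add_zero]
  rw [Finset.sum_subtype (p := fun p => c₀ p = none)]
  intro x
  simp

theorem exists_comb {N : ℕ} (J : Fin N → Fin a ⊕ Fin t) :
    ∃ (c₀ : Fin N → Option (Fin a)) (r : Free c₀ → Fin t), J = comb c₀ r := by
  have h1 : ∀ p : Free (pat J), ∃ j : Fin t, J p.1 = Sum.inr j := by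
    rintro ⟨p, hp⟩
    unfold pat at hp
    cases h : J p with
    | inl i => rw [h] at hp; cases hp
    | inr j => exact ⟨j, rfl⟩
  choose r hr using h1
  refine ⟨pat J, r, ?_⟩
  funext p
  cases h : pat J p with
  | none =>
    rw [comb_none r ⟨p, h⟩]
    exact hr ⟨p, h⟩
  | some i =>
    rw [comb_some r h]
    unfold pat at h
    cases h' : J p with
    | inl j =>
      rw [h'] at h
      cases h
      rfl
    | inr j => rw [h'] at h; cases h

theorem invF_iff (Q : Matrix (Fin t) (Fin t) K) {N : ℕ} (f : (Fin N → Fin a ⊕ Fin t) → M) :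
    InvF Q f ↔ ∀ c₀ : Fin N → Option (Fin a),
      Inv (fun _ : Fin t => ()) Q (fun _ => 1) (fun r : Free c₀ → Fin t => f (comb c₀ r)) := by
  have key : ∀ (c₀ : Fin N → Option (Fin a)) (r : Free c₀ → Fin t) (u v : Fin t),
      ∑ j, (qx Q v (comb c₀ r j) • f (update (comb c₀ r) j (Sum.inr u)) -
        qx Q u (comb c₀ r j) • f (update (comb c₀ r) j (Sum.inr v))) =
      ∑ j : Free c₀, (Q v (r j) • f (comb c₀ (update r j u)) -
        ((1 : K) * Q u (r j)) • f (comb c₀ (update r j v))) := by
    intro c₀ r u v
    rw [sum_free (c₀ := c₀)]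
    · refine Finset.sum_congr rfl fun j _ => ?_
      rw [update_comb, update_comb, comb_none, one_mul]
      rfl
    · intro j hj
      obtain ⟨i, hi⟩ := Option.ne_none_iff_exists'.1 hj
      rw [comb_some r hi]
      simp [qx]
  constructor
  · intro h c₀ u v _ r
    rw [← key]
    exact h u v _
  · intro h u v J
    obtain ⟨c₀, r, rfl⟩ := exists_comb J
    rw [key]
    exact h c₀ u v rfl r

theorem InvF.map {Q : Matrix (Fin t) (Fin t) K} {N : ℕ} {f : (Fin N → Fin a ⊕ Fin t) → M}
    (h : InvF Q f) {M' : Type*} [AddCommGroup M'] [Module K M'] (L : M →ₗ[K] M') :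
    InvF Q (fun r => L (f r)) := by
  intro u v J
  have h1 := congrArg L (h u v J)
  rw [map_sum, map_zero] at h1
  rw [← h1]
  refine Finset.sum_congr rfl fun j _ => ?_
  rw [map_sub, map_smul, map_smul]

/-- products -/
theorem InvF.append {Q : Matrix (Fin t) (Fin t) K} {n m : ℕ}
    {f : (Fin n → Fin a ⊕ Fin t) → M} {g : (Fin m → Fin a ⊕ Fin t) → K}
    (hf : InvF Q f) (hg : InvF Q g) :
    InvF Q (fun R : Fin (n + m) → Fin a ⊕ Fin t =>
      g (fun p => R (Fin.natAdd n p)) • f (fun p => R (Fin.castAdd m p))) := by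
  intro u v R
  rw [Fin.sum_univ_add]
  set R1 : Fin n → Fin a ⊕ Fin t := fun p => R (Fin.castAdd m p) with hR1
  set R2 : Fin m → Fin a ⊕ Fin t := fun p => R (Fin.natAdd n p) with hR2
  have e1 : ∀ (j : Fin n) x, (fun p => update R (Fin.castAdd m j) x (Fin.castAdd m p)) =
      update R1 j x := by
    intro j x
    funext p
    by_cases h : p = j
    · subst h; rw [update_self, update_self]
    · rw [update_of_ne h, update_of_ne (fun h1 => h (Fin.castAdd_injective n m h1))]
  have e2 : ∀ (j : Fin n) x, (fun p => update R (Fin.castAdd m j) x (Fin.natAdd n p)) = R2 := by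
    intro j x
    funext p
    rw [update_of_ne]
    intro h
    have := congrArg Fin.val h
    simp only [Fin.val_natAdd, Fin.val_castAdd] at this
    omega
  have e3 : ∀ (j : Fin m) x, (fun p => update R (Fin.natAdd n j) x (Fin.castAdd m p)) = R1 := by
    intro j x
    funext p
    rw [update_of_ne]
    intro h
    have := congrArg Fin.val h
    simp only [Fin.val_natAdd, Fin.val_castAdd] at this
    omega
  have e4 : ∀ (j : Fin m) x, (fun p => update R (Fin.natAdd n j) x (Fin.natAdd n p)) =
      update R2 j x := by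
    intro j x
    funext p
    by_cases h : p = j
    · subst h; rw [update_self, update_self]
    · rw [update_of_ne h, update_of_ne (fun h1 => h (Fin.natAdd_injective m n h1))]
  simp only [e1, e2, e3, e4]
  have h1 : ∑ j : Fin n, (qx Q v (R (Fin.castAdd m j)) • g R2 • f (update R1 j (Sum.inr u)) -
      qx Q u (R (Fin.castAdd m j)) • g R2 • f (update R1 j (Sum.inr v))) = 0 := by
    have h2 := congrArg (fun x => g R2 • x) (hf u v R1)
    beta_reduce at h2
    rw [smul_zero, Finset.smul_sum] at h2
    rw [← h2]
    refine Finset.sum_congr rfl fun j _ => ?_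
    rw [smul_sub, smul_comm (g R2), smul_comm (g R2)]
  have h3 : ∑ j : Fin m, (qx Q v (R (Fin.natAdd n j)) • g (update R2 j (Sum.inr u)) • f R1 -
      qx Q u (R (Fin.natAdd n j)) • g (update R2 j (Sum.inr v)) • f R1) = 0 := by
    have h2 := congrArg (fun x => x • f R1) (hg u v R2)
    beta_reduce at h2
    rw [zero_smul, Finset.sum_smul] at h2
    rw [← h2]
    refine Finset.sum_congr rfl fun j _ => ?_
    rw [sub_smul, smul_eq_mul, smul_eq_mul, mul_smul, mul_smul]
  rw [h1, h3, add_zero]

/-- the number of occurrences of a transcendental index -/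
def occI {N : ℕ} (o : Fin t) (r : Fin N → Fin a ⊕ Fin t) : ℕ :=
  ∑ p, if r p = Sum.inr o then 1 else 0

theorem occI_update {N : ℕ} (o : Fin t) (r : Fin N → Fin a ⊕ Fin t) (j : Fin N)
    (x : Fin a ⊕ Fin t) : occI o (update r j x) + (if r j = Sum.inr o then 1 else 0) =
      occI o r + (if x = Sum.inr o then 1 else 0) := by
  unfold occI
  rw [← Finset.add_sum_erase _ _ (Finset.mem_univ j), ← Finset.add_sum_erase _
    (fun p => if r p = Sum.inr o then 1 else 0) (Finset.mem_univ j), update_self]
  have h : ∑ p ∈ univ.erase j, (if update r j x p = Sum.inr o then 1 else 0) =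
      ∑ p ∈ univ.erase j, (if r p = Sum.inr o then 1 else 0) := by
    refine Finset.sum_congr rfl fun p hp => ?_
    rw [update_of_ne (Finset.ne_of_mem_erase hp)]
  rw [h]
  ring

theorem occI_comb {N : ℕ} (o : Fin t) {c₀ : Fin N → Option (Fin a)} (r : Free c₀ → Fin t) :
    occI o (comb c₀ r) = occ r o := by
  unfold occI occ
  rw [sum_free (c₀ := c₀), Finset.card_filter]
  · refine Finset.sum_congr rfl fun j _ => ?_
    rw [comb_none]
    simp
  · intro j hj
    obtain ⟨i, hi⟩ := Option.ne_none_iff_exists'.1 hj
    rw [comb_some r hi]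
    simp

theorem occI_append {n m : ℕ} (o : Fin t) (R : Fin (n + m) → Fin a ⊕ Fin t) :
    occI o R = occI o (fun p => R (Fin.castAdd m p)) + occI o (fun p => R (Fin.natAdd n p)) := by
  unfold occI
  rw [Fin.sum_univ_add]

/-- the part of a function on the multi-indices of a given parity -/
def prt (ε : K) (o : Fin t) {N : ℕ} (f : (Fin N → Fin a ⊕ Fin t) → M) :
    (Fin N → Fin a ⊕ Fin t) → M := fun r => (1 + ε * (-1) ^ occI o r) • f r

/-- **The parts of an invariant function are invariant.** -/
theorem InvF.prt {Q : Matrix (Fin t) (Fin t) K} (hQs : ∀ i j, Q i j = Q j i) {o : Fin t}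
    (ho : ∀ q, q ≠ o → Q o q = 0) {N : ℕ} {f : (Fin N → Fin a ⊕ Fin t) → M} (hf : InvF Q f)
    (ε : K) : InvF Q (prt ε o f) := by
  have hq : ∀ (v : Fin t) (x : Fin a ⊕ Fin t), qx Q v x ≠ 0 → (v = o ↔ x = Sum.inr o) := by
    intro v x hx
    cases x with
    | inl i => exact absurd rfl hx
    | inr q =>
      have hx' : Q v q ≠ 0 := hx
      constructor
      · rintro rfl
        by_contra h
        exact hx' (ho q fun h1 => h (by rw [h1]))
      · intro h
        have h1 : q = o := Sum.inr_injective h
        subst h1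
        by_contra h2
        rw [hQs] at hx'
        exact hx' (ho v h2)
  intro u v J
  set e : K := (-1) ^ (occI o J + (if u = o then 1 else 0) + (if v = o then 1 else 0)) with he
  have key : ∀ (u v : Fin t) (j : Fin N), qx Q v (J j) ≠ 0 →
      (-1 : K) ^ occI o (update J j (Sum.inr u)) =
        (-1) ^ (occI o J + (if u = o then 1 else 0) + (if v = o then 1 else 0)) := by
    intro u v j h
    have h1 := occI_update o J j (Sum.inr u)
    have h2 := hq v (J j) h
    have h3 : (if (Sum.inr u : Fin a ⊕ Fin t) = Sum.inr o then 1 else 0) =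
        (if u = o then 1 else 0) := by simp
    have h4 : (if J j = Sum.inr o then 1 else 0) = (if v = o then 1 else 0) := by
      by_cases hv : v = o
      · rw [if_pos hv, if_pos (h2.1 hv)]
      · rw [if_neg hv, if_neg (fun h5 => hv (h2.2 h5))]
    rw [h3, h4] at h1
    rw [← h1, add_assoc, pow_add, ← two_mul, pow_mul]
    norm_num
  have h1 : ∀ j, qx Q v (J j) • AP.prt ε o f (update J j (Sum.inr u)) -
      qx Q u (J j) • AP.prt ε o f (update J j (Sum.inr v)) = (1 + ε * e) •
      (qx Q v (J j) • f (update J j (Sum.inr u)) -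
        qx Q u (J j) • f (update J j (Sum.inr v))) := by
    intro j
    have h2 : qx Q v (J j) • AP.prt ε o f (update J j (Sum.inr u)) =
        (1 + ε * e) • (qx Q v (J j) • f (update J j (Sum.inr u))) := by
      by_cases h : qx Q v (J j) = 0
      · rw [h, zero_smul, zero_smul, smul_zero]
      · rw [AP.prt, key u v j h, smul_comm]
    have h3 : qx Q u (J j) • AP.prt ε o f (update J j (Sum.inr v)) =
        (1 + ε * e) • (qx Q u (J j) • f (update J j (Sum.inr v))) := by
      by_cases h : qx Q u (J j) = 0
      · rw [h, zero_smul, zero_smul, smul_zero]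
      · rw [AP.prt, key v u j h, smul_comm, he, add_right_comm]
    rw [h2, h3, smul_sub]
  rw [Finset.sum_congr rfl fun j _ => h1 j, ← Finset.smul_sum, hf u v J, smul_zero]

section eps

/-- the sign of the bijections, zero for the other functions -/
noncomputable def eps (K : Type u) [Field K] {N : ℕ} (σ : Fin N ≃ Fin t)
    (r : Fin N → Fin a ⊕ Fin t) : K :=
  (Matrix.of fun p i : Fin N => if r p = Sum.inr (σ i) then (1 : K) else 0).det

variable {N : ℕ} (σ : Fin N ≃ Fin t)

theorem eps_inl {r : Fin N → Fin a ⊕ Fin t} {p : Fin N} {i : Fin a} (h : r p = Sum.inl i) :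
    eps K σ r = 0 := by
  refine Matrix.det_eq_zero_of_row_eq_zero p fun i => ?_
  rw [Matrix.of_apply, h, if_neg (by simp)]

theorem eps_eq {r : Fin N → Fin a ⊕ Fin t} {p q : Fin N} (hpq : p ≠ q) (h : r p = r q) :
    eps K σ r = 0 := by
  refine Matrix.det_zero_of_row_eq hpq ?_
  funext i
  rw [Matrix.of_apply, Matrix.of_apply, h]

theorem eps_swap (r : Fin N → Fin a ⊕ Fin t) {p q : Fin N} (hpq : p ≠ q) :
    eps K σ (r ∘ Equiv.swap p q) = - eps K σ r := by
  have h := Matrix.det_permute (Equiv.swap p q)
    (Matrix.of fun p i : Fin N => if r p = Sum.inr (σ i) then (1 : K) else 0)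
  rw [Equiv.Perm.sign_swap hpq] at h
  rw [eps, eps]
  refine Eq.trans ?_ (h.trans (by simp))
  rfl

/-- **The determinant is invariant.** -/
theorem invF_eps (Q : Matrix (Fin t) (Fin t) K) (hQs : ∀ i j, Q i j = Q j i) :
    InvF (a := a) Q (eps K σ) := by
  intro u v J
  by_cases hinl : ∃ p i, J p = Sum.inl i
  · obtain ⟨p, i, hp⟩ := hinl
    refine Finset.sum_eq_zero fun j _ => ?_
    by_cases hj : j = p
    · subst hj
      rw [hp]
      simp [qx]
    · rw [eps_inl σ (p := p) (i := i) (by rw [update_of_ne (Ne.symm hj), hp]),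
        eps_inl σ (p := p) (i := i) (by rw [update_of_ne (Ne.symm hj), hp]), smul_zero, smul_zero,
        sub_zero]
  push Not at hinl
  by_cases hinj : Injective J
  · -- bijective case
    have hsurj : ∀ w : Fin t, ∃ p, J p = Sum.inr w := by
      have h1 : ∀ p, ∃ q, J p = Sum.inr q := by
        intro p
        cases h : J p with
        | inl i => exact absurd h (hinl p i)
        | inr q => exact ⟨q, rfl⟩
      choose g hg using h1
      have h2 : Injective g := by
        intro p q h
        apply hinj
        rw [hg, hg, h]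
      have h3 : Bijective (σ.symm ∘ g) :=
        Finite.injective_iff_bijective.1 (σ.symm.injective.comp h2)
      intro w
      obtain ⟨p, hp⟩ := h3.2 (σ.symm w)
      refine ⟨p, ?_⟩
      rw [hg, σ.symm.injective hp]
    have key : ∀ u v : Fin t, ∑ j, qx Q v (J j) • eps K σ (update J j (Sum.inr u)) =
        Q v u • eps K σ J := by
      intro u v
      obtain ⟨p, hp⟩ := hsurj u
      rw [Finset.sum_eq_single p]
      · have h1 : update J p (Sum.inr u) = J := by rw [← hp, update_eq_self]
        rw [h1, hp]
        rfl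
      · intro j _ hj
        rw [eps_eq σ hj (by rw [update_self, update_of_ne (Ne.symm hj), hp]), smul_zero]
      · intro h
        exact absurd (Finset.mem_univ _) h
    rw [Finset.sum_sub_distrib, key u v, key v u, hQs u v, sub_self]
  · rw [Injective] at hinj
    push Not at hinj
    obtain ⟨p, q, hpq, hne⟩ := hinj
    have key : ∀ u v : Fin t, ∑ j, qx Q v (J j) • eps K σ (update J j (Sum.inr u)) = 0 := by
      intro u v
      have hpair : ∑ j, qx Q v (J j) • eps K σ (update J j (Sum.inr u)) =
          ∑ j ∈ ({p, q} : Finset (Fin N)), qx Q v (J j) • eps K σ (update J j (Sum.inr u)) := by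
        symm
        refine Finset.sum_subset (Finset.subset_univ _) fun j _ hj => ?_
        rw [Finset.mem_insert, Finset.mem_singleton, not_or] at hj
        rw [eps_eq σ hne (by rw [update_of_ne (Ne.symm hj.1), update_of_ne (Ne.symm hj.2), hpq]),
          smul_zero]
      rw [hpair, Finset.sum_pair hne]
      have h1 : update J q (Sum.inr u) = update J p (Sum.inr u) ∘ Equiv.swap p q := by
        funext j
        rw [Function.comp_apply]
        by_cases h2 : j = p
        · subst h2
          rw [Equiv.swap_apply_left, update_of_ne hne, update_of_ne (Ne.symm hne), hpq]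
        by_cases h3 : j = q
        · subst h3
          rw [Equiv.swap_apply_right, update_self, update_self]
        · rw [Equiv.swap_apply_of_ne_of_ne h2 h3, update_of_ne h3, update_of_ne h2]
      rw [h1, eps_swap σ _ hne, hpq]
      module
    rw [Finset.sum_sub_distrib, key u v, key v u, sub_self]

/-- the determinant is odd -/
theorem eps_odd (o : Fin t) {r : Fin N → Fin a ⊕ Fin t} (h : eps K σ r ≠ 0) :
    occI o r = 1 := by
  have hinj : Injective r := by
    intro p q hpq
    by_contra hne
    exact h (eps_eq σ hne hpq)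
  have h1 : ∀ p, ∃ q, r p = Sum.inr q := by
    intro p
    cases h' : r p with
    | inl i => exact absurd (eps_inl σ h') h
    | inr q => exact ⟨q, rfl⟩
  choose g hg using h1
  have h2 : Injective g := by
    intro p q h'
    apply hinj
    rw [hg, hg, h']
  have h3 : Bijective (σ.symm ∘ g) :=
    Finite.injective_iff_bijective.1 (σ.symm.injective.comp h2)
  obtain ⟨p, hp⟩ := h3.2 (σ.symm o)
  have hp' : r p = Sum.inr o := by rw [hg, σ.symm.injective hp]
  unfold occI
  rw [Finset.sum_eq_single p]
  · rw [if_pos hp']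
  · intro q _ hq
    rw [if_neg]
    intro h4
    exact hq (hinj (h4.trans hp'.symm))
  · intro h4
    exact absurd (Finset.mem_univ _) h4

end eps

end Pool.Agent.V5helper86.AP
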