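import Pool.Agent.V5helper86.AP.Exp
import Pool.Agent.V5helper86.AP.InvF
import Pool.Agent.Y127.SOTwr

/-!
# The classes on a power generated by the form, and their positivity
-/

open CategoryTheory AlgebraicGeometry Finset Function

set_option linter.unusedSectionVars false

universe u v w

namespace Pool.Agent.V5helper86.AP

open Pool.Agent.H914 Pool.Agent.H914.VarClass Pool.Agent.H914.VarClass.Obj
  Pool.Agent.H914.WeilCohomology Pool.Agent.H281R3.HT Pool.Agent.W552 Pool.Agent.H447
  Pool.Agent.TH125.Gal Pool.Agent.Y127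

variable {k : Type u} [Field k] {𝒱 : VarClass k} {ops : CycleOps 𝒱}
  {W : WeilCohomology.{u, v} ops} {P : Polarized 𝒱} {s : SB W P.X}

section onb

variable {X : 𝒱.Obj} {D : X.Cycles} {f : Module.End W.K (W.H X)}

/-- orthogonal basis of a rational structure with a positive form -/
theorem onb_of (F : Fr W X D f) (hS : Sy W X D f) {M : W.H X → Prop} (hM : RatSub W.K M)
    (hMA : ∀ x, M x → W552.AS W X x)
    (hpos : ∀ x, M x → x ≠ 0 → ∃ q : ℚ, 0 < q ∧ bf W X D f x x = q) :
    ∃ (N : ℕ) (e : Fin N → W.H X) (w : Fin N → ℚ), (∀ k, M (e k)) ∧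
    (∀ k, 0 < w k) ∧ (∀ k l, bf W X D f (e k) (e l) = if k = l then (w k : W.K) else 0) ∧
    ∀ x ∈ Submodule.span W.K {x | M x}, x = ∑ k, ((w k : W.K)⁻¹ * bf W X D f x (e k)) • e k := by
  obtain ⟨N, e, w, he, hw, horth, hspan⟩ := exists_ratBasis hM
    (bf W X D f) (fun x y hx hy => F.bf_rat (hMA x hx) (hMA y hy))
    (fun x y hx hy => by rw [hS x y, par_AS (hMA y hy)]) hpos
  refine ⟨N, e, w, he, hw, horth, fun x hx => ?_⟩
  induction hx using Submodule.span_induction with
  | mem x hx =>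
    obtain ⟨r, hr⟩ := hspan x (Submodule.subset_span hx) fun k => F.bf_rat (hMA x hx)
      (hMA _ (he k))
    have h1 : ∀ k, bf W X D f x (e k) = r k * w k := by
      intro k
      rw [hr, map_sum, LinearMap.sum_apply, Finset.sum_eq_single k]
      · rw [map_smul, LinearMap.smul_apply, horth, if_pos rfl, smul_eq_mul]
      · intro l _ hl
        rw [map_smul, LinearMap.smul_apply, horth, if_neg hl, smul_zero]
      · intro h
        exact absurd (Finset.mem_univ _) h
    conv_lhs => rw [hr]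
    refine Finset.sum_congr rfl fun k _ => ?_
    have h2 : (w k : W.K) ≠ 0 := by exact_mod_cast (hw k).ne'
    rw [h1, mul_comm, mul_assoc, mul_inv_cancel₀ h2, mul_one]
  | zero => simp
  | add x y _ _ hx hy =>
    conv_lhs => rw [hx, hy]
    rw [← Finset.sum_add_distrib]
    refine Finset.sum_congr rfl fun k _ => ?_
    rw [map_add, LinearMap.add_apply, mul_add, add_smul]
  | smul q x _ hx =>
    conv_lhs => rw [hx]
    rw [Finset.smul_sum]
    refine Finset.sum_congr rfl fun k _ => ?_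
    rw [map_smul, LinearMap.smul_apply, smul_eq_mul, smul_smul]
    congr 1
    ring

end onb

section

variable {n : ℕ}
  {b : Module.Basis (Fin (n + 1) → Fin s.NC ⊕ Fin s.NT) W.K (W.H (nest ops n fun _ => P).X)}
  (hb : ∀ r, b r = mono (prj ops n fun _ => P) fun p => s.e (r p))

/-- the classes given by a pattern and a pairing of the free positions -/
noncomputable def gel
    (b : Module.Basis (Fin (n + 1) → Fin s.NC ⊕ Fin s.NT) W.K (W.H (nest ops n fun _ => P).X))
    (c₀ : Fin (n + 1) → Option (Fin s.NC)) {m : ℕ} (e : Fin m × Fin 2 ≃ Free c₀) :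
    W.H (nest ops n fun _ => P).X :=
  ∑ r : Free c₀ → Fin s.NT, (∏ l, gram s (r (e (l, 0))) (r (e (l, 1)))) • b (comb c₀ r)

/-- their span -/
noncomputable def VG
    (b : Module.Basis (Fin (n + 1) → Fin s.NC ⊕ Fin s.NT) W.K (W.H (nest ops n fun _ => P).X)) :
    Submodule W.K (W.H (nest ops n fun _ => P).X) :=
  Submodule.span W.K {x | ∃ (c₀ : Fin (n + 1) → Option (Fin s.NC)) (m : ℕ)
    (e : Fin m × Fin 2 ≃ Free c₀), x = gel b c₀ e}

variable (hQs : ∀ i j, gram s i j = gram s j i) {o : Fin s.NT} (ho : ∀ q, q ≠ o → gram s o q = 0)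

include hQs ho in
/-- the odd coordinates vanish -/
theorem vg_coord {x : W.H (nest ops n fun _ => P).X} (hx : x ∈ VG b)
    {r : Fin (n + 1) → Fin s.NC ⊕ Fin s.NT} (hr : Odd (occI o r)) : b.coord r x = 0 := by
  induction hx using Submodule.span_induction with
  | mem x hx =>
    obtain ⟨c₀, m, e, rfl⟩ := hx
    rw [gel, map_sum]
    refine Finset.sum_eq_zero fun r' _ => ?_
    rw [map_smul, Module.Basis.coord_apply, Module.Basis.repr_self, smul_eq_mul]
    by_cases h : comb c₀ r' = r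
    · have h1 : Odd (occ r' o) := by rwa [← h, occI_comb] at hr
      have h2 : TH125.Nod.gen (fun _ : Fin s.NT => ()) (gram s) (fun _ : Free c₀ => ()) e
          (1 : W.K) ∈ TH125.Nod.Gen (fun _ : Fin s.NT => ()) (gram s) (fun _ : Free c₀ => ()) :=
        Submodule.subset_span ⟨m, e, 1, rfl⟩
      have h3 := par_Gen hQs ho h2 r' h1
      rw [TH125.Nod.gen, if_pos (fun _ => rfl), smul_eq_mul, mul_one] at h3
      rw [h3, zero_mul]
    · rw [Finsupp.single_eq_of_ne (Ne.symm h), mul_zero]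
  | zero => rw [map_zero]
  | add x y _ _ hx hy => rw [map_add, hx, hy, add_zero]
  | smul q x _ hx => rw [map_smul, hx, smul_zero]

variable {R : Matrix (Fin s.NT) (Fin s.NT) W.K} (hR : gram s * R = 1)

include hQs ho hR in
/-- **The classes with invariant even coordinates.** -/
theorem vg_mem {Z : 𝒱.Obj} {c : W.H ((nest ops n fun _ => P).X.prod Z)}
    (hinv : InvF (gram s) fun r => ctr (b.coord r) c)
    (hpar : ∀ r, Odd (occI o r) → ctr (b.coord r) c = 0) : c ∈ VSpan (VG b) Z := by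
  rw [expand b c, sum_patterns]
  refine Submodule.sum_mem _ fun c₀ _ => ?_
  have h0 := (invF_iff (gram s) _).1 hinv c₀
  have h1 := fftO hQs hR ho (Fintype.card (Free c₀)) (Free c₀) _ rfl h0 (fun r hr => by
    refine hpar _ ?_
    rwa [occI_comb])
  have h2 : ∀ F ∈ TH125.Nod.Gen (fun _ : Fin s.NT => ()) (gram s) (fun _ : Free c₀ => ()),
      ∑ r : Free c₀ → Fin s.NT, W.map (fst _ Z) (b (comb c₀ r)) * W.map (snd _ Z) (F r : W.H Z) ∈
        VSpan (VG b) Z := by
    intro F hF
    induction hF using Submodule.span_induction with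
    | mem F hF =>
      obtain ⟨m, e, w, rfl⟩ := hF
      have h4 : ∑ r : Free c₀ → Fin s.NT, W.map (fst _ Z) (b (comb c₀ r)) *
          W.map (snd _ Z) (TH125.Nod.gen (fun _ : Fin s.NT => ())
            (gram s) (fun _ : Free c₀ => ()) e w r) =
          W.map (fst _ Z) (gel b c₀ e) * W.map (snd _ Z) w := by
        rw [gel, map_sum, Finset.sum_mul]
        refine Finset.sum_congr rfl fun r _ => ?_
        rw [TH125.Nod.gen, if_pos (fun _ => rfl), map_smul, map_smul, mul_smul_comm,
          smul_mul_assoc]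
      rw [h4]
      exact Submodule.subset_span ⟨_, Submodule.subset_span ⟨c₀, m, e, rfl⟩, w, rfl⟩
    | zero =>
      simp only [Pi.zero_apply, map_zero, mul_zero, Finset.sum_const_zero]
      exact Submodule.zero_mem _
    | add F F' _ _ hF hF' =>
      simp only [Pi.add_apply, map_add, mul_add, Finset.sum_add_distrib]
      exact Submodule.add_mem _ hF hF'
    | smul x F _ hF =>
      simp only [Pi.smul_apply, map_smul, mul_smul_comm]
      rw [← Finset.smul_sum]
      exact Submodule.smul_mem _ _ hF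
  exact h2 _ h1

/-- the classes `Mq` are classes of cycles -/
theorem mq_AS {Y : 𝒱.Obj} (hdQ : W552.AS W (P.X.prod P.X) (dQ s)) {N : ℕ}
    {π : Fin N → (Y ⟶ P.X)} {S : Finset (Fin N)} {i : ℕ} {c : W.H Y} (h : Mq s π S i c) :
    W552.AS W Y c := by
  induction h with
  | one => exact W552.AS.one
  | single l _ _ ih => exact ((W552.AS.of (s.alg l)).map _).mul ih
  | pair _ _ _ _ ih => exact (hdQ.map _).mul ih

include hb in
/-- the classes are multiples of classes `Mq` -/
theorem gel_mq (hmid : transcendental W P.X ≤ W.gr P.X P.X.dim)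
    (c₀ : Fin (n + 1) → Option (Fin s.NC)) {m : ℕ} (e : Fin m × Fin 2 ≃ Free c₀) :
    ∃ (ε : ℤ) (S : Finset (Fin (n + 1))) (i : ℕ) (x : W.H (nest ops n fun _ => P).X),
      Mq s (prj ops n fun _ => P) S i x ∧ gel b c₀ e = (ε : W.K) • x := by
  obtain ⟨ε, S, i, x, hx, h⟩ := mq_sum (s := s) (π := prj ops n fun _ => P) hmid e
  refine ⟨ε, S, i, x, hx, ?_⟩
  rw [← h, gel]
  refine Finset.sum_congr rfl fun r _ => ?_
  rw [hb]
  rfl

include hb in
/-- **Positivity and orthogonal bases.** -/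
theorem vg_onb {f : Module.End W.K (W.H P.X)} (F : Fp W P.X P.D f)
    (hls : LefStr (W.isInternal P.X) P.X.dim (LinearMap.mulLeft W.K (W.cl P.X P.D)) f)
    (hHL : HardLefschetz W P.X P.D) (hB : LefschetzB W P.X P.D)
    (hDX : HomEqNum W P.X) (hmid : transcendental W P.X ≤ W.gr P.X P.X.dim)
    (hne : (1 : W.H P.X) ≠ 0)
    (hsq : ∀ x, W552.AS W (P.X.prod P.X) x → x ≠ 0 → ∃ q : ℚ, 0 < q ∧
      bf W (P.X.prod P.X) (ops.pull (fst P.X P.X) P.D + ops.pull (snd P.X P.X) P.D)
        (extSum W f f) x x = q) :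
    ∃ (N : ℕ) (e : Fin N → W.H (nest ops n fun _ => P).X) (w : Fin N → ℚ),
      (∀ k, W552.AS W _ (e k) ∧ e k ∈ VG b) ∧ (∀ k, 0 < w k) ∧
      (∀ k l, bN ops f n (e k) (e l) = if k = l then (w k : W.K) else 0) ∧
      ∀ x ∈ VG b, x = ∑ k, ((w k : W.K)⁻¹ * bN ops f n x (e k)) • e k := by
  have hdT : W552.AS W (P.X.prod P.X) (dT s) := dT_AS hDX hmid F s
  have hdQ : W552.AS W (P.X.prod P.X) (dQ s) := by
    rw [dQ_eq hmid]
    have h1 := hdT.smul ((-1) ^ P.X.dim)
    push_cast at h1
    exact h1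
  have hp : ∀ i, AOp W P.X P.X (proj (W.isInternal P.X) i) := proj_aop F.fr.hD hHL hB
  have S : RSys W (fun _ : Fin (n + 1) => P.X) (fun _ => P.D) (fun _ => f)
      (fun _ _ => W552.AS W (P.X.prod P.X)) := by
    refine ⟨fun _ => F.fr, fun _ => hls, fun a b => W552.AS.ratSub, fun h => h,
      fun h h' => h.comp h', fun h => h.map _, fun a => AOp.one, fun a => st_aop F.fr hp,
      fun a => par_aop hp, ?_⟩
    intro a b x hx hx0
    exact hsq x hx hx0
  have hpos := coreN (n := n) S W552.AS.one (F.pos 1 W552.AS.one hne) F.fr F.sy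
  have hM : RatSub W.K (fun x : W.H (nest ops n fun _ => P).X => W552.AS W _ x ∧ x ∈ VG b) :=
    ⟨⟨W552.AS.zero, Submodule.zero_mem _⟩, fun h h' => ⟨h.1.add h'.1,
      Submodule.add_mem _ h.2 h'.2⟩, fun q _ h => ⟨h.1.smul q, Submodule.smul_mem _ _ h.2⟩⟩
  have hgel : ∀ (c₀ : Fin (n + 1) → Option (Fin s.NC)) (m : ℕ) (e : Fin m × Fin 2 ≃ Free c₀),
      W552.AS W _ (gel b c₀ e) ∧ gel b c₀ e ∈ Submodule.span W.K {c | ∃ T, Mch W
        (fun _ : Fin (n + 1) => P.X) (fun _ _ => W552.AS W (P.X.prod P.X))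
        (prj ops n fun _ => P) T c} := by
    intro c₀ m e
    obtain ⟨ε, S', i, x, hx, h⟩ := gel_mq hb hmid c₀ e
    rw [h]
    constructor
    · have h1 := (mq_AS hdQ hx).smul (ε : ℚ)
      push_cast at h1
      exact h1
    · refine Submodule.smul_mem _ _ ?_
      have h2 := mq_matching hDX hmid hx
      refine Submodule.span_mono ?_ h2
      intro c hc
      refine ⟨S', ?_⟩
      have hc' : IsMatching W (fun _ => P) S' c := hc
      clear hc h2 hx h
      induction hc' with
      | one => exact Mch.one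
      | single _ ha hx ih => exact Mch.single ih ha ((W552.AS.of hx).map _)
      | pair _ ha hb hab hx ih => exact Mch.pair ih ha hb hab (W552.AS.of hx)
  obtain ⟨N, e, w, he, hw, horth, hexp⟩ := onb_of (fN_fr F.fr n) (fN_sy F.fr F.sy n) hM
    (fun x hx => hx.1) (fun x hx hx0 => by
      refine hpos x hx.1 ?_ hx0
      refine (Submodule.span_le.2 ?_) hx.2
      rintro _ ⟨c₀, m, e, rfl⟩
      exact (hgel c₀ m e).2)
  refine ⟨N, e, w, he, hw, horth, fun x hx => hexp x ?_⟩
  refine Submodule.span_mono ?_ hx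
  rintro _ ⟨c₀, m, e, rfl⟩
  exact ⟨(hgel c₀ m e).1, Submodule.subset_span ⟨c₀, m, e, rfl⟩⟩

end

end Pool.Agent.V5helper86.AP
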