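import Pool.Agent.V5helper86.AP.Par

/-!
# Contractions of products with a class on another power are twisted classes
-/

open CategoryTheory AlgebraicGeometry Finset Function

set_option linter.unusedSectionVars false

universe u v w

namespace Pool.Agent.V5helper86.AP

open Pool.Agent.H914 Pool.Agent.H914.VarClass Pool.Agent.H914.VarClass.Obj
  Pool.Agent.H914.WeilCohomology Pool.Agent.H281R3.HT Pool.Agent.W552 Pool.Agent.H447
  Pool.Agent.TH125.Gal Pool.Agent.Y127

variable {k : Type u} [Field k] {𝒱 : VarClass k} {ops : CycleOps 𝒱}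
  {W : WeilCohomology.{u, v} ops} {P : Polarized 𝒱}

/-- classes of even degree are central -/
theorem cen_gr {X Y : 𝒱.Obj} {j : ℕ} {x : W.H X} (hx : x ∈ W.gr X (2 * j)) (g : Y ⟶ X)
    (y : W.H Y) : W.map g x * y = y * W.map g x := by
  refine gr_induction (W.isInternal Y) (p := fun y => W.map g x * y = y * W.map g x) ?_ ?_ y
  · intro i y hy
    rw [W.comm (W.map_mem g hx) hy, H281R3.HT.neg_one_pow_even, one_smul]
  · intro y y' h h'
    rw [mul_add, add_mul, h, h']

/-- the cohomology of an even-dimensional variety is central -/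
theorem cenX {X Y : 𝒱.Obj} (hDX : HomEqNum W X) (hmid : transcendental W X ≤ W.gr X X.dim)
    (heven : Even X.dim) (g : Y ⟶ X) (x : W.H X) (y : W.H Y) :
    W.map g x * y = y * W.map g x := by
  have hb : x ∈ algSpan W X ⊔ transcendental W X := by
    rw [(isCompl hDX).sup_eq_top]; exact Submodule.mem_top
  obtain ⟨c, hc, t, ht, rfl⟩ := Submodule.mem_sup.1 hb
  obtain ⟨j, hj⟩ := heven
  have ht' : t ∈ W.gr X (2 * j) := by
    have := hmid ht
    rwa [hj, ← two_mul] at this
  rw [map_add, add_mul, mul_add, alg_comm (algSpan_map g hc) y, cen_gr ht' g y]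

/-- the same for powers -/
theorem cenN {Y : 𝒱.Obj} (hDX : HomEqNum W P.X)
    (hmid : transcendental W P.X ≤ W.gr P.X P.X.dim) (heven : Even P.X.dim) {m : ℕ}
    (g : Y ⟶ (nest ops m fun _ => P).X) (v : W.H (nest ops m fun _ => P).X) (y : W.H Y) :
    W.map g v * y = y * W.map g v := by
  refine nest_ind m (p := fun v => W.map g v * y = y * W.map g v) ?_ ?_ ?_ v
  · intro x
    rw [map_mono, mono, List.ofFn_eq_map]
    generalize List.finRange (m + 1) = L
    induction L with
    | nil => rw [List.map_nil, List.prod_nil, one_mul, mul_one]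
    | cons p L ih =>
      rw [List.map_cons, List.prod_cons, mul_assoc, ih, ← mul_assoc,
        cenX hDX hmid heven (g ≫ prj ops m (fun _ => P) p) (x p) y, mul_assoc]
  · intro a b ha hb
    rw [map_add, add_mul, mul_add, ha, hb]
  · intro r a ha
    rw [map_smul, smul_mul_assoc, mul_smul_comm, ha]

section geo

variable (ops P) (n m : ℕ) (Z Ω : 𝒱.Obj)

/-- the variety carrying the correspondence -/
noncomputable abbrev YY : 𝒱.Obj :=
  (nest ops n fun _ => P).X.prod (Z.prod (Ω.prod (nest ops m fun _ => P).X))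

/-- the projection to the last power -/
noncomputable def sB : YY ops P n m Z Ω ⟶ (nest ops m fun _ => P).X :=
  snd _ (Z.prod (Ω.prod (nest ops m fun _ => P).X)) ≫
    (snd Z (Ω.prod (nest ops m fun _ => P).X) ≫ snd Ω (nest ops m fun _ => P).X)

/-- the projections to the factors of the big power -/
noncomputable def bet0 (p : Fin (n + 1 + (m + 1))) : YY ops P n m Z Ω ⟶ P.X :=
  Fin.addCases (motive := fun _ => YY ops P n m Z Ω ⟶ P.X)
    (fun i => fst _ (Z.prod (Ω.prod (nest ops m fun _ => P).X)) ≫ prj ops n (fun _ => P) i)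
    (fun j => sB ops P n m Z Ω ≫ prj ops m (fun _ => P) j) p

/-- the projection to the big power -/
noncomputable def bet : YY ops P n m Z Ω ⟶ (nest ops (n + 1 + m) fun _ => P).X :=
  nlift ops (bet0 ops P n m Z Ω)

/-- the projection to the other factors -/
noncomputable def gam : YY ops P n m Z Ω ⟶ ((nest ops n fun _ => P).X.prod Z).prod Ω :=
  Obj.lift (Obj.lift (fst _ (Z.prod (Ω.prod (nest ops m fun _ => P).X)))
    (snd _ (Z.prod (Ω.prod (nest ops m fun _ => P).X)) ≫
      fst Z (Ω.prod (nest ops m fun _ => P).X)))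
    (snd _ (Z.prod (Ω.prod (nest ops m fun _ => P).X)) ≫
      (snd Z (Ω.prod (nest ops m fun _ => P).X) ≫ fst Ω (nest ops m fun _ => P).X))

variable {ops P n m Z Ω}

theorem map_bet (x : Fin (n + 1 + m + 1) → W.H P.X) :
    W.map (bet ops P n m Z Ω) (mono (prj ops (n + 1 + m) fun _ => P) x) =
      W.map (fst _ (Z.prod (Ω.prod (nest ops m fun _ => P).X)))
        (mono (prj ops n fun _ => P) fun p => x (Fin.castAdd (m + 1) p)) *
      W.map (sB ops P n m Z Ω)
        (mono (prj ops m fun _ => P) fun p => x (Fin.natAdd (n + 1) p)) := by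
  rw [bet, map_nlift]
  refine (mono_append (n := n + 1) (m := m + 1) (bet0 ops P n m Z Ω) x).trans ?_
  rw [map_mono, map_mono]
  congr 2
  · funext p
    exact Fin.addCases_left p
  · funext p
    exact Fin.addCases_right p

theorem map_gam (a : W.H (nest ops n fun _ => P).X) (z : W.H Z) (t : W.H Ω) :
    W.map (gam ops P n m Z Ω) (W.map (fst _ Ω) (W.map (fst _ Z) a * W.map (snd _ Z) z) *
      W.map (snd _ Ω) t) =
      W.map (fst _ (Z.prod (Ω.prod (nest ops m fun _ => P).X))) a *
        W.map (snd _ (Z.prod (Ω.prod (nest ops m fun _ => P).X)))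
          (W.map (fst Z (Ω.prod (nest ops m fun _ => P).X)) z *
            W.map (snd Z (Ω.prod (nest ops m fun _ => P).X))
              (W.map (fst Ω (nest ops m fun _ => P).X) t)) := by
  rw [gam, map_mul (W.map (Obj.lift _ _)), ← W.map_comp, ← W.map_comp, Obj.lift_fst,
    Obj.lift_snd, map_mul, ← W.map_comp, ← W.map_comp, Obj.lift_fst, Obj.lift_snd, map_mul,
    ← W.map_comp, ← W.map_comp, ← W.map_comp, mul_assoc, Category.assoc]

/-- the algebraic class on `Z × (Ω × X ^ (m + 1))` -/
noncomputable def uu (E' : W.H (nest ops (n + 1 + m) fun _ => P).X)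
    (u : W.H (((nest ops n fun _ => P).X.prod Z).prod Ω)) :
    W.H (Z.prod (Ω.prod (nest ops m fun _ => P).X)) :=
  W.push (snd (nest ops n fun _ => P).X (Z.prod (Ω.prod (nest ops m fun _ => P).X)))
    (W.map (bet ops P n m Z Ω) E' * W.map (gam ops P n m Z Ω) u)

theorem uu_AS {E' : W.H (nest ops (n + 1 + m) fun _ => P).X} (hE : W552.AS W _ E')
    {u : W.H (((nest ops n fun _ => P).X.prod Z).prod Ω)} (hu : W552.AS W _ u) :
    W552.AS W _ (uu (m := m) E' u) := ((hE.map _).mul (hu.map _)).push _

/-- `uu` as a linear map -/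
noncomputable def uuL (E' : W.H (nest ops (n + 1 + m) fun _ => P).X) :
    W.H (((nest ops n fun _ => P).X.prod Z).prod Ω) →ₗ[W.K]
      W.H (Z.prod (Ω.prod (nest ops m fun _ => P).X)) :=
  (W.push (snd (nest ops n fun _ => P).X (Z.prod (Ω.prod (nest ops m fun _ => P).X)))).comp
    ((LinearMap.mulLeft W.K (W.map (bet ops P n m Z Ω) E')).comp
      (W.map (gam ops P n m Z Ω)).toLinearMap)

/-- **The contraction of the product is a twisted class.** -/
theorem cn_jo (hDX : HomEqNum W P.X)
    (hmid : transcendental W P.X ≤ W.gr P.X P.X.dim) (heven : Even P.X.dim)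
    (E' : W.H (nest ops (n + 1 + m) fun _ => P).X) (v : W.H (nest ops m fun _ => P).X)
    (ω : W.H Ω) (u : W.H (((nest ops n fun _ => P).X.prod Z).prod Ω)) :
    cn E' (jo n v Z (cnr ω u)) =
      cnr (W.map (fst Ω _) ω * W.map (snd Ω (nest ops m fun _ => P).X) v) (uu E' u) := by
  refine nest_ind (n + 1 + m) (p := fun E' => cn E' (jo n v Z (cnr ω u)) =
      cnr (W.map (fst Ω _) ω * W.map (snd Ω (nest ops m fun _ => P).X) v) (uu E' u))
    ?_ ?_ ?_ E'
  · intro x
    refine kun_ext3 (L := ((cnl (mono (prj ops (n + 1 + m) fun _ => P) x)).comp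
      (jo n v Z)).comp (cnr ω)) (L' := (cnr (W.map (fst Ω _) ω *
        W.map (snd Ω (nest ops m fun _ => P).X) v)).comp (uuL (m := m)
          (mono (prj ops (n + 1 + m) fun _ => P) x))) ?_ u
    intro a z t
    set a1 := mono (prj ops n fun _ => P) fun p => x (Fin.castAdd (m + 1) p) with ha1
    set v1 := mono (prj ops m fun _ => P) fun p => x (Fin.natAdd (n + 1) p) with hv1
    change cn (mono (prj ops (n + 1 + m) fun _ => P) x) (jo n v Z (cnr ω
        (W.map (fst _ Ω) (W.map (fst _ Z) a * W.map (snd _ Z) z) * W.map (snd _ Ω) t))) =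
      cnr (W.map (fst Ω _) ω * W.map (snd Ω (nest ops m fun _ => P).X) v)
        (W.push (snd (nest ops n fun _ => P).X (Z.prod (Ω.prod (nest ops m fun _ => P).X)))
          (W.map (bet ops P n m Z Ω) (mono (prj ops (n + 1 + m) fun _ => P) x) *
            W.map (gam ops P n m Z Ω) (W.map (fst _ Ω) (W.map (fst _ Z) a * W.map (snd _ Z) z) *
              W.map (snd _ Ω) t)))
    have e1 : mono (prj ops (n + 1 + m) fun _ => P) x * star a v = star (a1 * a) (v1 * v) := by
      rw [← star_mono, ← ha1, ← hv1, star, star, star, map_mul, map_mul, mul_assoc, mul_assoc,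
        ← mul_assoc (W.map (q2 ops P n m) v1), cenN hDX hmid heven (q2 ops P n m) v1,
        mul_assoc]
    have e2 : W.map (bet ops P n m Z Ω) (mono (prj ops (n + 1 + m) fun _ => P) x) *
        W.map (gam ops P n m Z Ω) (W.map (fst _ Ω) (W.map (fst _ Z) a * W.map (snd _ Z) z) *
          W.map (snd _ Ω) t) =
        W.map (fst _ (Z.prod (Ω.prod (nest ops m fun _ => P).X))) (a1 * a) *
          W.map (snd _ (Z.prod (Ω.prod (nest ops m fun _ => P).X)))
            (W.map (fst Z (Ω.prod (nest ops m fun _ => P).X)) z *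
              W.map (snd Z (Ω.prod (nest ops m fun _ => P).X))
                (W.map (fst Ω (nest ops m fun _ => P).X) t *
                  W.map (snd Ω (nest ops m fun _ => P).X) v1)) := by
      have e3 : W.map (sB ops P n m Z Ω) v1 =
          W.map (snd _ (Z.prod (Ω.prod (nest ops m fun _ => P).X)))
            (W.map (snd Z (Ω.prod (nest ops m fun _ => P).X))
              (W.map (snd Ω (nest ops m fun _ => P).X) v1)) := by
        rw [sB, W.map_comp, W.map_comp]
      rw [map_bet, map_gam, ← ha1, ← hv1, map_mul (W.map (fst _ _)) a1 a, mul_assoc, mul_assoc,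
        cenN hDX hmid heven (sB ops P n m Z Ω) v1, mul_assoc, e3, ← map_mul, mul_assoc,
        ← map_mul]
    rw [e2, W.push_snd, map_smul, cnr_ext, cnr_ext, map_smul, jo_ext, cn_smul, cn_ext, e1,
      tr_star]
    have e4 : W.map (fst Ω (nest ops m fun _ => P).X) t *
        W.map (snd Ω (nest ops m fun _ => P).X) v1 * (W.map (fst Ω _) ω *
          W.map (snd Ω (nest ops m fun _ => P).X) v) =
        W.map (fst Ω (nest ops m fun _ => P).X) (t * ω) *
          W.map (snd Ω (nest ops m fun _ => P).X) (v1 * v) := by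
      rw [map_mul, map_mul, mul_assoc, mul_assoc, ← mul_assoc (W.map (snd Ω _) v1),
        cenN hDX hmid heven (snd Ω _) v1, mul_assoc]
    rw [e4, W.tr_prod, smul_smul, smul_smul]
    congr 1
    ring
  · intro a b ha hb
    have h1 : cn (a + b) (jo n v Z (cnr ω u)) =
        cn a (jo n v Z (cnr ω u)) + cn b (jo n v Z (cnr ω u)) := by
      rw [cn, cn, cn, map_add, add_mul, map_add]
    have h2 : uu (m := m) (a + b) u = uu a u + uu b u := by
      rw [uu, uu, uu, map_add, add_mul, map_add]
    rw [h1, h2, ha, hb, map_add]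
  · intro r a ha
    have h1 : cn (r • a) (jo n v Z (cnr ω u)) = r • cn a (jo n v Z (cnr ω u)) := by
      rw [cn, cn, map_smul, smul_mul_assoc, map_smul]
    have h2 : uu (m := m) (r • a) u = r • uu a u := by
      rw [uu, uu, map_smul, smul_mul_assoc, map_smul]
    rw [h1, h2, ha, map_smul]

end geo

end Pool.Agent.V5helper86.AP
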