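import Pool.Agent.V5helper86.AP.Abs
import Pool.Agent.Q71.TS.Gen

/-!
# All powers: families of orthogonal type with maximal degenerations or K3 slopes
-/

open CategoryTheory AlgebraicGeometry Finset Function

set_option linter.unusedSectionVars false

universe u x

namespace Pool.Agent.V5helper86.AP

open Pool.Agent.H914 Pool.Agent.H914.VarClass Pool.Agent.H914.VarClass.Obj
  Pool.Agent.H914.WeilCohomology Pool.Agent.H281R3.HT Pool.Agent.W552 Pool.Agent.H447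
  Pool.Agent.TH125.Gal Pool.Agent.Y127 Pool.Agent.Y127.G Pool.Agent.Q71.TM Pool.Agent.Q71.TS

variable {k : Type u} [Field k] {𝒱 : VarClass k} {ops : CycleOps 𝒱}

section gen

variable {W : WeilCohomology.{u, 0} ops} {Γ : Type} [Group Γ] {χ : Γ →* W.Kˣ}
  {ι : Type} {X : ι → GVar W Γ} {m : ℕ} {M : Fin m → FRep W.K Γ} {S S' : Set ι}

/-- maps which respect the generators -/
theorem genBy_map (hG : ∀ i, GaloisType χ (X i)) {A B : 𝒱.Obj}
    {ρ : Γ →* (W.H A ≃ₐ[W.K] W.H A)} {υ : Γ →* (W.H B ≃ₐ[W.K] W.H B)}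
    (hgen : GenBy (fun j => trRep (hG j)) M χ ρ S) (hS : S ⊆ S') {φ : W.H A →ₐ[W.K] W.H B}
    (hφ : Intertwines φ ρ υ) (y : W.H A) :
    φ y ∈ Algebra.adjoin W.K (SemiInv χ υ ∪
      ({x | ∃ j ∈ S', ∃ f : (trRep (hG j)).V →ₗ[W.K] W.H B,
          (∀ g y, f ((trRep (hG j)).ρ g y) = υ g (f y)) ∧ ∃ y, f y = x} ∪
       {x | ∃ a, ∃ f : (M a).V →ₗ[W.K] W.H B,
          (∀ g y, f ((M a).ρ g y) = υ g (f y)) ∧ ∃ y, f y = x})) := by
  have hy : y ∈ Algebra.adjoin W.K (SemiInv χ ρ ∪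
      ({x | ∃ j ∈ S, ∃ f : (trRep (hG j)).V →ₗ[W.K] W.H A,
          (∀ g y, f ((trRep (hG j)).ρ g y) = ρ g (f y)) ∧ ∃ y, f y = x} ∪
       {x | ∃ a, ∃ f : (M a).V →ₗ[W.K] W.H A,
          (∀ g y, f ((M a).ρ g y) = ρ g (f y)) ∧ ∃ y, f y = x})) := by
    rw [show Algebra.adjoin W.K _ = ⊤ from hgen]
    exact Algebra.mem_top
  induction hy using Algebra.adjoin_induction with
  | mem y hy =>
    rcases hy with ⟨j, Δ, hΔ, h3⟩ | ⟨j, hj, f, hf, z, rfl⟩ | ⟨a, f, hf, z, rfl⟩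
    · refine Algebra.subset_adjoin (Or.inl ⟨j, Δ, hΔ, fun g hg => ?_⟩)
      rw [hφ g y, h3 g hg, map_smul]
    · refine Algebra.subset_adjoin (Or.inr (Or.inl ⟨j, hS hj, φ.toLinearMap ∘ₗ f,
        fun g y => ?_, z, rfl⟩))
      rw [LinearMap.comp_apply, hf]
      exact (hφ g (f y)).symm
    · refine Algebra.subset_adjoin (Or.inr (Or.inr ⟨a, φ.toLinearMap ∘ₗ f,
        fun g y => ?_, z, rfl⟩))
      rw [LinearMap.comp_apply, hf]
      exact (hφ g (f y)).symm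
  | algebraMap r => rw [AlgHom.commutes]; exact Subalgebra.algebraMap_mem _ r
  | add x y _ _ hx hy => rw [map_add]; exact Subalgebra.add_mem _ hx hy
  | mul x y _ _ hx hy => rw [map_mul]; exact Subalgebra.mul_mem _ hx hy

/-- the generation of the cohomology of products -/
theorem genBy_prod (hG : ∀ i, GaloisType χ (X i)) {A B : 𝒱.Obj}
    {ρ : Γ →* (W.H A ≃ₐ[W.K] W.H A)} {τ : Γ →* (W.H B ≃ₐ[W.K] W.H B)}
    (hA : GenBy (fun j => trRep (hG j)) M χ ρ S) (hB : GenBy (fun j => trRep (hG j)) M χ τ S')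
    {υ : Γ →* (W.H (A.prod B) ≃ₐ[W.K] W.H (A.prod B))}
    (h1 : Intertwines (W.map (fst A B)) ρ υ) (h2 : Intertwines (W.map (snd A B)) τ υ) :
    GenBy (fun j => trRep (hG j)) M χ υ (S ∪ S') := by
  unfold GenBy
  rw [eq_top_iff]
  intro c _
  rw [expand (Module.finBasis W.K (W.H A)) c]
  exact Subalgebra.sum_mem _ fun r _ => Subalgebra.mul_mem _
    (genBy_map hG hA Set.subset_union_left h1 _) (genBy_map hG hB Set.subset_union_right h2 _)

/-- the generation of the cohomology of the varieties of the family -/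
theorem genBy_self (hG : ∀ i, GaloisType χ (X i)) {i : ι} (hD : HomEqNum W (X i).X) :
    GenBy (fun j => trRep (hG j)) M χ (X i).act {i} := by
  unfold GenBy
  rw [eq_top_iff]
  intro a h0
  clear h0
  have ha : a ∈ algSpan W (X i).X ⊔ transcendental W (X i).X := by
    rw [(isCompl hD).sup_eq_top]
    exact Submodule.mem_top
  obtain ⟨a1, ha1, a2, ha2, rfl⟩ := Submodule.mem_sup.1 ha
  clear ha
  refine Subalgebra.add_mem _ ?_ ?_
  · induction ha1 using Submodule.span_induction with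
    | mem a ha =>
      obtain ⟨j, hj⟩ := Set.mem_iUnion.1 ha
      obtain ⟨Δ, hΔ, h3⟩ := (hG i).cl_fix j a hj
      exact Algebra.subset_adjoin (Or.inl ⟨j, Δ, hΔ, fun g hg => h3 g hg⟩)
    | zero => exact Subalgebra.zero_mem _
    | add x y _ _ hx hy => exact Subalgebra.add_mem _ hx hy
    | smul q x _ hx => exact Subalgebra.smul_mem _ hx q
  · exact Algebra.subset_adjoin (Or.inr (Or.inl ⟨i, Set.mem_singleton i,
      (transcendental W (X i).X).subtype, fun g y => rfl, ⟨a2, ha2⟩, rfl⟩))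

/-- the varieties whose cohomology is made of some of the parts -/
def AlG (hG : ∀ i, GaloisType χ (X i)) (M : Fin m → FRep W.K Γ) (G : Set (GVar W Γ)) :
    Set ι → Set 𝒱.Obj := fun S =>
  {B | S.Finite ∧ ∃ τ, (⟨B, τ⟩ : GVar W Γ) ∈ G ∧ GenBy (fun j => trRep (hG j)) M χ τ S}

end gen

section inv

variable {W : WeilCohomology.{u, 0} ops} {Γ : Type} [Group Γ] {χ : Γ →* W.Kˣ}
  {ι : Type} {X : ι → GVar W Γ} {Z : GVar W Γ} {l : ι → Q71.TM.Loc W.K Γ}
  {G : Set (GVar W Γ)} [IsAlgClosed W.K]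

/-- **The classes of cycles on the products with powers are invariant.** -/
theorem inv_orth (hX : Q71.TM.OrthFamily χ l X Z) (hG : GaloisClass χ G) {S : Set ι}
    (hS : S.Finite)
    {i : ι} (hXi : X i ∈ G) (hi : i ∉ S) {B : 𝒱.Obj} {τ : Γ →* (W.H B ≃ₐ[W.K] W.H B)}
    (hτ : (⟨B, τ⟩ : GVar W Γ) ∈ G) {m : ℕ}
    {M : Fin m → FRep W.K Γ} (hM : ∀ a i, SmallR (l i) (transRank W (X i).X) (M a))
    (hgb : GenBy (fun j => trRep (hX.orth j).galois) M χ τ S) (D : (X i).X.Cycles) {n : ℕ}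
    {s : SB W (X i).X}
    {b : Module.Basis (Fin (n + 1) → Fin s.NC ⊕ Fin s.NT) W.K
      (W.H (nest ops n fun _ => (⟨(X i).X, D⟩ : Polarized 𝒱)).X)}
    (hb : ∀ r, b r = mono (prj ops n fun _ => (⟨(X i).X, D⟩ : Polarized 𝒱)) fun p => s.e (r p))
    {c : W.H ((nest ops n fun _ => (⟨(X i).X, D⟩ : Polarized 𝒱)).X.prod B)}
    (hc : W552.AS W _ c) :
    InvF (gram (P := ⟨(X i).X, D⟩) s) fun r => ctr (b.coord r) c := by
  obtain ⟨υ, hυ, hP⟩ := exists_pow_act (B := ⟨B, τ⟩) hG hXi hτ D n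
  have hgal := hG.galois _ hυ
  refine W552.AS.ind (p := fun c => InvF (gram (P := ⟨(X i).X, D⟩) s) fun r =>
    ctr (b.coord r) c) ?_ ?_ hc
  · intro j c hc
    obtain ⟨Δ, hΔ, h1⟩ := hgal.cl_fix j c hc
    rw [invF_iff]
    intro c₀
    have h3 := inv_stepD hX hS hi hM hgb hP hb (z := c) (j := j) hΔ h1 c₀
    have heq : (fun r : Free c₀ → Fin s.NT => ctr (b.coord (comb c₀ r)) c) =
        fun r : Free c₀ → Fin s.NT =>
          TH125.Gal.hS (P := (⟨(X i).X, D⟩ : Polarized 𝒱)) s b c c₀ fun j => s.uT (r j) := by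
      funext r
      rw [coord_eq (P := (⟨(X i).X, D⟩ : Polarized 𝒱)) hb,
        hS_comb (P := (⟨(X i).X, D⟩ : Polarized 𝒱))]
    rw [heq]
    exact h3
  · intro x y hx hy u v J
    have h1 := hx u v J
    have h2 := hy u v J
    beta_reduce at h1 h2 ⊢
    simp only [map_add, smul_add]
    have h3 : ∀ j, qx (gram (P := ⟨(X i).X, D⟩) s) v (J j) •
          ctr (b.coord (update J j (Sum.inr u))) x +
        qx (gram (P := ⟨(X i).X, D⟩) s) v (J j) • ctr (b.coord (update J j (Sum.inr u))) y -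
        (qx (gram (P := ⟨(X i).X, D⟩) s) u (J j) • ctr (b.coord (update J j (Sum.inr v))) x +
          qx (gram (P := ⟨(X i).X, D⟩) s) u (J j) • ctr (b.coord (update J j (Sum.inr v))) y) =
        (qx (gram (P := ⟨(X i).X, D⟩) s) v (J j) • ctr (b.coord (update J j (Sum.inr u))) x -
          qx (gram (P := ⟨(X i).X, D⟩) s) u (J j) • ctr (b.coord (update J j (Sum.inr v))) x) +
        (qx (gram (P := ⟨(X i).X, D⟩) s) v (J j) • ctr (b.coord (update J j (Sum.inr u))) y -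
          qx (gram (P := ⟨(X i).X, D⟩) s) u (J j) •
            ctr (b.coord (update J j (Sum.inr v))) y) := by
      intro j
      abel
    rw [Finset.sum_congr rfl fun j _ => h3 j, Finset.sum_add_distrib, h1, h2, add_zero]

end inv

section main

variable {Λ : Type x} {V : Λ → WeilCohomology.{u, 0} ops} {l₀ : Λ} [IsAlgClosed (V l₀).K]
  {Γ : Type} [Group Γ] {χ : Γ →* (V l₀).Kˣ} {ι : Type} {X : ι → GVar (V l₀) Γ}
  {Z : GVar (V l₀) Γ} {l : ι → Q71.TM.Loc (V l₀).K Γ} {G : Set (GVar (V l₀) Γ)}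

/-- **The induction applies.** -/
theorem exists_asys (hX : Q71.TM.OrthFamily χ l X Z) (hG : GaloisClass χ G)
    (hXG : ∀ i, X i ∈ G) (hZ : Z ∈ G) {D : ∀ i, (X i).X.Cycles}
    (hpol : ∀ i, IsPolarization (V l₀) (X i).X (D i)) (E : Z.X.Cycles)
    (hT : TateConjecture χ Z) :
    ∃ Al, ASys V l₀ (fun i => (⟨(X i).X, D i⟩ : Polarized 𝒱)) ⟨Z.X, E⟩ Al := by
  obtain ⟨m, M, f, hM, hf, hgen⟩ := hX.baseRep
  have hgal := fun i => (hX.orth i).galois
  refine ⟨AlG hgal M G, ?_⟩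
  refine
    { mem := fun i => ⟨Set.finite_singleton i, (X i).act, hXG i,
        genBy_self hgal (hX.orth i).homEqNum⟩
      mem_base := ⟨Set.finite_empty, Z.act, hZ, genBy_base hgal hf hgen⟩
      prod := ?_
      pol := hpol
      even := fun i => (hX.orth i).even
      middle := fun i => (hX.orth i).middle
      one_ne := ?_
      rank := fun i => ?_
      tgt := ?_
      inv := ?_
      alg := ?_ }
  · rintro S S' A B ⟨hS, ρ, hρ, h1⟩ ⟨hS', τ, hτ, h2⟩
    obtain ⟨υ, e1, e2, hυ⟩ := hG.prod' hρ hτ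
    exact ⟨hS.union hS', υ, hυ, genBy_prod hgal h1 h2 e1 e2⟩
  · intro i h3
    have h1 := (hX.orth i).rank
    have h4 : Subsingleton (transcendental (V l₀) (X i).X) := by
      refine ⟨fun x y => Subtype.ext ?_⟩
      have h5 : ∀ z : (V l₀).H (X i).X, z = 0 := fun z => by
        rw [← one_mul z]
        exact (congrArg (· * z) h3).trans (zero_mul z)
      rw [h5 x, h5 y]
    have h5 : transRank (V l₀) (X i).X = 0 := Module.finrank_zero_of_subsingleton
    omega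
  · have h1 := (hX.orth i).rank
    show 3 ≤ transRank (V l₀) (X i).X
    omega
  · rintro S i B n hi ⟨hS, τ, hτ, hgb⟩ hn
    exact tgt_of_alg hX hG hS (hXG i) hi hτ hM hgb (D i) hn
  · rintro S i B hi ⟨hS, τ, hτ, hgb⟩ n s b hb c hc
    exact inv_orth hX hG hS (hXG i) hi hτ hM hgb (D i) hb hc
  · rintro S Ω ω d e ⟨hS, τ, hτ, hgb⟩ hTD z hz
    obtain ⟨Θ, hΘ, h1⟩ := hTD.sq
    obtain ⟨Δ, hΔ, hfix⟩ := semi (Ω := ⟨Ω, τ⟩) hG hτ (hTD.deg l₀) (hΘ.as l₀)
      (d := ((d : ℚ) : (V l₀).K)) (by exact_mod_cast hTD.pos.ne') (h1 l₀)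
    exact ts_alg (Ω := ⟨Ω, τ⟩) hG hZ hτ hT (hTD.deg l₀) hΔ hfix hz

end main

end Pool.Agent.V5helper86.AP
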