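import Pool.Agent.TH125.Gal.Nst

/-!
# Powers of a polarized variety: projections to smaller powers, forms and traces of monomials
-/

open CategoryTheory AlgebraicGeometry Finset

set_option linter.unusedSectionVars false

universe u v w

namespace Pool.Agent.V5helper86.AP

open Pool.Agent.H914 Pool.Agent.H914.VarClass Pool.Agent.H914.VarClass.Obj
  Pool.Agent.H914.WeilCohomology Pool.Agent.H281R3.HT Pool.Agent.W552 Pool.Agent.H447
  Pool.Agent.TH125.Gal

variable {k : Type u} [Field k] {𝒱 : VarClass k} {ops : CycleOps 𝒱}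
  {W : WeilCohomology.{u, v} ops} {P : Polarized 𝒱}

/-- the morphism to a power given by morphisms to the factors -/
noncomputable def nlift (ops : CycleOps 𝒱) {P : Polarized 𝒱} {Y : 𝒱.Obj} :
    {n : ℕ} → (Fin (n + 1) → (Y ⟶ P.X)) → (Y ⟶ (nest ops n fun _ => P).X)
  | 0, f => f 0
  | _ + 1, f => Obj.lift (f 0) (nlift ops fun i => f i.succ)

theorem nlift_prj {Y : 𝒱.Obj} {n : ℕ} (f : Fin (n + 1) → (Y ⟶ P.X)) (p : Fin (n + 1)) :
    nlift ops f ≫ prj ops n (fun _ => P) p = f p := by
  induction n with
  | zero =>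
    obtain rfl : p = 0 := Fin.eq_zero p
    exact Category.comp_id _
  | succ n ih =>
    refine Fin.cases ?_ (fun i => ?_) p
    · exact Obj.lift_fst _ _
    · have h1 : Obj.lift (f 0) (nlift ops fun i => f i.succ) ≫
          (snd P.X (nest ops n fun _ => P).X ≫ prj ops n (fun _ => P) i) = f i.succ := by
        rw [← Category.assoc, Obj.lift_snd]
        exact ih _ _
      exact h1

theorem map_nlift {Y : 𝒱.Obj} {n : ℕ} (f : Fin (n + 1) → (Y ⟶ P.X))
    (x : Fin (n + 1) → W.H P.X) :
    W.map (nlift ops f) (mono (prj ops n fun _ => P) x) = mono f x := by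
  rw [map_mono]
  congr 1
  funext p
  exact nlift_prj f p

theorem mono_append {Y X : 𝒱.Obj} {n m : ℕ} (π : Fin (n + m) → (Y ⟶ X))
    (x : Fin (n + m) → W.H X) :
    mono π x = mono (fun p => π (Fin.castAdd m p)) (fun p => x (Fin.castAdd m p)) *
      mono (fun p => π (Fin.natAdd n p)) (fun p => x (Fin.natAdd n p)) := by
  rw [mono, mono, mono, ← List.prod_append, List.ofFn_add]
  rfl

/-- the cohomology of a power is generated by monomials -/
theorem nest_ind (n : ℕ) {p : W.H (nest ops n fun _ => P).X → Prop}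
    (h : ∀ x : Fin (n + 1) → W.H P.X, p (mono (prj ops n fun _ => P) x))
    (hadd : ∀ a b, p a → p b → p (a + b)) (hsmul : ∀ (r : W.K) a, p a → p (r • a))
    (a : W.H (nest ops n fun _ => P).X) : p a := by
  obtain ⟨b, hb⟩ := exists_monoBasis (ops := ops) P (Module.finBasis W.K (W.H P.X)) n
  have h0 : p 0 := by
    have := hsmul 0 _ (h fun _ => 0)
    rwa [zero_smul] at this
  rw [← b.sum_repr a]
  refine Finset.sum_induction _ p hadd h0 fun r _ => ?_
  rw [hb]
  exact hsmul _ _ (h _)

theorem mono_nest_succ {n : ℕ} (x : Fin (n + 1 + 1) → W.H P.X) :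
    mono (prj ops (n + 1) fun _ => P) x =
      W.map (fst P.X (nest ops n fun _ => P).X) (x 0) *
        W.map (snd P.X (nest ops n fun _ => P).X)
          (mono (prj ops n fun _ => P) fun p => x p.succ) := by
  rw [map_mono]
  exact mono_succ (prj ops (n + 1) fun _ => P) x

/-- the trace of a monomial -/
theorem tr_mono' (n : ℕ) (x : Fin (n + 1) → W.H P.X) :
    W.tr (nest ops n fun _ => P).X (mono (prj ops n fun _ => P) x) = ∏ p, W.tr P.X (x p) := by
  induction n with
  | zero =>
    rw [Fin.prod_univ_one]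
    exact congrArg (W.tr P.X) ((mono_one (prj ops 0 fun _ => P) x).trans (W.map_id P.X (x 0)))
  | succ n ih =>
    rw [Fin.prod_univ_succ, ← ih]
    exact (congrArg (W.tr (P.X.prod (nest ops n fun _ => P).X)) (mono_nest_succ x)).trans
      (W.tr_prod _ _)

/-- the lowering operators of the powers -/
noncomputable def fN (ops : CycleOps 𝒱) {W : WeilCohomology.{u, v} ops} {P : Polarized 𝒱}
    (f : Module.End W.K (W.H P.X)) : (n : ℕ) → Module.End W.K (W.H (nest ops n fun _ => P).X)
  | 0 => f
  | n + 1 => extSum W f (fN ops f n)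

theorem fN_fr {f : Module.End W.K (W.H P.X)} (F : Fr W P.X P.D f) (n : ℕ) :
    Fr W (nest ops n fun _ => P).X (nest ops n fun _ => P).D (fN ops f n) := by
  induction n with
  | zero => exact F
  | succ n ih => exact F.prod ih

theorem fN_sy {f : Module.End W.K (W.H P.X)} (F : Fr W P.X P.D f) (hS : Sy W P.X P.D f) (n : ℕ) :
    Sy W (nest ops n fun _ => P).X (nest ops n fun _ => P).D (fN ops f n) := by
  induction n with
  | zero => exact hS
  | succ n ih => exact hS.prod F (fN_fr F n) ih

/-- the form on a power -/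
noncomputable abbrev bN (ops : CycleOps 𝒱) {W : WeilCohomology.{u, v} ops} {P : Polarized 𝒱}
    (f : Module.End W.K (W.H P.X)) (n : ℕ) :
    W.H (nest ops n fun _ => P).X →ₗ[W.K] W.H (nest ops n fun _ => P).X →ₗ[W.K] W.K :=
  bf W (nest ops n fun _ => P).X (nest ops n fun _ => P).D (fN ops f n)

/-- the form on monomials -/
theorem bf_mono {f : Module.End W.K (W.H P.X)} (F : Fr W P.X P.D f) (n : ℕ)
    (x y : Fin (n + 1) → W.H P.X) :
    bN ops f n (mono (prj ops n fun _ => P) x) (mono (prj ops n fun _ => P) y) =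
      ∏ p, bf W P.X P.D f (x p) (y p) := by
  induction n with
  | zero =>
    rw [Fin.prod_univ_one]
    exact congrArg₂ (fun a b => bf W P.X P.D f a b)
      ((mono_one (prj ops 0 fun _ => P) x).trans (W.map_id P.X (x 0)))
      ((mono_one (prj ops 0 fun _ => P) y).trans (W.map_id P.X (y 0)))
  | succ n ih =>
    rw [Fin.prod_univ_succ, ← ih]
    have h1 := F.bf_ext (fN_fr F n) (x 0) (y 0) (mono (prj ops n fun _ => P) fun p => x p.succ)
      (mono (prj ops n fun _ => P) fun p => y p.succ)
    refine Eq.trans ?_ h1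
    exact congrArg₂ (fun a b => bf W (P.X.prod (nest ops n fun _ => P).X)
      (ops.pull (fst P.X (nest ops n fun _ => P).X) P.D +
        ops.pull (snd P.X (nest ops n fun _ => P).X) (nest ops n fun _ => P).D)
      (extSum W f (fN ops f n)) a b) (mono_nest_succ x) (mono_nest_succ y)

/-- the form on a power in coordinates -/
theorem exists_nestN {f : Module.End W.K (W.H P.X)} (F : Fr W P.X P.D f) (hb : HB W P.X) (n : ℕ) :
    ∃ l : List (Fin (n + 1)), l.Nodup ∧ (∀ a, a ∈ l) ∧ ∀ (r u : Idx (fun _ => hb.N) l),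
        bN ops f n
          (mon (fun a p => W.map (prj ops n (fun _ => P) a) (hb.e p)) l r)
          (mon (fun a p => W.map (prj ops n (fun _ => P) a) (hb.e p)) l u) =
        Kron (fun _ => (Matrix.of fun p q => bf W P.X P.D f
          (hb.e p) (hb.e q) : Matrix (Fin hb.N) (Fin hb.N) W.K)) l r u := by
  induction n with
  | zero =>
    refine ⟨[0], List.nodup_singleton 0, fun a => ?_, ?_⟩
    · obtain rfl : a = 0 := Fin.eq_zero a
      exact List.mem_singleton_self 0
    · rintro ⟨p, r⟩ ⟨q, u⟩
      change bf W P.X P.D f (W.map (𝟙 P.X) (hb.e p) * 1)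
        (W.map (𝟙 P.X) (hb.e q) * 1) = bf W P.X P.D f (hb.e p)
          (hb.e q) * 1
      rw [W.map_id, W.map_id, mul_one, mul_one, mul_one]
  | succ n ih =>
    obtain ⟨l, hl, hla, hB⟩ := ih
    refine ⟨0 :: l.map Fin.succ, ?_, ?_, ?_⟩
    · rw [List.nodup_cons]
      refine ⟨?_, hl.map (Fin.succ_injective _)⟩
      intro h0
      obtain ⟨i, _, hi⟩ := List.mem_map.1 h0
      exact Fin.succ_ne_zero i hi
    · intro a
      refine Fin.cases ?_ (fun i => ?_) a
      · exact List.mem_cons_self
      · exact List.mem_cons_of_mem _ (List.mem_map_of_mem (hla i))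
    · exact nest_step (N := fun _ => hb.N) F (fN_fr F n)
        (fun a p => W.map (prj ops (n + 1) (fun _ => P) a) (hb.e p)) (fun p => hb.e p)
        (fun a p => W.map (prj ops n (fun _ => P) a) (hb.e p))
        (fun p => rfl) (fun a p => W.map_comp _ _ _) (fun p q => rfl) hB

/-- Positivity on the span of the products of pull-backs of classes of a system. -/
theorem coreN {n : ℕ} {f : Module.End W.K (W.H P.X)} {R : W.H (P.X.prod P.X) → Prop}
    (S : RSys W (fun _ : Fin (n + 1) => P.X) (fun _ => P.D) (fun _ => f) (fun _ _ => R))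
    (h1 : R 1) (hpos : ∃ q : ℚ, 0 < q ∧ bf W P.X P.D f 1 1 = q)
    (F : Fr W P.X P.D f) (hSy : Sy W P.X P.D f) :
      ∀ z : W.H (nest ops n fun _ => P).X, W552.AS W _ z →
      z ∈ Submodule.span W.K {c | ∃ T, Mch W (fun _ : Fin (n + 1) => P.X) (fun _ _ => R)
        (prj ops n fun _ => P) T c} →
      z ≠ 0 → ∃ q : ℚ, 0 < q ∧ bN ops f n z z = q := by
  obtain ⟨l₀, hl₀, hla, hB⟩ := exists_nestN (ops := ops) F (exists_HB W P.X).some n
  exact core_aux S (fun _ => h1) (fun _ => hpos) (fun _ => (exists_HB W P.X).some) (fN_fr F n)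
    (fN_sy F hSy n) hl₀ hla hB

section star

/-- the projection to the first factors -/
noncomputable def q1 (ops : CycleOps 𝒱) (P : Polarized 𝒱) (n m : ℕ) :
    (nest ops (n + 1 + m) fun _ => P).X ⟶ (nest ops n fun _ => P).X :=
  nlift ops fun p : Fin (n + 1) => prj ops (n + 1 + m) (fun _ => P) (Fin.castAdd (m + 1) p)

/-- the projection to the last factors -/
noncomputable def q2 (ops : CycleOps 𝒱) (P : Polarized 𝒱) (n m : ℕ) :
    (nest ops (n + 1 + m) fun _ => P).X ⟶ (nest ops m fun _ => P).X :=
  nlift ops fun p : Fin (m + 1) => prj ops (n + 1 + m) (fun _ => P) (Fin.natAdd (n + 1) p)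

/-- the product of classes on two powers -/
noncomputable def star {n m : ℕ} (a : W.H (nest ops n fun _ => P).X)
    (v : W.H (nest ops m fun _ => P).X) : W.H (nest ops (n + 1 + m) fun _ => P).X :=
  W.map (q1 ops P n m) a * W.map (q2 ops P n m) v

theorem star_mono {n m : ℕ} (x : Fin (n + 1 + m + 1) → W.H P.X) :
    star (mono (prj ops n fun _ => P) fun p => x (Fin.castAdd (m + 1) p))
      (mono (prj ops m fun _ => P) fun p => x (Fin.natAdd (n + 1) p)) =
      mono (prj ops (n + 1 + m) fun _ => P) x := by
  rw [star, q1, q2, map_nlift, map_nlift]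
  exact (mono_append (n := n + 1) (m := m + 1) (prj ops (n + 1 + m) fun _ => P) x).symm

theorem star_mono' {n m : ℕ} (x : Fin (n + 1) → W.H P.X) (y : Fin (m + 1) → W.H P.X) :
    star (mono (prj ops n fun _ => P) x) (mono (prj ops m fun _ => P) y) =
      mono (prj ops (n + 1 + m) fun _ => P) (Fin.append x y : Fin (n + 1 + (m + 1)) → W.H P.X) := by
  have h := star_mono (ops := ops) (n := n) (m := m) (P := P)
    (Fin.append x y : Fin (n + 1 + (m + 1)) → W.H P.X)
  rw [← h]
  congr 2
  · funext p
    exact (Fin.append_left x y p).symm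
  · funext p
    exact (Fin.append_right x y p).symm

theorem star_add_left {n m : ℕ} (a a' : W.H (nest ops n fun _ => P).X)
    (v : W.H (nest ops m fun _ => P).X) : star (a + a') v = star a v + star a' v := by
  rw [star, map_add, add_mul]; rfl

theorem star_add_right {n m : ℕ} (a : W.H (nest ops n fun _ => P).X)
    (v v' : W.H (nest ops m fun _ => P).X) : star a (v + v') = star a v + star a v' := by
  rw [star, map_add, mul_add]; rfl

theorem star_smul_left {n m : ℕ} (r : W.K) (a : W.H (nest ops n fun _ => P).X)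
    (v : W.H (nest ops m fun _ => P).X) : star (r • a) v = r • star a v := by
  rw [star, map_smul, smul_mul_assoc]; rfl

theorem star_smul_right {n m : ℕ} (r : W.K) (a : W.H (nest ops n fun _ => P).X)
    (v : W.H (nest ops m fun _ => P).X) : star a (r • v) = r • star a v := by
  rw [star, map_smul, mul_smul_comm]; rfl

/-- induction on both classes -/
theorem nest_ind2 {n m : ℕ} {p : W.H (nest ops n fun _ => P).X → W.H (nest ops m fun _ => P).X →
      Prop}
    (h : ∀ x y, p (mono (prj ops n fun _ => P) x) (mono (prj ops m fun _ => P) y))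
    (h1 : ∀ a a' v, p a v → p a' v → p (a + a') v)
    (h2 : ∀ (r : W.K) a v, p a v → p (r • a) v)
    (h3 : ∀ a v v', p a v → p a v' → p a (v + v'))
    (h4 : ∀ (r : W.K) a v, p a v → p a (r • v)) (a : W.H (nest ops n fun _ => P).X)
    (v : W.H (nest ops m fun _ => P).X) : p a v := by
  refine nest_ind n (p := fun a => p a v) (fun x => ?_) (fun a a' => h1 a a' v)
    (fun r a => h2 r a v) a
  exact nest_ind m (p := fun v => p _ v) (fun y => h x y) (fun a a' => h3 _ a a')
    (fun r a => h4 r _ a) v

theorem tr_star {n m : ℕ} (a : W.H (nest ops n fun _ => P).X)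
    (v : W.H (nest ops m fun _ => P).X) :
    W.tr _ (star a v) = W.tr _ a * W.tr _ v := by
  refine nest_ind2 (p := fun a v => W.tr _ (star a v) = W.tr _ a * W.tr _ v) ?_ ?_ ?_ ?_ ?_ a v
  · intro x y
    rw [star_mono', tr_mono', tr_mono', tr_mono']
    refine (Fin.prod_univ_add (a := n + 1) (b := m + 1) _).trans ?_
    congr 1
    · refine Finset.prod_congr rfl fun p _ => ?_
      rw [Fin.append_left]
    · refine Finset.prod_congr rfl fun p _ => ?_
      rw [Fin.append_right]
  · intro a a' v h h'
    rw [star_add_left, map_add, map_add, h, h', add_mul]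
  · intro r a v h
    rw [star_smul_left, map_smul, map_smul, h, smul_eq_mul, smul_eq_mul, mul_assoc]
  · intro a v v' h h'
    rw [star_add_right, map_add, map_add, h, h', mul_add]
  · intro r a v h
    rw [star_smul_right, map_smul, map_smul, h, smul_eq_mul, smul_eq_mul, mul_left_comm]

/-- **The form on products.** -/
theorem bf_star {f : Module.End W.K (W.H P.X)} (F : Fr W P.X P.D f) {n m : ℕ}
    (a a' : W.H (nest ops n fun _ => P).X) (v v' : W.H (nest ops m fun _ => P).X) :
    bN ops f (n + 1 + m) (star a v) (star a' v') = bN ops f n a a' * bN ops f m v v' := by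
  refine nest_ind2 (p := fun a v => bN ops f (n + 1 + m) (star a v) (star a' v') =
    bN ops f n a a' * bN ops f m v v') ?_ ?_ ?_ ?_ ?_ a v
  · intro x y
    refine nest_ind2 (p := fun a' v' => bN ops f (n + 1 + m)
      (star (mono (prj ops n fun _ => P) x) (mono (prj ops m fun _ => P) y)) (star a' v') =
      bN ops f n (mono (prj ops n fun _ => P) x) a' * bN ops f m (mono (prj ops m fun _ => P) y)
        v') ?_ ?_ ?_ ?_ ?_ a' v'
    · intro x' y'
      rw [star_mono', star_mono', bf_mono F, bf_mono F, bf_mono F]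
      refine (Fin.prod_univ_add (a := n + 1) (b := m + 1) _).trans ?_
      congr 1
      · refine Finset.prod_congr rfl fun p _ => ?_
        rw [Fin.append_left, Fin.append_left]
      · refine Finset.prod_congr rfl fun p _ => ?_
        rw [Fin.append_right, Fin.append_right]
    · intro a a' v h h'
      rw [star_add_left, map_add, map_add, h, h', add_mul]
    · intro r a v h
      rw [star_smul_left, map_smul, map_smul, h, smul_eq_mul, smul_eq_mul, mul_assoc]
    · intro a v v' h h'
      rw [star_add_right, map_add, map_add, h, h', mul_add]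
    · intro r a v h
      rw [star_smul_right, map_smul, map_smul, h, smul_eq_mul, smul_eq_mul, mul_left_comm]
  · intro a a' v h h'
    rw [star_add_left, map_add, LinearMap.add_apply, map_add, LinearMap.add_apply, h, h', add_mul]
  · intro r a v h
    rw [star_smul_left, map_smul, LinearMap.smul_apply, map_smul, LinearMap.smul_apply, h,
      smul_eq_mul, smul_eq_mul, mul_assoc]
  · intro a v v' h h'
    rw [star_add_right, map_add, LinearMap.add_apply, map_add, LinearMap.add_apply, h, h',
      mul_add]
  · intro r a v h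
    rw [star_smul_right, map_smul, LinearMap.smul_apply, map_smul, LinearMap.smul_apply, h,
      smul_eq_mul, smul_eq_mul, mul_left_comm]

/-- the basis of monomials of the product -/
theorem star_basis {J : Type} [Fintype J] {e : Module.Basis J W.K (W.H P.X)} {n m : ℕ}
    {b : Module.Basis (Fin (n + 1) → J) W.K (W.H (nest ops n fun _ => P).X)}
    (hb : ∀ r, b r = mono (prj ops n fun _ => P) fun p => e (r p))
    {b' : Module.Basis (Fin (m + 1) → J) W.K (W.H (nest ops m fun _ => P).X)}
    (hb' : ∀ r, b' r = mono (prj ops m fun _ => P) fun p => e (r p))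
    {B : Module.Basis (Fin (n + 1 + m + 1) → J) W.K (W.H (nest ops (n + 1 + m) fun _ => P).X)}
    (hB : ∀ r, B r = mono (prj ops (n + 1 + m) fun _ => P) fun p => e (r p))
    (R : Fin (n + 1 + m + 1) → J) :
    B R = star (b fun p => R (Fin.castAdd (m + 1) p)) (b' fun p => R (Fin.natAdd (n + 1) p)) := by
  rw [hB, hb, hb', ← star_mono]

end star

end Pool.Agent.V5helper86.AP
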