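import Pool.Agent.V5helper86.AP.Bas
import Pool.Agent.TH125.Gal.Twr

/-!
# Invariance of the classes of cycles on products with powers
-/

open CategoryTheory AlgebraicGeometry Finset Function

set_option linter.unusedSectionVars false

universe u v w x

namespace Pool.Agent.V5helper86.AP

open Pool.Agent.H914 Pool.Agent.H914.VarClass Pool.Agent.H914.VarClass.Obj
  Pool.Agent.H914.WeilCohomology Pool.Agent.H281R3.HT Pool.Agent.W552 Pool.Agent.H447
  Pool.Agent.TH125.Gal Pool.Agent.Y127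

variable {k : Type u} [Field k] {𝒱 : VarClass k} {ops : CycleOps 𝒱}
  {W : WeilCohomology.{u, v} ops}

/-- Semi-invariant classes are invariant under the Lie algebra. -/
theorem inv_node {P : Polarized 𝒱} {n : ℕ} {Z : 𝒱.Obj} {s : SB W P.X}
    {b : Module.Basis (Fin (n + 1) → Fin s.NC ⊕ Fin s.NT) W.K (W.H (nest ops n fun _ => P).X)}
    (hb : ∀ r, b r = mono (prj ops n fun _ => P) fun p => s.e (r p))
    {Γ : Type w} [Group Γ] {χ : Γ →* W.Kˣ} {ρ : Γ →* (W.H P.X ≃ₐ[W.K] W.H P.X)}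
    {τ : Γ →* (W.H Z ≃ₐ[W.K] W.H Z)}
    {υ : Γ →* (W.H ((nest ops n fun _ => P).X.prod Z) ≃ₐ[W.K]
      W.H ((nest ops n fun _ => P).X.prod Z))}
    (hDX : HomEqNum W P.X) (hmid : transcendental W P.X ≤ W.gr P.X P.X.dim)
    (heven : Even P.X.dim)
    (hG : IsGalois W χ P.X ρ) (hP : IsPowAct W P n Z ρ τ υ)
    (hirr : StronglyIrreducible ρ (transcendental W P.X)) {g : Γ} (hχ : χ g = 1) (hτ : τ g = 1)
    (hPL : PicardLefschetz W P.X (ρ g)) (hK : FewRoots W.K)
    (hdim : 2 ≤ Module.finrank W.K (transcendental W P.X))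
    {c : W.H ((nest ops n fun _ => P).X.prod Z)} {j : ℕ} {Δ : Subgroup Γ} (hΔ : Δ.FiniteIndex)
    (hc : ∀ g ∈ Δ, υ g c = (χ g : W.K) ^ j • c) :
    InvF (gram s) fun r => ctr (b.coord r) c := by
  rw [invF_iff]
  intro c₀
  obtain ⟨δ, hδ, hδ0, x, hx, hgx⟩ := hPL
  have hsy : ∀ a b : transcendental W P.X, rform W P.X (transcendental W P.X) a b =
      ((1 : ℤ) : W.K) * rform W P.X (transcendental W P.X) b a := by
    intro a b
    rw [rform_apply, rform_apply, trans_symm hmid a.2 b.2, heven.neg_one_pow, Int.cast_one]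
  have heq : (fun r : Free c₀ → Fin s.NT => ctr (b.coord (comb c₀ r)) c) =
      fun r : Free c₀ → Fin s.NT => hS s b c c₀ fun j => s.uT (r j) := by
    funext r
    rw [coord_eq hb, hS_comb]
  have hkill : ∀ u v, Kill (rk (rform W P.X (transcendental W P.X)) v u -
      (1 : W.K) • rk (rform W P.X (transcendental W P.X)) u v) (hS s b c c₀) := by
    intro u v
    have h1 := (all_mem (S := Free c₀) (s := 1)
      (μ := fun g => (χ g : W.K) ^ P.X.dim) (B := rform W P.X (transcendental W P.X))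
      (Or.inl rfl) hsy
      (trans_nondeg hDX) (fun g => pow_ne_zero _ (Units.ne_zero _))
      (fun g a b => bil_act hG g a b) (SI_rhoT hG hirr) (g := g) (δ := ⟨δ, hδ⟩) (c := x)
      (fun h => hδ0 (congrArg Subtype.val h)) hx
      (fun t => Subtype.ext (hgx t t.2))
      (by rw [hχ, Units.val_one, one_pow])
      (σ := twist (lamb χ s c₀ j) τ)
      (by
        apply LinearMap.ext
        intro z
        rw [twist_apply, lamb_apply, hχ, hτ]
        simp)
      (fun _ => ⟨hK, hdim⟩) u v).2 _ (hS_eqv hb hG hP hΔ hc c₀)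
    rw [Int.cast_one] at h1
    exact h1
  have h1 := inv_of_kill (s := (1 : W.K)) hkill s.uT
  rw [← heq] at h1
  exact h1

/-- **The classes of cycles on products with powers of a variety with a nodal reduction.** -/
theorem inv_AS {Γ : Type w} [Group Γ] {χ : Γ →* W.Kˣ} {G : Set (GVar W Γ)}
    (hG : GaloisClass χ G) {A B : GVar W Γ} (hA : A ∈ G) (hB : B ∈ G) {D : A.X.Cycles}
    (hDX : HomEqNum W A.X) (hmid : transcendental W A.X ≤ W.gr A.X A.X.dim)
    (heven : Even A.X.dim) (hirr : IrredAct A.act (transcendental W A.X)) {g : Γ}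
    (hPL : PLVar A g) (hχ : χ g = 1) (hg : TrivAct B.act g) (hK : FewRoots W.K)
    (hdim : 2 ≤ transRank W A.X) {n : ℕ} {s : SB W A.X}
    {b : Module.Basis (Fin (n + 1) → Fin s.NC ⊕ Fin s.NT) W.K
      (W.H (nest ops n fun _ => (⟨A.X, D⟩ : Polarized 𝒱)).X)}
    (hb : ∀ r, b r = mono (prj ops n fun _ => (⟨A.X, D⟩ : Polarized 𝒱)) fun p => s.e (r p))
    {c : W.H ((nest ops n fun _ => (⟨A.X, D⟩ : Polarized 𝒱)).X.prod B.X)}
    (hc : W552.AS W _ c) :
    InvF (gram (P := ⟨A.X, D⟩) s) fun r => ctr (b.coord r) c := by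
  obtain ⟨υ, hυ, hP⟩ := exists_pow_act hG hA hB D n
  have hgal := hG.galois _ hυ
  refine W552.AS.ind (p := fun c => InvF (gram (P := ⟨A.X, D⟩) s) fun r => ctr (b.coord r) c)
    ?_ ?_ hc
  · intro j c hc
    obtain ⟨Δ, hΔ, h1⟩ := hgal.cl_fix j c hc
    exact inv_node (P := ⟨A.X, D⟩) hb hDX hmid heven (isGalois (hG.galois A hA)) hP hirr hχ
      (trivAct.1 hg) hPL hK hdim hΔ h1
  · intro x y hx hy u v J
    have h1 := hx u v J
    have h2 := hy u v J
    beta_reduce at h1 h2 ⊢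
    simp only [map_add, smul_add]
    have h3 : ∀ j, qx (gram (P := ⟨A.X, D⟩) s) v (J j) • ctr (b.coord (update J j (Sum.inr u))) x +
        qx (gram (P := ⟨A.X, D⟩) s) v (J j) • ctr (b.coord (update J j (Sum.inr u))) y -
        (qx (gram (P := ⟨A.X, D⟩) s) u (J j) • ctr (b.coord (update J j (Sum.inr v))) x +
          qx (gram (P := ⟨A.X, D⟩) s) u (J j) • ctr (b.coord (update J j (Sum.inr v))) y) =
        (qx (gram (P := ⟨A.X, D⟩) s) v (J j) • ctr (b.coord (update J j (Sum.inr u))) x -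
          qx (gram (P := ⟨A.X, D⟩) s) u (J j) • ctr (b.coord (update J j (Sum.inr v))) x) +
        (qx (gram (P := ⟨A.X, D⟩) s) v (J j) • ctr (b.coord (update J j (Sum.inr u))) y -
          qx (gram (P := ⟨A.X, D⟩) s) u (J j) • ctr (b.coord (update J j (Sum.inr v))) y) := by
      intro j
      abel
    rw [Finset.sum_congr rfl fun j _ => h3 j, Finset.sum_add_distrib, h1, h2, add_zero]

end Pool.Agent.V5helper86.AP
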