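import Pool.Agent.V5helper86.AP.Gel

/-!
# The even and the odd part of a class, and products with a class on another power
-/

open CategoryTheory AlgebraicGeometry Finset Function

set_option linter.unusedSectionVars false

universe u v w

namespace Pool.Agent.V5helper86.AP

open Pool.Agent.H914 Pool.Agent.H914.VarClass Pool.Agent.H914.VarClass.Obj
  Pool.Agent.H914.WeilCohomology Pool.Agent.H281R3.HT Pool.Agent.W552 Pool.Agent.H447
  Pool.Agent.TH125.Gal Pool.Agent.Y127

variable {k : Type u} [Field k] {𝒱 : VarClass k} {ops : CycleOps 𝒱}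
  {W : WeilCohomology.{u, v} ops} {P : Polarized 𝒱} {s : SB W P.X}

section basis

variable (hmid : transcendental W P.X ≤ W.gr P.X P.X.dim) (heven : Even P.X.dim)
  {o : Fin s.NT} (ho : ∀ q, q ≠ o → gram s o q = 0)
  {R : Matrix (Fin s.NT) (Fin s.NT) W.K} (hR : gram s * R = 1)

include ho hR in
theorem gram_oo : gram s o o ≠ 0 := by
  intro h
  have h1 : (gram s * R) o o = 1 := by rw [hR, Matrix.one_apply_eq]
  rw [Matrix.mul_apply, Finset.sum_eq_single o] at h1
  · rw [h, zero_mul] at h1
    exact zero_ne_one h1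
  · intro q _ hq
    rw [ho q hq, zero_mul]
  · intro h2
    exact absurd (Finset.mem_univ _) h2

include hmid heven ho in
theorem uT_o : (s.uT o : W.H P.X) = gram s o o • (s.bT o : W.H P.X) := by
  conv_lhs => rw [s.expand_T (s.uT o).2]
  rw [Finset.sum_eq_single o]
  · rfl
  · intro q _ hq
    have h1 : bil W P.X (s.uT q) (s.uT o) = 0 := by
      have h2 : gram s q o = 0 := by rw [gram_symm hmid heven, ho q hq]
      exact h2
    rw [h1, zero_smul]
  · intro h2
    exact absurd (Finset.mem_univ _) h2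

include hmid heven ho hR in
theorem bil_bT_o {q : Fin s.NT} (hq : q ≠ o) : bil W P.X (s.bT o) (s.bT q) = 0 := by
  have h1 := s.uT_bT o q
  rw [uT_o hmid heven ho, map_smul, LinearMap.smul_apply, if_neg hq, smul_eq_mul] at h1
  exact (mul_eq_zero.1 h1).resolve_left (gram_oo ho hR)

variable {f : Module.End W.K (W.H P.X)} (F : Fp W P.X P.D f)

include hmid heven ho hR F in
theorem bf_e {i : Fin s.NC ⊕ Fin s.NT} (hi : i ≠ Sum.inr o) :
    bf W P.X P.D f (s.e i) (s.e (Sum.inr o)) = 0 ∧
      bf W P.X P.D f (s.e (Sum.inr o)) (s.e i) = 0 := by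
  rw [s.e_inr]
  cases i with
  | inl i =>
    rw [s.e_inl]
    constructor
    · rw [bf_trans hmid F _ (s.bT o).2, alg_trans (s.bT o).2 (s.bC i).2, mul_zero]
    · rw [bf_apply, ← bil_apply]
      exact trans_alg (s.bT o).2 (as_algSpan (F.fr.st_AS (W552.AS.of (s.alg i))))
  | inr q =>
    have hq : q ≠ o := fun h => hi (by rw [h])
    rw [s.e_inr]
    constructor
    · rw [bf_trans hmid F _ (s.bT o).2, trans_symm hmid (s.bT q).2 (s.bT o).2,
        bil_bT_o hmid heven ho hR hq, mul_zero, mul_zero]
    · rw [bf_trans hmid F _ (s.bT q).2, bil_bT_o hmid heven ho hR hq, mul_zero]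

variable {n : ℕ}
  {b : Module.Basis (Fin (n + 1) → Fin s.NC ⊕ Fin s.NT) W.K (W.H (nest ops n fun _ => P).X)}
  (hb : ∀ r, b r = mono (prj ops n fun _ => P) fun p => s.e (r p))

include hmid heven ho hR F hb in
theorem bN_parity {r r' : Fin (n + 1) → Fin s.NC ⊕ Fin s.NT} (h : bN ops f n (b r) (b r') ≠ 0) :
    occI o r = occI o r' := by
  rw [hb, hb, bf_mono F.fr] at h
  unfold occI
  refine Finset.sum_congr rfl fun p _ => ?_
  have h1 := Finset.prod_ne_zero_iff.1 h p (Finset.mem_univ _)
  by_cases hp : r p = Sum.inr o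
  · have hp' : r' p = Sum.inr o := by
      by_contra h2
      rw [hp] at h1
      exact h1 (bf_e hmid heven ho hR F h2).2
    rw [if_pos hp, if_pos hp']
  · have hp' : ¬ r' p = Sum.inr o := by
      intro h2
      rw [h2] at h1
      exact h1 (bf_e hmid heven ho hR F hp).1
    rw [if_neg hp, if_neg hp']

include hmid heven ho hR F hb in
theorem bN_vg {E : W.H (nest ops n fun _ => P).X} (hE : E ∈ VG b)
    {r : Fin (n + 1) → Fin s.NC ⊕ Fin s.NT} (hr : Odd (occI o r)) :
    bN ops f n (b r) E = 0 := by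
  conv_lhs => rw [← b.sum_repr E]
  rw [map_sum]
  refine Finset.sum_eq_zero fun r' _ => ?_
  rw [map_smul, smul_eq_mul]
  by_cases h : bN ops f n (b r) (b r') = 0
  · rw [h, mul_zero]
  · have h1 := bN_parity hmid heven ho hR F hb h
    have h2 := vg_coord (gram_symm hmid heven) ho hE (r := r') (by rwa [← h1])
    rw [Module.Basis.coord_apply] at h2
    rw [h2, zero_mul]

end basis

section part

variable {n : ℕ}
  {b : Module.Basis (Fin (n + 1) → Fin s.NC ⊕ Fin s.NT) W.K (W.H (nest ops n fun _ => P).X)}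
  {Z : 𝒱.Obj}

theorem coord_sum (z : (Fin (n + 1) → Fin s.NC ⊕ Fin s.NT) → W.H Z)
    (r : Fin (n + 1) → Fin s.NC ⊕ Fin s.NT) :
    ctr (b.coord r) (∑ r', W.map (fst _ Z) (b r') * W.map (snd _ Z) (z r')) = z r := by
  rw [map_sum, Finset.sum_eq_single r]
  · rw [ctr_apply, Module.Basis.coord_apply, Module.Basis.repr_self, Finsupp.single_eq_same,
      one_smul]
  · intro r' _ hr
    rw [ctr_apply, Module.Basis.coord_apply, Module.Basis.repr_self,
      Finsupp.single_eq_of_ne (Ne.symm hr), zero_smul]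
  · intro h
    exact absurd (Finset.mem_univ _) h

/-- twice the even part (`ε = 1`) or the odd part (`ε = -1`) of a class -/
noncomputable def cpart
    (b : Module.Basis (Fin (n + 1) → Fin s.NC ⊕ Fin s.NT) W.K (W.H (nest ops n fun _ => P).X))
    (o : Fin s.NT) (ε : W.K) (c : W.H ((nest ops n fun _ => P).X.prod Z)) :
    W.H ((nest ops n fun _ => P).X.prod Z) :=
  ∑ r, W.map (fst _ Z) (b r) * W.map (snd _ Z) (prt ε o (fun r => ctr (b.coord r) c) r)

theorem cpart_coord (o : Fin s.NT) (ε : W.K) (c : W.H ((nest ops n fun _ => P).X.prod Z))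
    (r : Fin (n + 1) → Fin s.NC ⊕ Fin s.NT) :
    ctr (b.coord r) (cpart b o ε c) = prt ε o (fun r => ctr (b.coord r) c) r :=
  coord_sum _ r

theorem cpart_add (o : Fin s.NT) (c : W.H ((nest ops n fun _ => P).X.prod Z)) :
    cpart b o 1 c + cpart b o (-1) c = (2 : W.K) • c := by
  conv_rhs => rw [expand b c]
  rw [cpart, cpart, ← Finset.sum_add_distrib, Finset.smul_sum]
  refine Finset.sum_congr rfl fun r _ => ?_
  rw [← mul_add, ← map_add, ← mul_smul_comm, ← map_smul]
  congr 2
  rw [prt, prt]
  module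

/-- classes all of whose coordinates vanish -/
theorem eq_zero_of_coord {c : W.H ((nest ops n fun _ => P).X.prod Z)}
    (h : ∀ r, ctr (b.coord r) c = 0) : c = 0 := by
  rw [expand b c]
  refine Finset.sum_eq_zero fun r _ => ?_
  rw [h, map_zero, mul_zero]

variable (hmid : transcendental W P.X ≤ W.gr P.X P.X.dim) (heven : Even P.X.dim)
  {o : Fin s.NT} (ho : ∀ q, q ≠ o → gram s o q = 0)
  {R : Matrix (Fin s.NT) (Fin s.NT) W.K} (hR : gram s * R = 1)
  {f : Module.End W.K (W.H P.X)} (F : Fp W P.X P.D f)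
  (hb : ∀ r, b r = mono (prj ops n fun _ => P) fun p => s.e (r p))
  {E : Z.Cycles} {g : Module.End W.K (W.H Z)} (G : Fr W Z E g)

/-- the form on the product -/
noncomputable abbrev bP (ops : CycleOps 𝒱) {W : WeilCohomology.{u, v} ops} {P : Polarized 𝒱}
    (f : Module.End W.K (W.H P.X)) (n : ℕ) {Z : 𝒱.Obj} (E : Z.Cycles)
    (g : Module.End W.K (W.H Z)) :=
  bf W ((nest ops n fun _ => P).X.prod Z) (ops.pull (fst _ Z) (nest ops n fun _ => P).D +
    ops.pull (snd _ Z) E) (extSum W (fN ops f n) g)

include F G in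
theorem bP_ext (a a' : W.H (nest ops n fun _ => P).X) (z z' : W.H Z) :
    bP ops f n E g (W.map (fst _ Z) a * W.map (snd _ Z) z)
      (W.map (fst _ Z) a' * W.map (snd _ Z) z') = bN ops f n a a' * bf W Z E g z z' :=
  (fN_fr F.fr n).bf_ext G a a' z z'

include F G in
theorem bP_sum (z z' : (Fin (n + 1) → Fin s.NC ⊕ Fin s.NT) → W.H Z) :
    bP ops f n E g (∑ r, W.map (fst _ Z) (b r) * W.map (snd _ Z) (z r))
      (∑ r, W.map (fst _ Z) (b r) * W.map (snd _ Z) (z' r)) =
      ∑ r, ∑ r', bN ops f n (b r) (b r') * bf W Z E g (z r) (z' r') := by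
  rw [map_sum (bP ops f n E g), LinearMap.sum_apply]
  refine Finset.sum_congr rfl fun r _ => ?_
  rw [map_sum]
  refine Finset.sum_congr rfl fun r' _ => ?_
  exact bP_ext F G _ _ _ _

include hmid heven ho hR F hb G in
/-- the even and the odd part are orthogonal -/
theorem bP_part {ε ε' : W.K} (hε : ε * ε = 1) (hε' : ε' = -ε)
    (c c' : W.H ((nest ops n fun _ => P).X.prod Z)) :
    bP ops f n E g (cpart b o ε c) (cpart b o ε' c') = 0 := by
  rw [cpart, cpart, bP_sum F G]
  refine Finset.sum_eq_zero fun r _ => Finset.sum_eq_zero fun r' _ => ?_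
  by_cases h : bN ops f n (b r) (b r') = 0
  · rw [h, zero_mul]
  · have h1 := bN_parity hmid heven ho hR F hb h
    rw [prt, prt, map_smul, map_smul, LinearMap.smul_apply, h1, smul_eq_mul, smul_eq_mul]
    have h2 : (1 + ε * (-1) ^ occI o r') * (1 + ε' * (-1) ^ occI o r') = (0 : W.K) := by
      have h3 : ((-1 : W.K) ^ occI o r') * ((-1 : W.K) ^ occI o r') = 1 := by
        rw [← mul_pow]; norm_num
      rw [hε']
      linear_combination (-(ε * ε)) * h3 - hε
    linear_combination (bN ops f n (b r) (b r') *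
      bf W Z E g (ctr (b.coord r) c) (ctr (b.coord r') c')) * h2

include hmid heven ho hR F hb G in
/-- the form is the sum of the forms of the parts -/
theorem bP_add (c : W.H ((nest ops n fun _ => P).X.prod Z)) :
    4 * bP ops f n E g c c = bP ops f n E g (cpart b o 1 c) (cpart b o 1 c) +
      bP ops f n E g (cpart b o (-1) c) (cpart b o (-1) c) := by
  have h1 : 4 * bP ops f n E g c c = bP ops f n E g ((2 : W.K) • c) ((2 : W.K) • c) := by
    rw [map_smul, map_smul, LinearMap.smul_apply, smul_eq_mul, smul_eq_mul]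
    ring
  rw [h1, ← cpart_add (b := b) o c, map_add, map_add, LinearMap.add_apply, LinearMap.add_apply,
    bP_part hmid heven ho hR F hb G (ε := 1) (ε' := -1) (by ring) rfl,
    bP_part hmid heven ho hR F hb G (ε := -1) (ε' := 1) (by ring) (by ring)]
  ring

include hmid heven ho hR F hb in
/-- contractions of the odd part with the classes generated by the form vanish -/
theorem cn_odd {x : W.H (nest ops n fun _ => P).X} (hx : W552.AS W _ x) (hxV : x ∈ VG b)
    (c : W.H ((nest ops n fun _ => P).X.prod Z)) :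
    cn (st W _ (nest ops n fun _ => P).D (fN ops f n) x) (cpart b o (-1) c) = 0 := by
  rw [← cnl_apply, cpart, map_sum]
  refine Finset.sum_eq_zero fun r _ => ?_
  rw [cnl_apply, cn_ext, ((fN_fr F.fr n).st_AS hx).comm, ← bf_apply]
  rcases Nat.even_or_odd (occI o r) with hr | hr
  · rw [prt, hr.neg_one_pow, mul_one, ← sub_eq_add_neg, sub_self, zero_smul, smul_zero]
  · rw [bN_vg hmid heven ho hR F hb hxV hr, zero_smul]

end part

section jo

variable {n m : ℕ} {Z : 𝒱.Obj}

/-- the product with a class on another power, as a linear map -/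
noncomputable def starL (n : ℕ) {m : ℕ} (v : W.H (nest ops m fun _ => P).X) :
    W.H (nest ops n fun _ => P).X →ₗ[W.K] W.H (nest ops (n + 1 + m) fun _ => P).X where
  toFun a := star a v
  map_add' a a' := star_add_left a a' v
  map_smul' r a := star_smul_left r a v

/-- the product with a class on another power -/
noncomputable def jo (n : ℕ) {m : ℕ} (v : W.H (nest ops m fun _ => P).X) (Z : 𝒱.Obj) :
    W.H ((nest ops n fun _ => P).X.prod Z) →ₗ[W.K]
      W.H ((nest ops (n + 1 + m) fun _ => P).X.prod Z) :=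
  (kEquiv W _ Z).toLinearMap ∘ₗ (starL n v).rTensor (W.H Z) ∘ₗ
    (kEquiv W _ Z).symm.toLinearMap

theorem jo_ext (v : W.H (nest ops m fun _ => P).X) (a : W.H (nest ops n fun _ => P).X)
    (z : W.H Z) : jo n v Z (W.map (fst _ Z) a * W.map (snd _ Z) z) =
      W.map (fst _ Z) (star a v) * W.map (snd _ Z) z := by
  change kEquiv W _ Z ((starL n v).rTensor (W.H Z) ((kEquiv W _ Z).symm _)) = _
  rw [kEquiv_symm, LinearMap.rTensor_tmul, kEquiv_tmul]
  rfl

variable {b : Module.Basis (Fin (n + 1) → Fin s.NC ⊕ Fin s.NT) W.K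
    (W.H (nest ops n fun _ => P).X)}
  (hb : ∀ r, b r = mono (prj ops n fun _ => P) fun p => s.e (r p))
  {b' : Module.Basis (Fin (m + 1) → Fin s.NC ⊕ Fin s.NT) W.K (W.H (nest ops m fun _ => P).X)}
  (hb' : ∀ r, b' r = mono (prj ops m fun _ => P) fun p => s.e (r p))
  {B : Module.Basis (Fin (n + 1 + m + 1) → Fin s.NC ⊕ Fin s.NT) W.K
    (W.H (nest ops (n + 1 + m) fun _ => P).X)}
  (hB : ∀ r, B r = mono (prj ops (n + 1 + m) fun _ => P) fun p => s.e (r p))

include hb hb' hB in
theorem star_coord (a : W.H (nest ops n fun _ => P).X) (v : W.H (nest ops m fun _ => P).X)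
    (R : Fin (n + 1 + m + 1) → Fin s.NC ⊕ Fin s.NT) :
    B.coord R (star a v) = b.coord (fun p => R (Fin.castAdd (m + 1) p)) a *
      b'.coord (fun p => R (Fin.natAdd (n + 1) p)) v := by
  have key : ∀ r r', B.coord R (star (b r) (b' r')) =
      (if r = fun p => R (Fin.castAdd (m + 1) p) then (1 : W.K) else 0) *
        (if r' = fun p => R (Fin.natAdd (n + 1) p) then (1 : W.K) else 0) := by
    intro r r'
    have h1 := star_basis hb hb' hB
      (Fin.append r r' : Fin (n + 1 + (m + 1)) → Fin s.NC ⊕ Fin s.NT)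
    have h2 : (fun p => (Fin.append r r' : Fin (n + 1 + (m + 1)) → Fin s.NC ⊕ Fin s.NT)
        (Fin.castAdd (m + 1) p)) = r := by
      funext p
      exact Fin.append_left r r' p
    have h3 : (fun p => (Fin.append r r' : Fin (n + 1 + (m + 1)) → Fin s.NC ⊕ Fin s.NT)
        (Fin.natAdd (n + 1) p)) = r' := by
      funext p
      exact Fin.append_right r r' p
    rw [h2, h3] at h1
    rw [← h1, Module.Basis.coord_apply, Module.Basis.repr_self]
    by_cases h4 : (Fin.append r r' : Fin (n + 1 + (m + 1)) → Fin s.NC ⊕ Fin s.NT) = R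
    · have h5 : r = fun p => R (Fin.castAdd (m + 1) p) := by rw [← h4]; exact h2.symm
      have h6 : r' = fun p => R (Fin.natAdd (n + 1) p) := by rw [← h4]; exact h3.symm
      rw [if_pos h5, if_pos h6, mul_one]
      have h7 := Finsupp.single_eq_same (a := R) (b := (1 : W.K))
      rw [← h4] at h7 ⊢
      exact h7
    · rw [Finsupp.single_eq_of_ne (Ne.symm h4)]
      symm
      by_contra h5
      apply h4
      have h6 := mul_ne_zero_iff.1 h5
      have h7 : r = fun p => R (Fin.castAdd (m + 1) p) := by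
        by_contra h8
        exact h6.1 (if_neg h8)
      have h8 : r' = fun p => R (Fin.natAdd (n + 1) p) := by
        by_contra h9
        exact h6.2 (if_neg h9)
      funext p
      refine Fin.addCases (fun i => ?_) (fun i => ?_) p
      · rw [Fin.append_left]
        exact congrFun h7 i
      · rw [Fin.append_right]
        exact congrFun h8 i
  have hexp : star a v = ∑ r, ∑ r', (b.repr a r * b'.repr v r') • star (b r) (b' r') := by
    conv_lhs => rw [← b.sum_repr a]
    change starL n v _ = _
    rw [map_sum]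
    refine Finset.sum_congr rfl fun r _ => ?_
    rw [map_smul]
    change b.repr a r • star (b r) v = _
    conv_lhs => rw [← b'.sum_repr v]
    have h1 : star (b r) (∑ i, b'.repr v i • b' i) = ∑ i, b'.repr v i • star (b r) (b' i) := by
      rw [star, map_sum, Finset.mul_sum]
      refine Finset.sum_congr rfl fun i _ => ?_
      rw [map_smul, mul_smul_comm]
      rfl
    rw [h1, Finset.smul_sum]
    refine Finset.sum_congr rfl fun i _ => ?_
    rw [smul_smul]
  rw [hexp, map_sum, Finset.sum_eq_single (fun p => R (Fin.castAdd (m + 1) p))]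
  · rw [map_sum, Finset.sum_eq_single (fun p => R (Fin.natAdd (n + 1) p))]
    · rw [map_smul, key, if_pos rfl, if_pos rfl, mul_one, smul_eq_mul, mul_one]
      rfl
    · intro r' _ hr'
      rw [map_smul, key, if_neg hr', mul_zero, smul_zero]
    · intro h
      exact absurd (Finset.mem_univ _) h
  · intro r _ hr
    rw [map_sum]
    refine Finset.sum_eq_zero fun r' _ => ?_
    rw [map_smul, key, if_neg hr, zero_mul, smul_zero]
  · intro h
    exact absurd (Finset.mem_univ _) h

include hb hb' hB in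
/-- the coordinates of the product -/
theorem jo_coord (v : W.H (nest ops m fun _ => P).X)
    (c : W.H ((nest ops n fun _ => P).X.prod Z))
    (R : Fin (n + 1 + m + 1) → Fin s.NC ⊕ Fin s.NT) :
    ctr (B.coord R) (jo n v Z c) = b'.coord (fun p => R (Fin.natAdd (n + 1) p)) v •
      ctr (b.coord fun p => R (Fin.castAdd (m + 1) p)) c := by
  refine kun_ext (L := fun c => ctr (B.coord R) (jo n v Z c))
    (L' := fun c => b'.coord (fun p => R (Fin.natAdd (n + 1) p)) v •
      ctr (b.coord fun p => R (Fin.castAdd (m + 1) p)) c) ?_ ?_ ?_ c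
  · intro a a'
    rw [map_add, map_add]
  · intro a a'
    rw [map_add, smul_add]
  · intro a z
    rw [jo_ext, ctr_apply, ctr_apply, star_coord hb hb' hB, smul_smul, mul_comm]

variable {f : Module.End W.K (W.H P.X)} (F : Fp W P.X P.D f)
  {E : Z.Cycles} {g : Module.End W.K (W.H Z)} (G : Fr W Z E g)

include F G in
/-- **The form on the products.** -/
theorem bP_jo (v v' : W.H (nest ops m fun _ => P).X)
    (c c' : W.H ((nest ops n fun _ => P).X.prod Z)) :
    bP ops f (n + 1 + m) E g (jo n v Z c) (jo n v' Z c') =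
      bP ops f n E g c c' * bN ops f m v v' := by
  refine kun_ext (L := fun c => bP ops f (n + 1 + m) E g (jo n v Z c) (jo n v' Z c'))
    (L' := fun c => bP ops f n E g c c' * bN ops f m v v') ?_ ?_ ?_ c
  · intro a a'
    rw [map_add, map_add, LinearMap.add_apply]
  · intro a a'
    rw [map_add, LinearMap.add_apply, add_mul]
  intro a z
  refine kun_ext (L := fun c' => bP ops f (n + 1 + m) E g (jo n v Z _) (jo n v' Z c'))
    (L' := fun c' => bP ops f n E g _ c' * bN ops f m v v') ?_ ?_ ?_ c'
  · intro a a'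
    rw [map_add, map_add]
  · intro a a'
    rw [map_add, add_mul]
  intro a' z'
  rw [jo_ext, jo_ext, bP_ext F G, bP_ext F G, bf_star F.fr]
  ring

end jo

end Pool.Agent.V5helper86.AP
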