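import Pool.Agent.V5helper86.AP.Geo

/-!
# The induction step for powers of an even-dimensional variety
-/

open CategoryTheory AlgebraicGeometry Finset Function

set_option linter.unusedSectionVars false

universe u v w

namespace Pool.Agent.V5helper86.AP

open Pool.Agent.H914 Pool.Agent.H914.VarClass Pool.Agent.H914.VarClass.Obj
  Pool.Agent.H914.WeilCohomology Pool.Agent.H281R3.HT Pool.Agent.W552 Pool.Agent.H447
  Pool.Agent.TH125.Gal Pool.Agent.Y127

variable {k : Type u} [Field k] {𝒱 : VarClass k} {ops : CycleOps 𝒱}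
  {W : WeilCohomology.{u, v} ops} {P : Polarized 𝒱} {s : SB W P.X}

/-- positivity for a class in the span of external products -/
theorem pos_vspan {A Z : 𝒱.Obj} {D : A.Cycles} {f : Module.End W.K (W.H A)}
    {V : Submodule W.K (W.H A)} {N : ℕ}
    {e : Fin N → W.H A} {w : Fin N → ℚ} (F : Fr W A D f) {E : Z.Cycles}
    {g : Module.End W.K (W.H Z)}
    (G : Fr W Z E g) (he : ∀ k, W552.AS W A (e k)) (hw : ∀ k, 0 < w k)
    (horth : ∀ k l, bf W A D f (e k) (e l) = if k = l then (w k : W.K) else 0)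
    (hexp : ∀ x ∈ V, x = ∑ k, ((w k : W.K)⁻¹ * bf W A D f x (e k)) • e k) {d : ℚ}
    {c : W.H (A.prod Z)} (hc : c ∈ VSpan V Z)
    (hz : ∀ k, ∃ z, cn (st W A D f (e k)) c = (2 : W.K) • z ∧
      ∃ q : ℚ, 0 ≤ q ∧ (z ≠ 0 → 0 < q) ∧ bf W Z E g z z = (d : W.K) * q) :
    ∃ q : ℚ, 0 ≤ q ∧ (c ≠ 0 → 0 < q) ∧
      bf W (A.prod Z) (ops.pull (fst A Z) D + ops.pull (snd A Z) E) (extSum W f g) c c =
        4 * ((d : W.K) * q) := by
  choose z hz1 hz2 using hz
  have h1 := vspan_expand F he hexp hc
  obtain ⟨q, hq0, hq1, hq2⟩ := sum_pos_of (W := W) (E := E) (g := g) (d := d) hw hz2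
  refine ⟨q, hq0, fun hc0 => hq1 ?_, ?_⟩
  · by_contra hcon
    push Not at hcon
    apply hc0
    rw [h1]
    refine Finset.sum_eq_zero fun k _ => ?_
    rw [hz1, hcon k, smul_zero, H281R3.HT.ext, map_zero, mul_zero, smul_zero]
  · rw [← hq2, bf_expand F G hw horth h1, Finset.mul_sum]
    refine Finset.sum_congr rfl fun k _ => ?_
    rw [hz1, map_smul, map_smul, LinearMap.smul_apply, smul_eq_mul, smul_eq_mul]
    ring

/-- **The step for powers of an even-dimensional variety.** -/
theorem tw_even {f : Module.End W.K (W.H P.X)} (F : Fp W P.X P.D f)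
    (hls : LefStr (W.isInternal P.X) P.X.dim (LinearMap.mulLeft W.K (W.cl P.X P.D)) f)
    (hHL : HardLefschetz W P.X P.D) (hB : LefschetzB W P.X P.D)
    (hDX : HomEqNum W P.X) (hmid : transcendental W P.X ≤ W.gr P.X P.X.dim)
    (heven : Even P.X.dim) (hne : (1 : W.H P.X) ≠ 0)
    (hsq : ∀ x, W552.AS W (P.X.prod P.X) x → x ≠ 0 → ∃ q : ℚ, 0 < q ∧
      bf W (P.X.prod P.X) (ops.pull (fst P.X P.X) P.D + ops.pull (snd P.X P.X) P.D)
        (extSum W f f) x x = q)
    {o : Fin s.NT} (ho : ∀ q, q ≠ o → gram s o q = 0)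
    {R : Matrix (Fin s.NT) (Fin s.NT) W.K} (hR : gram s * R = 1) {n m : ℕ}
    {b : Module.Basis (Fin (n + 1) → Fin s.NC ⊕ Fin s.NT) W.K (W.H (nest ops n fun _ => P).X)}
    (hb : ∀ r, b r = mono (prj ops n fun _ => P) fun p => s.e (r p))
    {b' : Module.Basis (Fin (m + 1) → Fin s.NC ⊕ Fin s.NT) W.K (W.H (nest ops m fun _ => P).X)}
    (hb' : ∀ r, b' r = mono (prj ops m fun _ => P) fun p => s.e (r p))
    (σ : Fin (m + 1) ≃ Fin s.NT) {v : W.H (nest ops m fun _ => P).X} {κ : W.K}
    (hv : ∀ r, b'.coord r v = κ * eps W.K σ r) {dX : ℚ} (hdX : dX ≠ 0)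
    (hvv : bN ops f m v v = (((m + 1).factorial * dX : ℚ) : W.K))
    {Z Ω : 𝒱.Obj} {E : Z.Cycles} {g : Module.End W.K (W.H Z)} (G : Fr W Z E g) {ω : W.H Ω}
    {d : ℚ}
    (hInv : ∀ u, W552.AS W ((nest ops n fun _ => P).X.prod (Z.prod Ω)) u →
      InvF (gram s) fun r => ctr (b.coord r) u)
    (hT : Tw W Ω ω d Z E g)
    (hT' : Tw W (Ω.prod (nest ops m fun _ => P).X)
      (W.map (fst Ω _) ω * W.map (snd Ω (nest ops m fun _ => P).X) v) (d * dX) Z E g) :
    Tw W Ω ω d ((nest ops n fun _ => P).X.prod Z) (ops.pull (fst _ Z) (nest ops n fun _ => P).D +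
      ops.pull (snd _ Z) E) (extSum W (fN ops f n) g) := by
  have hQs : ∀ i j, gram s i j = gram s j i := gram_symm hmid heven
  obtain ⟨B, hB'⟩ := exists_monoBasis (ops := ops) P s.e (n + 1 + m)
  obtain ⟨N1, e1, w1, he1, hw1, horth1, hexp1⟩ := vg_onb hb F hls hHL hB hDX hmid hne hsq
  obtain ⟨N2, e2, w2, he2, hw2, horth2, hexp2⟩ := vg_onb hB' F hls hHL hB hDX hmid hne hsq
  rintro c ⟨u, hu, hcu⟩
  -- invariance
  have hF : InvF (gram s) fun r => ctr (b.coord r) c := by
    have h1 := (hInv _ (hu.map (asc _ Z Ω))).map (cnr (Z := Z) ω)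
    have h2 : (fun r => ctr (b.coord r) c) =
        fun r => cnr ω (ctr (b.coord r) (W.map (asc _ Z Ω) u)) := by
      funext r
      rw [hcu, ctr_cnr]
    rw [h2]
    exact h1
  set cp := cpart b o 1 c with hcp
  set cm := cpart b o (-1) c with hcm
  have hsum : cp + cm = (2 : W.K) • c := cpart_add o c
  have hcpc : ∀ r, ctr (b.coord r) cp = (1 + 1 * (-1) ^ occI o r : W.K) • ctr (b.coord r) c :=
    fun r => cpart_coord o 1 c r
  have hcmc : ∀ r, ctr (b.coord r) cm = (1 + (-1) * (-1) ^ occI o r : W.K) •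
      ctr (b.coord r) c := fun r => cpart_coord o (-1) c r
  have hcpV : cp ∈ VSpan (VG b) Z := by
    refine vg_mem hQs ho hR ?_ ?_
    · have h2 : (fun r => ctr (b.coord r) cp) = prt (1 : W.K) o fun r => ctr (b.coord r) c := by
        funext r
        exact hcpc r
      rw [h2]
      exact hF.prt hQs ho 1
    · intro r hr
      rw [hcpc, hr.neg_one_pow]
      simp
  have hv0 : v ≠ 0 := by
    rintro rfl
    rw [map_zero] at hvv
    have h1 : (((m + 1).factorial * dX : ℚ) : W.K) ≠ 0 := by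
      have : ((m + 1).factorial : ℚ) * dX ≠ 0 :=
        mul_ne_zero (by exact_mod_cast Nat.factorial_ne_zero _) hdX
      exact_mod_cast this
    exact h1 hvv.symm
  -- the product of the odd part with `v`
  have hjc : ∀ c' R', ctr (B.coord R') (jo n v Z c') =
      (κ * eps W.K σ fun p => R' (Fin.natAdd (n + 1) p)) •
        ctr (b.coord fun p => R' (Fin.castAdd (m + 1) p)) c' := by
    intro c' R'
    rw [jo_coord hb hb' hB', hv]
  have hocc : ∀ R' : Fin (n + 1 + m + 1) → Fin s.NC ⊕ Fin s.NT, occI o R' =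
      occI o (fun p => R' (Fin.castAdd (m + 1) p)) +
        occI o (fun p : Fin (m + 1) => R' (Fin.natAdd (n + 1) p)) :=
    fun R' => occI_append (n := n + 1) (m := m + 1) o R'
  have hjmV : jo n v Z cm ∈ VSpan (VG B) Z := by
    refine vg_mem hQs ho hR ?_ ?_
    · have h2 : (fun R' => ctr (B.coord R') (jo n v Z cm)) =
          fun R' : Fin (n + 1 + (m + 1)) → Fin s.NC ⊕ Fin s.NT =>
          (fun r => κ * eps W.K σ r) (fun p => R' (Fin.natAdd (n + 1) p)) •
            (prt (-1 : W.K) o fun r => ctr (b.coord r) c) (fun p => R' (Fin.castAdd (m + 1) p)) := by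
        funext R'
        exact (hjc cm R').trans (congrArg _ (hcmc _))
      rw [h2]
      exact (hF.prt hQs ho (-1)).append ((invF_eps σ (gram s) hQs).map (LinearMap.mulLeft W.K κ))
    · intro R' hR'
      rw [hjc]
      by_cases h0 : eps W.K σ (fun p => R' (Fin.natAdd (n + 1) p)) = 0
      · rw [h0, mul_zero, zero_smul]
      · have h1 := eps_odd σ o h0
        have h2 := hocc R'
        rw [h1] at h2
        have h3 : Even (occI o fun p => R' (Fin.castAdd (m + 1) p)) := by
          rw [h2] at hR'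
          rcases Nat.even_or_odd (occI o fun p => R' (Fin.castAdd (m + 1) p)) with h | h
          · exact h
          · exact absurd (h.add_odd odd_one) (Nat.not_even_iff_odd.2 hR')
        rw [hcmc, h3.neg_one_pow]
        simp
  have hjp : cpart B o (-1) (jo n v Z cp) = (2 : W.K) • jo n v Z cp := by
    conv_rhs => rw [expand B (jo n v Z cp)]
    rw [cpart, Finset.smul_sum]
    refine Finset.sum_congr rfl fun R' _ => ?_
    rw [← mul_smul_comm, ← map_smul]
    congr 2
    rw [prt]
    by_cases h0 : eps W.K σ (fun p => R' (Fin.natAdd (n + 1) p)) = 0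
    · rw [hjc, h0, mul_zero, zero_smul, smul_zero, smul_zero]
    · have h1 := eps_odd σ o h0
      have h2 := hocc R'
      rw [h1] at h2
      rcases Nat.even_or_odd (occI o fun p => R' (Fin.castAdd (m + 1) p)) with h | h
      · have h3 : Odd (occI o R') := by rw [h2]; exact h.add_odd odd_one
        rw [h3.neg_one_pow]
        congr 1
        ring
      · have h3 : ctr (B.coord R') (jo n v Z cp) = 0 := by
          rw [hjc, hcpc, h.neg_one_pow]
          simp
        rw [h3, smul_zero, smul_zero]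
  -- positivity of the even part
  obtain ⟨q1, hq10, hq11, hq12⟩ := pos_vspan (d := d) (fN_fr F.fr n) G (fun k => (he1 k).1) hw1
    horth1 hexp1 hcpV (fun k => by
      refine ⟨cn (st W _ (nest ops n fun _ => P).D (fN ops f n) (e1 k)) c, ?_,
        hT _ (TS.cn ((fN_fr F.fr n).st_AS (he1 k).1) ⟨u, hu, hcu⟩)⟩
      have h1 := cn_odd hmid heven ho hR F hb (he1 k).1 (he1 k).2 c
      rw [← cn_smul, ← hsum, cn_add, hcm, h1, add_zero])
  obtain ⟨q2, hq20, hq21, hq22⟩ := pos_vspan (d := d * dX) (fN_fr F.fr (n + 1 + m)) G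
    (fun k => (he2 k).1) hw2 horth2 hexp2 hjmV (fun k => by
      refine ⟨cn (st W _ (nest ops (n + 1 + m) fun _ => P).D (fN ops f (n + 1 + m)) (e2 k))
        (jo n v Z c), ?_, hT' _ ?_⟩
      · have h1 := cn_odd hmid heven ho hR F hB' (he2 k).1 (he2 k).2 (jo n v Z cp)
        rw [hjp, cn_smul] at h1
        have h2 := (smul_eq_zero.1 h1).resolve_left two_ne_zero
        rw [← cn_smul, ← map_smul, ← hsum, map_add, cn_add, h2, zero_add]
      · rw [hcu, cn_jo hDX hmid heven]
        exact ⟨_, uu_AS ((fN_fr F.fr (n + 1 + m)).st_AS (he2 k).1) hu, rfl⟩)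
  have hjj : bP ops f (n + 1 + m) E g (jo n v Z cm) (jo n v Z cm) =
      bP ops f n E g cm cm * bN ops f m v v := bP_jo F G v v cm cm
  have hfac : (0 : ℚ) < (m + 1).factorial := by exact_mod_cast Nat.factorial_pos _
  have hcmq : bP ops f n E g cm cm = 4 * ((d : W.K) * ((q2 / (m + 1).factorial : ℚ) : W.K)) := by
    have h1 : bP ops f n E g cm cm * (((m + 1).factorial * dX : ℚ) : W.K) =
        4 * (((d * dX : ℚ) : W.K) * q2) := by
      rw [← hvv, ← hjj]
      exact hq22
    have h2 : (((m + 1).factorial * dX : ℚ) : W.K) ≠ 0 := by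
      have : ((m + 1).factorial : ℚ) * dX ≠ 0 := mul_ne_zero hfac.ne' hdX
      exact_mod_cast this
    refine mul_right_cancel₀ h2 (h1.trans ?_)
    have h3 : d * dX * q2 = d * (q2 / (m + 1).factorial) * ((m + 1).factorial * dX) := by
      field_simp
    have h4 : (((d * dX * q2 : ℚ)) : W.K) =
        ((d * (q2 / (m + 1).factorial) * ((m + 1).factorial * dX) : ℚ) : W.K) := by rw [h3]
    push_cast at h4 ⊢
    linear_combination 4 * h4
  have hadd := bP_add hmid heven ho hR F hb G (o := o) c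
  refine ⟨q1 + q2 / (m + 1).factorial, add_nonneg hq10 (div_nonneg hq20 hfac.le), ?_, ?_⟩
  · intro hc0
    by_cases hcp0 : cp = 0
    · have hcm0 : cm ≠ 0 := by
        intro h
        rw [hcp0, h, add_zero] at hsum
        exact hc0 ((smul_eq_zero.1 hsum.symm).resolve_left two_ne_zero)
      have hj0 : jo n v Z cm ≠ 0 := by
        intro h
        apply hcm0
        obtain ⟨r', hr'⟩ : ∃ r', b'.coord r' v ≠ 0 := by
          by_contra hcon
          push Not at hcon
          apply hv0
          rw [← b'.sum_repr v]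
          refine Finset.sum_eq_zero fun r' _ => ?_
          have := hcon r'
          rw [Module.Basis.coord_apply] at this
          rw [this, zero_smul]
        refine eq_zero_of_coord (b := b) fun r => ?_
        have h1 := jo_coord hb hb' hB' v cm
          (Fin.append r r' : Fin (n + 1 + (m + 1)) → Fin s.NC ⊕ Fin s.NT)
        have h2 : (fun p => (Fin.append r r' : Fin (n + 1 + (m + 1)) → Fin s.NC ⊕ Fin s.NT)
            (Fin.castAdd (m + 1) p)) = r := by
          funext p
          exact Fin.append_left r r' p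
        have h3 : (fun p => (Fin.append r r' : Fin (n + 1 + (m + 1)) → Fin s.NC ⊕ Fin s.NT)
            (Fin.natAdd (n + 1) p)) = r' := by
          funext p
          exact Fin.append_right r r' p
        rw [h2, h3, h, map_zero] at h1
        exact (smul_eq_zero.1 h1.symm).resolve_left hr'
      exact add_pos_of_nonneg_of_pos hq10 (div_pos (hq21 hj0) hfac)
    · exact add_pos_of_pos_of_nonneg (hq11 hcp0) (div_nonneg hq20 hfac.le)
  · have h4 : (4 : W.K) ≠ 0 := by norm_num
    refine mul_left_cancel₀ h4 ?_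
    refine hadd.trans ?_
    rw [← hcp, ← hcm, hcmq]
    have h5 : bP ops f n E g cp cp = 4 * ((d : W.K) * q1) := hq12
    rw [h5]
    push_cast
    ring

end Pool.Agent.V5helper86.AP
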