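import Pool.Agent.V5helper86.AP.Act

/-!
# Positivity for the twisted classes on products with powers
-/

open CategoryTheory AlgebraicGeometry Finset Function

set_option linter.unusedSectionVars false

universe u v w x

namespace Pool.Agent.V5helper86.AP

open Pool.Agent.H914 Pool.Agent.H914.VarClass Pool.Agent.H914.VarClass.Obj
  Pool.Agent.H914.WeilCohomology Pool.Agent.H281R3.HT Pool.Agent.W552 Pool.Agent.H447
  Pool.Agent.TH125.Gal Pool.Agent.Y127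

variable {k : Type u} [Field k] {𝒱 : VarClass k} {ops : CycleOps 𝒱}

/-- Positivity of the form on the algebraic classes of a power, with the explicit operator. -/
theorem fp_nestN {W : WeilCohomology.{u, v} ops} {P : Polarized 𝒱}
    {f : Module.End W.K (W.H P.X)} (F : Fp W P.X P.D f)
    (hls : LefStr (W.isInternal P.X) P.X.dim (LinearMap.mulLeft W.K (W.cl P.X P.D)) f)
    (hHL : HardLefschetz W P.X P.D) (hB : LefschetzB W P.X P.D)
    (hDX : HomEqNum W P.X) (hmid : transcendental W P.X ≤ W.gr P.X P.X.dim) (s : SB W P.X)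
    (hne : (1 : W.H P.X) ≠ 0) (n : ℕ)
    (hsq : ∀ x, W552.AS W (P.X.prod P.X) x → x ≠ 0 → ∃ q : ℚ, 0 < q ∧
      bf W (P.X.prod P.X) (ops.pull (fst P.X P.X) P.D + ops.pull (snd P.X P.X) P.D)
        (extSum W f f) x x = q)
    (hn : ∀ c, W552.AS W (nest ops n fun _ => P).X c → c ∈ Submodule.span W.K
      {m | ∃ S i, Mq s (prj ops n fun _ => P) S i m}) :
    Fp W (nest ops n fun _ => P).X (nest ops n fun _ => P).D (fN ops f n) := by
  have hp : ∀ i, AOp W P.X P.X (proj (W.isInternal P.X) i) := proj_aop F.fr.hD hHL hB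
  have S : RSys W (fun _ : Fin (n + 1) => P.X) (fun _ => P.D) (fun _ => f)
      (fun _ _ => W552.AS W (P.X.prod P.X)) := by
    refine ⟨fun _ => F.fr, fun _ => hls, fun a b => W552.AS.ratSub, fun h => h,
      fun h h' => h.comp h', fun h => h.map _, fun a => AOp.one, fun a => st_aop F.fr hp,
      fun a => par_aop hp, ?_⟩
    intro a b x hx hx0
    exact hsq x hx hx0
  refine ⟨fN_fr F.fr n, fN_sy F.fr F.sy n, fun x hx hx0 => ?_⟩
  refine coreN S W552.AS.one (F.pos 1 W552.AS.one hne) F.fr F.sy x hx ?_ hx0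
  refine (Submodule.span_le.2 ?_) (hn x hx)
  rintro m ⟨T, i, hm⟩
  have h2 := mq_matching hDX hmid hm
  refine Submodule.span_mono ?_ h2
  intro c hc
  refine ⟨T, ?_⟩
  have hc' : IsMatching W (fun _ => P) T c := hc
  clear hc hm h2
  induction hc' with
  | one => exact Mch.one
  | single _ ha hx ih => exact Mch.single ih ha ((W552.AS.of hx).map _)
  | pair _ ha hb hab hx ih => exact Mch.pair ih ha hb hab (W552.AS.of hx)

section nodal

variable {W : WeilCohomology.{u, v} ops} {Γ : Type w} [Group Γ] {χ : Γ →* W.Kˣ}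
  {G : Set (GVar W Γ)}

/-- the classes on the powers -/
theorem mq_nodal (hG : GaloisClass χ G) {A B : GVar W Γ} (hA : A ∈ G) (hB : B ∈ G)
    {D : A.X.Cycles} {n : ℕ} (h : Nodal χ A D B n) (hB1 : (1 : W.H B.X) ≠ 0) (s : SB W A.X)
    {c : W.H (nest ops n fun _ => (⟨A.X, D⟩ : Polarized 𝒱)).X} (hc : W552.AS W _ c) :
    c ∈ Submodule.span W.K {c | ∃ S i, Mq s (prj ops n fun _ => ⟨A.X, D⟩) S i c} :=
  mq_of_fst (P := ⟨A.X, D⟩) hB1 (h.mem_Tgt hG hA hB h.homEqNum s le_rfl (hc.map (fst _ B.X)))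

/-- positivity on the square -/
theorem hsq_nodal (hG : GaloisClass χ G) {A B : GVar W Γ} (hA : A ∈ G) (hB : B ∈ G)
    {D : A.X.Cycles} (h : Nodal χ A D B 1) (hB1 : (1 : W.H B.X) ≠ 0)
    {f : Module.End W.K (W.H A.X)} (F : Fp W A.X D f) :
    ∀ x, W552.AS W (A.X.prod A.X) x → x ≠ 0 → ∃ q : ℚ, 0 < q ∧
      bf W (A.X.prod A.X) (ops.pull (fst A.X A.X) D + ops.pull (snd A.X A.X) D)
        (extSum W f f) x x = q := by
  obtain ⟨s⟩ := exists_SB h.homEqNum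
  have hpr : (prj ops 1 (fun _ => (⟨A.X, D⟩ : Polarized 𝒱)) 1 : (A.X.prod A.X) ⟶ A.X) =
      snd A.X A.X := Category.comp_id _
  exact (fp_square h.homEqNum h.middle F s fun c hc =>
    span_two h.middle s (π := prj ops 1 fun _ => (⟨A.X, D⟩ : Polarized 𝒱)) rfl hpr
      (mq_nodal hG hA hB h hB1 s hc)).pos

end nodal

section tower

variable {W : WeilCohomology.{u, v} ops} {Γ : Type w} [Group Γ]
  {ι : Type} {X : ι → GVar W Γ} {D : ∀ i, (X i).X.Cycles} {Z : GVar W Γ} {E : Z.X.Cycles}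

/-- the operators on the products -/
noncomputable def gT (D : ∀ i, (X i).X.Cycles) (E : Z.X.Cycles)
    (f : ∀ i, Module.End W.K (W.H (X i).X)) (g : Module.End W.K (W.H Z.X)) :
    (L : List (ι × ℕ)) → Module.End W.K
      (W.H (tower' ops (fun i => (⟨(X i).X, D i⟩ : Polarized 𝒱)) ⟨Z.X, E⟩ L).X)
  | [] => g
  | a :: L => extSum W (fN ops (P := ⟨(X a.1).X, D a.1⟩) (f a.1) a.2) (gT D E f g L)

variable {f : ∀ i, Module.End W.K (W.H (X i).X)} {g : Module.End W.K (W.H Z.X)}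

theorem gT_fr (hf : ∀ i, Fr W (X i).X (D i) (f i)) (hg : Fr W Z.X E g) :
    ∀ L : List (ι × ℕ), Fr W (tower' ops (fun i => (⟨(X i).X, D i⟩ : Polarized 𝒱)) ⟨Z.X, E⟩ L).X
      (tower' ops (fun i => (⟨(X i).X, D i⟩ : Polarized 𝒱)) ⟨Z.X, E⟩ L).D (gT D E f g L)
  | [] => hg
  | a :: L => Fr.prod (fN_fr (P := ⟨(X a.1).X, D a.1⟩) (hf a.1) a.2) (gT_fr hf hg L)

theorem gT_sy (hf : ∀ i, Fr W (X i).X (D i) (f i)) (hfs : ∀ i, Sy W (X i).X (D i) (f i))
    (hg : Fr W Z.X E g) (hgs : Sy W Z.X E g) :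
    ∀ L : List (ι × ℕ), Sy W (tower' ops (fun i => (⟨(X i).X, D i⟩ : Polarized 𝒱)) ⟨Z.X, E⟩ L).X
      (tower' ops (fun i => (⟨(X i).X, D i⟩ : Polarized 𝒱)) ⟨Z.X, E⟩ L).D (gT D E f g L)
  | [] => hgs
  | a :: L => (fN_sy (P := ⟨(X a.1).X, D a.1⟩) (hf a.1) (hfs a.1) a.2).prod
    (fN_fr (P := ⟨(X a.1).X, D a.1⟩) (hf a.1) a.2) (gT_fr hf hg L) (gT_sy hf hfs hg hgs L)

end tower

/-- The data given by the determinant class of an even-dimensional variety. -/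
def DetData {Λ : Type x} (V : Λ → WeilCohomology.{u, v} ops) (l₀ : Λ) (P : Polarized 𝒱)
    (f : Module.End (V l₀).K ((V l₀).H P.X)) : Prop :=
  ∃ (s : SB (V l₀) P.X) (o : Fin s.NT) (R : Matrix (Fin s.NT) (Fin s.NT) (V l₀).K) (m : ℕ)
    (σ : Fin (m + 1) ≃ Fin s.NT) (v : ∀ l, (V l).H (nest ops m fun _ => P).X) (κ : (V l₀).K)
    (q : ℚ) (e : ℕ), (∀ q, q ≠ o → gram s o q = 0) ∧ gram s * R = 1 ∧
      TD V (nest ops m fun _ => P).X v q e ∧ v l₀ = κ • v0 s σ ∧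
      bN ops f m (v l₀) (v l₀) = (((m + 1).factorial * q : ℚ) : (V l₀).K)

theorem exists_detData {Λ : Type x} {V : Λ → WeilCohomology.{u, v} ops} (l₀ : Λ)
    {P : Polarized 𝒱} (hD : ∀ l, HomEqNum (V l) P.X)
    (hmid : ∀ l, transcendental (V l) P.X ≤ (V l).gr P.X P.X.dim) (heven : Even P.X.dim)
    {N : ℕ} (hN : 0 < N) {q : ℚ} (hq : 0 < q) (hdisc : ∀ l, HasDisc (V l) P.X N q)
    {f : Module.End (V l₀).K ((V l₀).H P.X)} (F : Fp (V l₀) P.X P.D f) :
    DetData V l₀ P f := by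
  have : Nonempty Λ := ⟨l₀⟩
  obtain ⟨m, rfl⟩ : ∃ m, N = m + 1 := ⟨N - 1, by omega⟩
  have hrank : ∀ l, Module.finrank (V l).K (transcendental (V l) P.X) = m + 1 := by
    intro l
    obtain ⟨t, -⟩ := hdisc l
    rw [Module.finrank_eq_card_basis t, Fintype.card_fin]
  choose s o R ho hR using fun l => exists_adapted_SB (P := P) (hD l) (hmid l) heven
    (by rw [hrank l]; exact Nat.succ_pos m)
  have hNT : ∀ l, m + 1 = (s l).NT := by
    intro l
    rw [← hrank l, Module.finrank_eq_card_basis (s l).uT, Fintype.card_fin]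
  obtain ⟨v, κ, h1, h2, h3⟩ := exists_TD hD hmid heven hq hdisc s fun l => finCongr (hNT l)
  exact ⟨s l₀, o l₀, R l₀, m, finCongr (hNT l₀), v, κ l₀, q, _, ho l₀, hR l₀, h1, h2 l₀,
    h3 l₀ f F⟩

section main

variable {Λ : Type x} {V : Λ → WeilCohomology.{u, v} ops} {l₀ : Λ} {Γ : Type w} [Group Γ]
  {χ : Γ →* (V l₀).Kˣ} {G : Set (GVar (V l₀) Γ)} {ι : Type} {X : ι → GVar (V l₀) Γ}
  {D : ∀ i, (X i).X.Cycles} {Z : GVar (V l₀) Γ} {E : Z.X.Cycles}

/-- **Positivity for the twisted classes on products with powers.** -/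
theorem tw_tower (h : NodalSystem χ G X D Z) {γ : ι → Γ}
    (hγ : ∀ i, PLVar (X i) (γ i) ∧ χ (γ i) = 1 ∧ TrivVar Z (γ i) ∧
      ∀ j, j ≠ i → TrivVar (X j) (γ i))
    {f : ∀ i, Module.End (V l₀).K ((V l₀).H (X i).X)}
    (hf : ∀ i, Fp (V l₀) (X i).X (D i) (f i))
    (hls : ∀ i, LefStr ((V l₀).isInternal (X i).X) (X i).X.dim
      (LinearMap.mulLeft (V l₀).K ((V l₀).cl (X i).X (D i))) (f i))
    {g : Module.End (V l₀).K ((V l₀).H Z.X)} (hg : Fp (V l₀) Z.X E g)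
    (hZ1 : (1 : (V l₀).H Z.X) ≠ 0)
    (hbase : ∀ (Ω : GVar (V l₀) Γ) (ω : ∀ l, (V l).H Ω.X) (d : ℚ) (e : ℕ), Ω ∈ G →
      TD V Ω.X ω d e → Tw (V l₀) Ω.X (ω l₀) d Z.X E g) :
    ∀ L : List (ι × ℕ), (L.map Prod.fst).Nodup →
      (∀ a ∈ L, Even (X a.1).X.dim → a.2 + 1 < transRank (V l₀) (X a.1).X ∨
        (3 ≤ transRank (V l₀) (X a.1).X ∧ DetData V l₀ ⟨(X a.1).X, D a.1⟩ (f a.1))) →
    ∀ (Ω : GVar (V l₀) Γ) (ω : ∀ l, (V l).H Ω.X) (d : ℚ) (e : ℕ), Ω ∈ G →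
      TD V Ω.X ω d e → (∀ a ∈ L, TrivAct Ω.act (γ a.1)) →
      Tw (V l₀) Ω.X (ω l₀) d
        (tower' ops (fun i => (⟨(X i).X, D i⟩ : Polarized 𝒱)) ⟨Z.X, E⟩ L).X
        (tower' ops (fun i => (⟨(X i).X, D i⟩ : Polarized 𝒱)) ⟨Z.X, E⟩ L).D (gT D E f g L) := by
  intro L
  induction L with
  | nil =>
    intro _ _ Ω ω d e hΩ hTD _
    exact hbase Ω ω d e hΩ hTD
  | cons a L ih =>
    intro hL hdat Ω ω d e hΩ hTD htriv
    rw [List.map_cons, List.nodup_cons] at hL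
    have ih' := ih hL.2 fun b hb => hdat b (List.mem_cons_of_mem _ hb)
    have hne : ∀ b ∈ L, b.1 ≠ a.1 := fun b hb hab =>
      hL.1 (List.mem_map.2 ⟨b, hb, hab⟩)
    set A : GVar (V l₀) Γ := X a.1 with hA
    set Y := (tower' ops (fun i => (⟨(X i).X, D i⟩ : Polarized 𝒱)) ⟨Z.X, E⟩ L).X with hY
    obtain ⟨υ, hυ, hυ'⟩ := exists_tower_act (D := D) h.galoisClass h.mem h.mem_base E L
    obtain ⟨υ', hυY, hυY'⟩ := exists_prod_act (A := ⟨Y, υ⟩) h.galoisClass hυ hΩ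
    have htY : TrivAct υ' (γ a.1) := hυY' _ (hυ' _ (fun b hb =>
      (hγ a.1).2.2.2 b.1 (hne b hb)) (hγ a.1).2.2.1) (htriv a List.mem_cons_self)
    have hpol := (h.transIrred a.1).polarization
    have hmid := (h.transIrred a.1).middle
    have hGf := gT_fr (fun i => (hf i).fr) hg.fr L
    by_cases hbig : Even A.X.dim ∧ ¬ a.2 + 1 < transRank (V l₀) A.X
    · obtain ⟨heven, hrk⟩ := hbig
      obtain ⟨hN3', s, o, R, m, σ, v, κ, q, e', ho, hR, hTDv, hv0, hvv⟩ :=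
        (hdat a List.mem_cons_self heven).resolve_left hrk
      have hN3 : 3 ≤ transRank (V l₀) A.X := hN3'
      obtain ⟨b, hb⟩ := exists_monoBasis (ops := ops) (⟨A.X, D a.1⟩ : Polarized 𝒱) s.e a.2
      obtain ⟨b', hb'⟩ := exists_monoBasis (ops := ops) (⟨A.X, D a.1⟩ : Polarized 𝒱) s.e m
      have hNod : Nodal χ A (D a.1) Z 1 :=
        ⟨hpol, hmid, (h.transIrred a.1).irreducible, ⟨γ a.1, (hγ a.1).1, (hγ a.1).2.1,
          (hγ a.1).2.2.1⟩, fun _ => ⟨h.few ⟨_, heven⟩, by omega⟩⟩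
      have hsq := hsq_nodal h.galoisClass (h.mem a.1) h.mem_base hNod hZ1 (hf a.1)
      obtain ⟨υ2, hυ2, hυ2'⟩ := exists_twist_act h.galoisClass hΩ (h.mem a.1) (D a.1) m
      refine tw_even (P := ⟨A.X, D a.1⟩) (hf a.1) (hls a.1) hpol.hard hpol.lefschetz
        hNod.homEqNum hmid heven hNod.one_ne hsq ho hR hb hb' σ (κ := κ) ?_ hTDv.pos.ne' hvv hGf
        ?_ (ih' Ω ω d e hΩ hTD fun b hb => htriv b (List.mem_cons_of_mem _ hb)) ?_
      · intro r
        rw [hv0, map_smul, smul_eq_mul, v0_coord σ hb']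
      · intro u hu
        exact inv_AS h.galoisClass (h.mem a.1) (B := ⟨Y.prod Ω.X, υ'⟩) hυY hNod.homEqNum hmid
          heven (h.transIrred a.1).irreducible (hγ a.1).1 (hγ a.1).2.1 htY
          (h.few ⟨_, heven⟩) (by omega) hb hu
      · exact ih' ⟨Ω.X.prod (nest ops m fun _ => (⟨A.X, D a.1⟩ : Polarized 𝒱)).X, υ2⟩ _ (d * q)
          (e + e') hυ2 (hTD.prod hTDv) fun b hb =>
            hυ2' _ (htriv b (List.mem_cons_of_mem _ hb))
              ((hγ b.1).2.2.2 a.1 (Ne.symm (hne b hb)))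
    · have hfew : ∀ n ≤ a.2, Even A.X.dim → FewRoots (V l₀).K ∧
          n + 1 < transRank (V l₀) A.X := by
        intro n hn he
        refine ⟨h.few ⟨_, he⟩, ?_⟩
        by_contra hcon
        exact hbig ⟨he, by omega⟩
      have hNod : ∀ n ≤ a.2, Nodal χ A (D a.1) Z n := fun n hn =>
        ⟨hpol, hmid, (h.transIrred a.1).irreducible, ⟨γ a.1, (hγ a.1).1, (hγ a.1).2.1,
          (hγ a.1).2.2.1⟩, hfew n hn⟩
      have hNodY : Nodal χ A (D a.1) ⟨Y.prod Ω.X, υ'⟩ a.2 :=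
        ⟨hpol, hmid, (h.transIrred a.1).irreducible, ⟨γ a.1, (hγ a.1).1, (hγ a.1).2.1,
          htY⟩, hfew a.2 le_rfl⟩
      have hDX := hNodY.homEqNum
      obtain ⟨s⟩ := exists_SB hDX
      have hFp : Fp (V l₀) (nest ops a.2 fun _ => (⟨A.X, D a.1⟩ : Polarized 𝒱)).X
          (nest ops a.2 fun _ => (⟨A.X, D a.1⟩ : Polarized 𝒱)).D
          (fN ops (P := ⟨A.X, D a.1⟩) (f a.1) a.2) := by
        by_cases h0 : a.2 = 0
        · rw [h0]
          exact hf a.1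
        · exact fp_nestN (P := ⟨A.X, D a.1⟩) (hf a.1) (hls a.1) hpol.hard hpol.lefschetz
            hDX hmid s hNodY.one_ne a.2 (hsq_nodal h.galoisClass (h.mem a.1) h.mem_base
              (hNod 1 (by omega)) hZ1 (hf a.1))
            (fun c hc => mq_nodal h.galoisClass (h.mem a.1) h.mem_base (hNod a.2 le_rfl) hZ1 s
              hc)
      obtain ⟨N, e0, w, he, hw, horth, hexp⟩ := hFp.exists_onb
      exact tw_step hFp.fr hGf he hw horth hexp (fun u hu => tgt_lspan hDX hmid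
        (hNodY.mem_Tgt h.galoisClass (h.mem a.1) hυY hDX s le_rfl hu))
        (ih' Ω ω d e hΩ hTD fun b hb => htriv b (List.mem_cons_of_mem _ hb))

end main

end Pool.Agent.V5helper86.AP
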